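import Pool.Agent.Helper19.VE.Defs

/-!
# VE-8: arithmetic for the moduli near `N^(1/2)`, `d = 1/270`

With `q = N^k`, `K j = N^(b j)`: `1/2 - 2 d ≤ k ≤ 1/2 + 2 d`, `b j ≤ 1/5 + d` (`j ≠ j0`), `K j0 ≤ 16 N^(1/5 + 10 d/3)`, `∑ b ≤ 1`. Every term of `SG q (K j)`, `j ≠ j0`, is
`≤ N^(13 k/12 + 5/2 b j)` (all exponents of `K` are `≥ 5/2` and `b j ≤ 1/5 + d`), every term of `SG q (K j0)` is
`≤ 16^5 N^(2 k/3 + (1/5 + 10 d/3) + 5/2 b j0)` (put `K j0 = 16 y`, `y ≤ N^(1/5 + 10 d/3)`). The total exponent is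
`(1/5) (13 k/3 + 2 k/3 + 1/5 + 10 d/3 + 5/2) - k/2 = k/2 + 27/50 + 2 d/3 ≤ 4/5 - d` for `k = 1/2 + 2 d`, `d = 1/270` (as `8 d / 3 ≤ 1/100`).
-/

namespace Pool.Helper19.VE

open Finset

/-- a bound for `SG` from bounds for the logarithms of its terms -/
private lemma sgexp68 {q K M : ℝ} (hq : 0 < q) (hK : 0 < K) (h1 : 5 * Real.log K ≤ M)
    (h2 : 13 / 12 * Real.log q + 5 / 2 * Real.log K ≤ M) (h3 : Real.log q + 27 / 10 * Real.log K ≤ M)
    (h4 : 2 / 3 * Real.log q + 7 / 2 * Real.log K ≤ M) (h6 : 7 / 8 * Real.log q + 3 * Real.log K ≤ M) :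
    SG q K ≤ 5 * Real.exp M := by
  have e1 : K ^ (5 : ℝ) ≤ Real.exp M := by
    rw [Real.rpow_def_of_pos hK]
    exact Real.exp_le_exp.mpr (by linarith)
  have e2 : q ^ (13 / 12 : ℝ) * K ^ (5 / 2 : ℝ) ≤ Real.exp M := by
    rw [Real.rpow_def_of_pos hK, Real.rpow_def_of_pos hq, ← Real.exp_add]
    exact Real.exp_le_exp.mpr (by linarith)
  have e3 : q * K ^ (27 / 10 : ℝ) ≤ Real.exp M := by
    rw [Real.rpow_def_of_pos hK]
    calc q * Real.exp (Real.log K * (27 / 10)) = Real.exp (Real.log q + Real.log K * (27 / 10)) := by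
          rw [Real.exp_add, Real.exp_log hq]
      _ ≤ _ := Real.exp_le_exp.mpr (by linarith)
  have e4 : q ^ (2 / 3 : ℝ) * K ^ (7 / 2 : ℝ) ≤ Real.exp M := by
    rw [Real.rpow_def_of_pos hK, Real.rpow_def_of_pos hq, ← Real.exp_add]
    exact Real.exp_le_exp.mpr (by linarith)
  have e5 : q ^ (7 / 8 : ℝ) * K ^ (3 : ℝ) ≤ Real.exp M := by
    rw [Real.rpow_def_of_pos hK, Real.rpow_def_of_pos hq, ← Real.exp_add]
    exact Real.exp_le_exp.mpr (by linarith)
  unfold SG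
  linarith

theorem arith_g : ∃ C : ℝ, 0 < C ∧ ∀ N q : ℝ, 1 ≤ N → N ^ (1 / 2 - 2 * (1 / 270) : ℝ) ≤ q →
    q ≤ N ^ (1 / 2 + 2 * (1 / 270) : ℝ) → ∀ (j0 : Fin 5) (K : Fin 5 → ℝ), (∀ j, 1 ≤ K j) →
    (∀ j, j ≠ j0 → K j ≤ N ^ (1 / 5 + 1 / 270 : ℝ)) → K j0 ≤ 16 * N ^ (1 / 5 + 10 / 3 * (1 / 270) : ℝ) → ∏ j, K j ≤ N →
      (∏ j, SG q (K j)) ^ (1 / 5 : ℝ) / Real.sqrt q ≤ C * N ^ (4 / 5 - 1 / 270 : ℝ) := by
  refine ⟨5 * Real.exp (1 / 2 * Real.log 16), by positivity, ?_⟩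
  intro N q hN hq1 hq2 j0 K hK hKj hK0 hprod
  have hN0 : 0 < N := by linarith
  have hq0 : 0 < q := lt_of_lt_of_le (by positivity) hq1
  have hK' : ∀ j, 0 < K j := fun j => by linarith [hK j]
  have hL : 0 ≤ Real.log N := Real.log_nonneg hN
  have hS : 0 ≤ Real.log 16 := Real.log_nonneg (by norm_num)
  have l1 : (1 / 2 - 2 * (1 / 270)) * Real.log N ≤ Real.log q := by
    have := Real.log_le_log (by positivity) hq1
    rwa [Real.log_rpow hN0] at this
  have l2 : Real.log q ≤ (1 / 2 + 2 * (1 / 270)) * Real.log N := by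
    have := Real.log_le_log hq0 hq2
    rwa [Real.log_rpow hN0] at this
  have lb : ∀ j, 0 ≤ Real.log (K j) := fun j => Real.log_nonneg (hK j)
  have l3 : ∀ j, j ≠ j0 → Real.log (K j) ≤ (1 / 5 + 1 / 270) * Real.log N := by
    intro j hj
    have := Real.log_le_log (hK' j) (hKj j hj)
    rwa [Real.log_rpow hN0] at this
  have l4 : Real.log (K j0) ≤ Real.log 16 + (1 / 5 + 10 / 3 * (1 / 270)) * Real.log N := by
    have := Real.log_le_log (hK' j0) hK0
    rwa [Real.log_mul (by norm_num) (by positivity), Real.log_rpow hN0] at this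
  have l5 : ∑ j, Real.log (K j) ≤ Real.log N := by
    rw [← Real.log_prod (fun j _ => (hK' j).ne')]
    exact Real.log_le_log (Finset.prod_pos fun j _ => hK' j) hprod
  -- the bounds for the factors
  have key : ∀ j, SG q (K j) ≤ 5 * Real.exp (13 / 12 * Real.log q + 5 / 2 * Real.log (K j) +
      (if j = j0 then 5 / 2 * Real.log 16 + (1 / 5 + 10 / 3 * (1 / 270)) * Real.log N - 5 / 12 * Real.log q else 0)) := by
    intro j
    by_cases hj : j = j0
    · subst hj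
      rw [if_pos rfl]
      refine sgexp68 hq0 (hK' j) ?_ ?_ ?_ ?_ ?_ <;> nlinarith [lb j]
    · rw [if_neg hj]
      have h3 := l3 j hj
      refine sgexp68 hq0 (hK' j) ?_ ?_ ?_ ?_ ?_ <;> linarith [lb j]
  have hP : ∏ j, SG q (K j) ≤ (5 * Real.exp (1 / 2 * Real.log 16 + Real.log q +
      1 / 5 * (1 / 5 + 10 / 3 * (1 / 270)) * Real.log N + 1 / 2 * Real.log N)) ^ 5 := by
    calc ∏ j, SG q (K j) ≤ ∏ j, (5 * Real.exp (13 / 12 * Real.log q + 5 / 2 * Real.log (K j) +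
          (if j = j0 then 5 / 2 * Real.log 16 + (1 / 5 + 10 / 3 * (1 / 270)) * Real.log N - 5 / 12 * Real.log q else 0))) :=
          Finset.prod_le_prod (fun j _ => (SG_pos hq0 (hK' j)).le) (fun j _ => key j)
      _ = 5 ^ 5 * Real.exp (5 * (13 / 12 * Real.log q) + 5 / 2 * ∑ j, Real.log (K j) +
          (5 / 2 * Real.log 16 + (1 / 5 + 10 / 3 * (1 / 270)) * Real.log N - 5 / 12 * Real.log q)) := by
          rw [Finset.prod_mul_distrib, ← Real.exp_sum, Finset.sum_add_distrib, Finset.sum_add_distrib,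
            Finset.sum_ite_eq' univ j0, ← Finset.mul_sum, ← Finset.mul_sum]
          simp only [Finset.prod_const, Finset.card_univ, Fintype.card_fin, Finset.sum_const, Finset.mem_univ, if_true,
            nsmul_eq_mul]
          norm_num
          ring
      _ ≤ 5 ^ 5 * Real.exp (5 * (1 / 2 * Real.log 16 + Real.log q +
          1 / 5 * (1 / 5 + 10 / 3 * (1 / 270)) * Real.log N + 1 / 2 * Real.log N)) := by
          gcongr
          linarith
      _ = _ := by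
          rw [mul_pow, ← Real.exp_nat_mul]
          norm_num
  have hpos : 0 ≤ ∏ j, SG q (K j) := Finset.prod_nonneg fun j _ => (SG_pos hq0 (hK' j)).le
  have hsq : Real.sqrt q = Real.exp (1 / 2 * Real.log q) := by
    rw [Real.sqrt_eq_rpow, Real.rpow_def_of_pos hq0, mul_comm]
  have h5 : (∏ j, SG q (K j)) ^ (1 / 5 : ℝ) ≤ 5 * Real.exp (1 / 2 * Real.log 16 + Real.log q +
      1 / 5 * (1 / 5 + 10 / 3 * (1 / 270)) * Real.log N + 1 / 2 * Real.log N) := by
    calc (∏ j, SG q (K j)) ^ (1 / 5 : ℝ) ≤ ((5 * Real.exp (1 / 2 * Real.log 16 + Real.log q +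
      1 / 5 * (1 / 5 + 10 / 3 * (1 / 270)) * Real.log N + 1 / 2 * Real.log N)) ^ 5) ^ (1 / 5 : ℝ) :=
          Real.rpow_le_rpow hpos hP (by norm_num)
      _ = _ := by
          rw [← Real.rpow_natCast, ← Real.rpow_mul (by positivity)]
          norm_num
  rw [div_le_iff₀ (by positivity)]
  refine h5.trans ?_
  rw [hsq, Real.rpow_def_of_pos hN0]
  calc 5 * Real.exp (1 / 2 * Real.log 16 + Real.log q +
      1 / 5 * (1 / 5 + 10 / 3 * (1 / 270)) * Real.log N + 1 / 2 * Real.log N) ≤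
      5 * Real.exp (1 / 2 * Real.log 16 + Real.log N * (4 / 5 - 1 / 270) + 1 / 2 * Real.log q) := by
        refine mul_le_mul_of_nonneg_left (Real.exp_le_exp.mpr ?_) (by norm_num)
        linarith
    _ = _ := by
        rw [Real.exp_add, Real.exp_add]
        ring

end Pool.Helper19.VE
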