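import Pool.Agent.Helper19.VE.Defs

/-!
# VE-9: arithmetic for the pairs, `d = 1/270`

With `Q = N^k`, `K j = N^(b j)`: `0 ≤ k ≤ 1/2 - 2 d` (up to the factor 2), `b j ≥ 1/5 - 4 d`, `b j ≤ 1/5 + d` (`j ≠ j0`), `K j0 ≤ 16 N^(1/5 + 10 d/3)`, `1 - 2 d ≤ ∑ b ≤ 1`. `SH Q K ≤ 2 max(K^5, Q K^(11/4))`, so the claim is
`∑ max(b j, .2 k + .55 b j) - k/2 ≤ max(∑ b - k/2, 4/5 - d)` up to constants: let `S` be the set of the variables with the second term larger (`.45 b j ≤ .2 k`);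
for `S = ∅` it is `∏ K / √Q`; for `S ≠ ∅` the exponent is `∑ b - .45 ∑_S b + (.2 #S - .5) k`. Linear programming (worst values, target `4/5 - d = .796296`):
`#S = 5`: `.796296` (`= .55 + k/2`), `#S = 4`: `.7889`, `3`: `.7831`, `2`: `.7861`, `1`: `.7917` (here `b j ≥ 1/5 - 4 d` is used). Each case is linear arithmetic in `b, k`. The factors `16`, `2` only change the constant
(put `b j0 = log_N (max (K j0 / 16) (N^(1/5 - 4 d)))`; the lower bound for the product is not needed in the linear arithmetic).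
-/

namespace Pool.Helper19.VE

open Finset

private lemma lin_h4 {L q c : ℝ} {u : Fin 5 → ℝ} (hL : 0 ≤ L) (hc : 0 ≤ c)
    (hq : q ≤ (1 / 2 - 2 * (1 / 270)) * L + c) (h1 : ∀ j, (1 / 5 - 4 * (1 / 270)) * L ≤ u j)
    (h2 : ∀ j, u j ≤ (1 / 5 + 10 / 3 * (1 / 270)) * L + 4 * c) (hs : ∑ j, u j ≤ L) :
    ∑ j, max (u j) (q / 5 + 11 / 20 * u j) - q / 2 ≤ ∑ j, u j - q / 2 ∨
      ∑ j, max (u j) (q / 5 + 11 / 20 * u j) - q / 2 ≤ (4 / 5 - 1 / 270) * L + 4 * c := by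
  have a0 := h1 0
  have a1 := h1 1
  have a2 := h1 2
  have a3 := h1 3
  have a4 := h1 4
  have b0 := h2 0
  have b1 := h2 1
  have b2 := h2 2
  have b3 := h2 3
  have b4 := h2 4
  rw [Fin.sum_univ_five] at hs ⊢
  rw [Fin.sum_univ_five]
  generalize u 0 = u0 at *
  generalize u 1 = u1 at *
  generalize u 2 = u2 at *
  generalize u 3 = u3 at *
  generalize u 4 = u4 at *
  clear h1 h2
  rcases max_cases u0 (q / 5 + 11 / 20 * u0) with ⟨e0, f0⟩ | ⟨e0, f0⟩ <;>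
    rcases max_cases u1 (q / 5 + 11 / 20 * u1) with ⟨e1, f1⟩ | ⟨e1, f1⟩ <;>
    rcases max_cases u2 (q / 5 + 11 / 20 * u2) with ⟨e2, f2⟩ | ⟨e2, f2⟩ <;>
    rcases max_cases u3 (q / 5 + 11 / 20 * u3) with ⟨e3, f3⟩ | ⟨e3, f3⟩ <;>
    rcases max_cases u4 (q / 5 + 11 / 20 * u4) with ⟨e4, f4⟩ | ⟨e4, f4⟩ <;>
    rw [e0, e1, e2, e3, e4] <;>
    first
    | exact Or.inl le_rfl
    | (right; clear e0 e1 e2 e3 e4; linarith)

private lemma SH_le_h4 (q u : ℝ) :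
    SH (Real.exp q) (Real.exp u) ≤ 2 * Real.exp (5 * max u (q / 5 + 11 / 20 * u)) := by
  unfold SH
  have h1 : (Real.exp u) ^ (5 : ℝ) = Real.exp (5 * u) := by rw [← Real.exp_mul, mul_comm]
  have h2 : Real.exp q * (Real.exp u) ^ (11 / 4 : ℝ) = Real.exp (q + 11 / 4 * u) := by
    rw [← Real.exp_mul, ← Real.exp_add]
    ring_nf
  rw [h1, h2]
  have h3 : Real.exp (5 * u) ≤ Real.exp (5 * max u (q / 5 + 11 / 20 * u)) :=
    Real.exp_le_exp.2 (by have := le_max_left u (q / 5 + 11 / 20 * u); linarith)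
  have h4 : Real.exp (q + 11 / 4 * u) ≤ Real.exp (5 * max u (q / 5 + 11 / 20 * u)) :=
    Real.exp_le_exp.2 (by have := le_max_right u (q / 5 + 11 / 20 * u); linarith)
  linarith

theorem arith_h : ∃ C : ℝ, 0 < C ∧ ∀ N Q : ℝ, 1 ≤ N → 1 ≤ Q → Q ≤ 2 * N ^ (1 / 2 - 2 * (1 / 270) : ℝ) →
    ∀ (j0 : Fin 5) (K : Fin 5 → ℝ), (∀ j, 1 ≤ K j) → (∀ j, N ^ (1 / 5 - 4 * (1 / 270) : ℝ) ≤ K j) →
    (∀ j, j ≠ j0 → K j ≤ N ^ (1 / 5 + 1 / 270 : ℝ)) → K j0 ≤ 16 * N ^ (1 / 5 + 10 / 3 * (1 / 270) : ℝ) →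
    N ^ (1 - 2 * (1 / 270) : ℝ) ≤ ∏ j, K j → ∏ j, K j ≤ N →
      (∏ j, SH Q (K j)) ^ (1 / 5 : ℝ) / Real.sqrt Q ≤ C * ((∏ j, K j) / Real.sqrt Q + N ^ (4 / 5 - 1 / 270 : ℝ)) := by
  refine ⟨32, by norm_num, fun N Q hN hQ hQN j0 K hK1 hKl hKu hKj hP hPN => ?_⟩
  obtain ⟨L, rfl⟩ : ∃ L, N = Real.exp L := ⟨Real.log N, (Real.exp_log (by linarith)).symm⟩
  obtain ⟨q, rfl⟩ : ∃ q, Q = Real.exp q := ⟨Real.log Q, (Real.exp_log (by linarith)).symm⟩
  obtain ⟨u, rfl⟩ : ∃ u : Fin 5 → ℝ, K = fun j => Real.exp (u j) :=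
    ⟨fun j => Real.log (K j), funext fun j => (Real.exp_log (by linarith [hK1 j])).symm⟩
  have hL : 0 ≤ L := Real.one_le_exp_iff.1 hN
  obtain ⟨c, hc2⟩ : ∃ c : ℝ, Real.exp c = 2 := ⟨Real.log 2, Real.exp_log (by norm_num)⟩
  have hc : 0 ≤ c := Real.one_le_exp_iff.1 (by rw [hc2]; norm_num)
  have h16 : Real.exp (4 * c) = 16 := by
    rw [mul_comm, Real.exp_mul, hc2]
    norm_num
  have hpow : ∀ x : ℝ, Real.exp L ^ x = Real.exp (x * L) := fun x => by rw [← Real.exp_mul, mul_comm]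
  have hQN' : q ≤ (1 / 2 - 2 * (1 / 270)) * L + c := by
    rw [← Real.exp_le_exp, Real.exp_add, hc2, ← hpow]
    linarith
  rw [hpow, ← h16, ← Real.exp_add, Real.exp_le_exp] at hKj
  simp only [hpow, Real.exp_le_exp] at hKl hKu
  rw [← Real.exp_sum] at hPN hP
  rw [Real.exp_le_exp] at hPN
  have hup : ∀ j, u j ≤ (1 / 5 + 10 / 3 * (1 / 270)) * L + 4 * c := by
    intro j
    by_cases hj : j = j0
    · rw [hj]
      linarith
    · have := hKu j hj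
      linarith
  have hlin := lin_h4 hL hc hQN' hKl hup hPN
  set m : ℝ := ∑ j, max (u j) (q / 5 + 11 / 20 * u j) with hm
  have h1 : ∏ j, SH (Real.exp q) (Real.exp (u j)) ≤ (2 * Real.exp m) ^ 5 := by
    calc ∏ j, SH (Real.exp q) (Real.exp (u j))
        ≤ ∏ j : Fin 5, 2 * Real.exp (5 * max (u j) (q / 5 + 11 / 20 * u j)) :=
          prod_le_prod (fun j _ => (SH_pos (Real.exp_pos _) (Real.exp_pos _)).le) (fun j _ => SH_le_h4 q (u j))
      _ = (2 * Real.exp m) ^ 5 := by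
          rw [prod_mul_distrib, ← Real.exp_sum, ← mul_sum, ← hm, prod_const, card_univ, Fintype.card_fin, mul_pow,
            ← Real.exp_nat_mul]
          norm_num
  have h2 : (∏ j, SH (Real.exp q) (Real.exp (u j))) ^ (1 / 5 : ℝ) ≤ 2 * Real.exp m := by
    calc (∏ j, SH (Real.exp q) (Real.exp (u j))) ^ (1 / 5 : ℝ)
        ≤ ((2 * Real.exp m) ^ 5) ^ (1 / 5 : ℝ) := Real.rpow_le_rpow
          (prod_nonneg fun j _ => (SH_pos (Real.exp_pos _) (Real.exp_pos _)).le) h1 (by norm_num)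
      _ = 2 * Real.exp m := by
          have := Real.pow_rpow_inv_natCast (x := 2 * Real.exp m) (n := 5) (by positivity) (by norm_num)
          rw [show (1 / 5 : ℝ) = (((5 : ℕ) : ℝ))⁻¹ by norm_num]
          exact this
  rw [← Real.exp_half, ← Real.exp_sum, ← Real.exp_sub, hpow, div_le_iff₀ (Real.exp_pos _)]
  refine h2.trans ?_
  have h3 : Real.exp m = Real.exp (m - q / 2) * Real.exp (q / 2) := by rw [← Real.exp_add]; ring_nf
  rw [h3, ← mul_assoc]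
  refine mul_le_mul_of_nonneg_right ?_ (Real.exp_pos _).le
  have p1 := Real.exp_pos (∑ j, u j - q / 2)
  have p2 := Real.exp_pos ((4 / 5 - 1 / 270) * L)
  rcases hlin with h | h
  · have := Real.exp_le_exp.2 h
    linarith
  · have := Real.exp_le_exp.2 h
    rw [Real.exp_add, h16] at this
    linarith

end Pool.Helper19.VE
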