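import Pool.Agent.Helper19.VE.Defs
import Pool.Agent.Helper19.V5.FiveBoxX
import Pool.Agent.Helper19.V5.BoxTwoX
import Pool.Agent.Helper69.FF.DivS

/-!
# VE-2: merging the short variables into one long variable

`T` five of the `k ≤ 9` variables, `i0 ∈ T`, `A = K i0 * ∏_{Tᶜ} K`. The function `w = f i0 * ∏_{i ∈ Tᶜ} f i` is supported
on `[A, 32 A)` (at most five factors) and `|w n| ≤ C N^ε` for `n ≤ 32 N` (divisor bound; iterate `‖(f * g) n‖ ≤ d(n) sup f sup g`, as in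
V4/Prod*.lean or V5/FifthT.lean). So `w = ∑_{l ≤ 4} w_l`, `w_l` the part on `[2^l A, 2^(l+1) A)`, and
`w_l / (C N^ε)` is `Pc (2^l A)`. For each `l`: if `M < ∏ K'` the sum is `0` (`SX_zero`), else `∏ K' ≤ N` and the cut-off `n ≤ M` is removed by
`sep_bound` (V4/Sep.lean) with the twists `tw ξ`, exactly as in the proof of `five_box_x` (V5/FiveBoxX.lean).
-/

namespace Pool.Helper19.VE

open ArithmeticFunction Finset Pool.Helper19.V4 Pool.Helper19.V5

/-- the part of `w` on `[2^l A, 2^(l+1) A)`, divided by `W` -/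
private noncomputable def wl53 (w : ArithmeticFunction ℂ) (A : ℕ) (W : ℝ) (l : ℕ) : ArithmeticFunction ℂ :=
  ⟨fun n => if 2 ^ l * A ≤ n ∧ n < 2 * (2 ^ l * A) then w n / (W : ℂ) else 0, by simp⟩

private lemma wl53_apply (w : ArithmeticFunction ℂ) (A : ℕ) (W : ℝ) (l n : ℕ) :
    wl53 w A W l n = if 2 ^ l * A ≤ n ∧ n < 2 * (2 ^ l * A) then w n / (W : ℂ) else 0 := rfl

private lemma wl53_sum {w : ArithmeticFunction ℂ} {A : ℕ} {W : ℝ} (hW : 0 < W)
    (h : ∀ n, w n ≠ 0 → A ≤ n ∧ n < 32 * A) (n : ℕ) :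
    w n = ∑ l ∈ range 5, (W : ℂ) * wl53 w A W l n := by
  have hWc : (W : ℂ) ≠ 0 := by exact_mod_cast hW.ne'
  by_cases h0 : w n = 0
  · rw [h0]
    symm
    refine Finset.sum_eq_zero fun l _ => ?_
    rw [wl53_apply, h0, zero_div]
    simp
  · obtain ⟨h1, h2⟩ := h n h0
    have e : (W : ℂ) * (w n / (W : ℂ)) = w n := by field_simp
    simp only [Finset.sum_range_succ, Finset.sum_range_zero, wl53_apply]
    norm_num
    split_ifs <;> first
      | omega
      | (simp only [e, mul_zero, add_zero, zero_add])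

private lemma SX53_mul {w F : ArithmeticFunction ℂ} {A : ℕ} {W : ℝ} (hW : 0 < W)
    (h : ∀ n, w n ≠ 0 → A ≤ n ∧ n < 32 * A) (M : ℕ) (x : ℝ) :
    SX (w * F) M x = ∑ l ∈ range 5, (W : ℂ) * SX (wl53 w A W l * F) M x := by
  unfold SX
  simp only [Finset.mul_sum]
  rw [Finset.sum_comm]
  refine Finset.sum_congr rfl fun n _ => ?_
  rw [ArithmeticFunction.mul_apply]
  have e1 : ∀ l ∈ range 5, (W : ℂ) * ((wl53 w A W l * F) n * ex ((n : ℝ) * x)) =
      ∑ p ∈ n.divisorsAntidiagonal, (W : ℂ) * wl53 w A W l p.1 * F p.2 * ex ((n : ℝ) * x) := by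
    intro l _
    rw [ArithmeticFunction.mul_apply, Finset.sum_mul, Finset.mul_sum]
    refine Finset.sum_congr rfl fun p _ => ?_
    ring
  rw [Finset.sum_congr rfl e1, Finset.sum_comm, Finset.sum_mul]
  refine Finset.sum_congr rfl fun p _ => ?_
  rw [← Finset.sum_mul, ← Finset.sum_mul, ← wl53_sum hW h]

theorem merge_x {ε : ℝ} (hε : 0 < ε) : ∃ C : ℝ, 0 < C ∧ ∀ N : ℕ, 2 ≤ N → ∀ x : ℝ,
    ∀ k ≤ 9, ∀ (f : Fin k → ArithmeticFunction ℂ) (K : Fin k → ℕ), (∀ i, Pc (K i) (f i)) →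
    ∀ T : Finset (Fin k), T.card = 5 → ∀ i0 ∈ T, ∀ B : ℝ, 0 ≤ B →
    (∀ (j0 : Fin 5) (g : Fin 5 → ArithmeticFunction ℂ) (K' : Fin 5 → ℕ) (l : ℕ), l ≤ 4 → (∀ j, Pc (K' j) (g j)) →
      (∀ j, j ≠ j0 → ∃ i ∈ T, K' j = K i) → K' j0 = 2 ^ l * (K i0 * ∏ i ∈ Tᶜ, K i) →
      ∏ j, K' j = 2 ^ l * ∏ i, K i → ∏ j, K' j ≤ N → ∀ X : ℕ, 32 * ∏ j, K' j ≤ X → ‖SX (∏ j, g j) X x‖ ≤ B) →
    ∀ M ≤ N, ‖SX (∏ i, f i) M x‖ ≤ C * (N : ℝ) ^ ε * B := by
  obtain ⟨C0, hC0, hsep⟩ := sep_bound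
  obtain ⟨C₁, hC₁, hdiv⟩ := Pool.Agent.Helper69.FF.div_bound (ε := ε / 10) (by positivity)
  obtain ⟨C₂, hC₂⟩ : ∃ C₂ : ℝ, C₂ = max 1 C₁ := ⟨_, rfl⟩
  have hC₂1 : 1 ≤ C₂ := by rw [hC₂]; exact le_max_left _ _
  have hC₂2 : C₁ ≤ C₂ := by rw [hC₂]; exact le_max_right _ _
  refine ⟨5 * (C₂ ^ 5 * (32 : ℝ) ^ (ε / 2)) * (C0 * ((32 : ℝ) ^ (ε / 2) / (ε / 2))), by positivity, ?_⟩
  intro N hN x k hk f K hK T hT i0 hi0 B hB hyp M hM
  have hNR : (2 : ℝ) ≤ N := by exact_mod_cast hN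
  have hN0 : (0 : ℝ) < N := by linarith
  have hK1 : ∀ i, 1 ≤ K i := fun i => (hK i).pos
  rcases lt_or_ge M (∏ i, K i) with hlt | hge
  · rw [SX_zero hK hlt, norm_zero]
    positivity
  obtain ⟨R, hR⟩ : ∃ R : ℕ, R = ∏ i ∈ Tᶜ, K i := ⟨_, rfl⟩
  obtain ⟨P, hP⟩ : ∃ P : ℕ, P = ∏ i ∈ T.erase i0, K i := ⟨_, rfl⟩
  obtain ⟨A, hA⟩ : ∃ A : ℕ, A = K i0 * R := ⟨_, rfl⟩
  rw [← hR, ← hA] at hyp
  have hKT : ∏ i ∈ T, K i = K i0 * P := by rw [hP, Finset.mul_prod_erase T K hi0]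
  have hprod : A * P = ∏ i, K i := by
    rw [← Finset.prod_compl_mul_prod T K, hKT, hA, hR]
    ring
  have hR1 : 1 ≤ R := by rw [hR]; exact Finset.one_le_prod' fun i _ => hK1 i
  have hP1 : 1 ≤ P := by rw [hP]; exact Finset.one_le_prod' fun i _ => hK1 i
  have hA1 : 1 ≤ A := by rw [hA]; exact Nat.mul_pos (hK1 i0) hR1
  have hAN : A ≤ N := by
    calc A ≤ A * P := Nat.le_mul_of_pos_right _ hP1
      _ = ∏ i, K i := hprod
      _ ≤ N := hge.trans hM
  have hcard : (Tᶜ : Finset (Fin k)).card ≤ 4 := by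
    rw [Finset.card_compl, Fintype.card_fin, hT]
    omega
  have hi0c : i0 ∉ Tᶜ := by
    rw [Finset.mem_compl]
    exact fun h => h hi0
  -- the long variable
  obtain ⟨w, hw⟩ : ∃ w : ArithmeticFunction ℂ, w = f i0 * ∏ i ∈ Tᶜ, f i := ⟨_, rfl⟩
  obtain ⟨F, hF⟩ : ∃ F : ArithmeticFunction ℂ, F = ∏ i ∈ T.erase i0, f i := ⟨_, rfl⟩
  have hwF : ∏ i, f i = w * F := by
    rw [← Finset.prod_compl_mul_prod T f, ← Finset.mul_prod_erase T f hi0, hw, hF]
    ring
  have hwsupp : ∀ n, w n ≠ 0 → A ≤ n ∧ n < 32 * A := by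
    intro n hn
    rw [hw, ArithmeticFunction.mul_apply] at hn
    obtain ⟨p, hp, hpn⟩ := Finset.exists_ne_zero_of_sum_ne_zero hn
    rw [Nat.mem_divisorsAntidiagonal] at hp
    have h1 := (hK i0).supp p.1 (left_ne_zero_of_mul hpn)
    have h2 := prod_supp Tᶜ (fun i _ => hK i) (right_ne_zero_of_mul hpn)
    rw [← hR] at h2
    have h3 : p.2 ≤ 16 * R := h2.2.trans (Nat.mul_le_mul_right _ (by
      calc 2 ^ (Tᶜ : Finset (Fin k)).card ≤ 2 ^ 4 := Nat.pow_le_pow_right (by norm_num) hcard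
        _ = 16 := by norm_num))
    rw [← hp.1, hA]
    constructor
    · exact Nat.mul_le_mul h1.1 h2.1
    · calc p.1 * p.2 < (2 * K i0) * p.2 := Nat.mul_lt_mul_of_pos_right h1.2 (by omega)
        _ ≤ (2 * K i0) * (16 * R) := Nat.mul_le_mul_left _ h3
        _ = 32 * (K i0 * R) := by ring
  obtain ⟨W, hW⟩ : ∃ W : ℝ, W = C₂ ^ 5 * (32 : ℝ) ^ (ε / 2) * (N : ℝ) ^ (ε / 2) := ⟨_, rfl⟩
  have hW0 : 0 < W := by rw [hW]; positivity
  have hwle : ∀ n, ‖w n‖ ≤ W := by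
    intro n
    by_cases hn : w n = 0
    · rw [hn, norm_zero]
      exact hW0.le
    obtain ⟨h1, h2⟩ := hwsupp n hn
    have hn0 : n ≠ 0 := by omega
    have h3 : n ≤ 32 * N := by omega
    have e1 : w = ∏ i ∈ insert i0 Tᶜ, f i := by rw [Finset.prod_insert hi0c, hw]
    have h4 := prod_le (insert i0 Tᶜ) (fun i _ n => (hK i).le n) hn0
    rw [← e1] at h4
    have h5 : (n.divisors.card : ℝ) ≤ C₂ * (32 * (N : ℝ)) ^ (ε / 10) := by
      refine (hdiv n hn0).trans (mul_le_mul hC₂2 ?_ (by positivity) (by linarith))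
      refine Real.rpow_le_rpow (by positivity) ?_ (by positivity)
      exact_mod_cast h3
    have h6 : (1 : ℝ) ≤ C₂ * (32 * (N : ℝ)) ^ (ε / 10) := by
      have : (1 : ℝ) ≤ (32 * (N : ℝ)) ^ (ε / 10) := Real.one_le_rpow (by linarith) (by positivity)
      nlinarith
    have h7 : (insert i0 Tᶜ : Finset (Fin k)).card ≤ 5 := by
      rw [Finset.card_insert_of_notMem hi0c]
      omega
    calc ‖w n‖ ≤ (n.divisors.card : ℝ) ^ (insert i0 Tᶜ : Finset (Fin k)).card := h4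
      _ ≤ (C₂ * (32 * (N : ℝ)) ^ (ε / 10)) ^ (insert i0 Tᶜ : Finset (Fin k)).card :=
          pow_le_pow_left₀ (by positivity) h5 _
      _ ≤ (C₂ * (32 * (N : ℝ)) ^ (ε / 10)) ^ 5 := pow_le_pow_right₀ h6 h7
      _ = W := by
        rw [mul_pow, ← Real.rpow_natCast ((32 * (N : ℝ)) ^ (ε / 10)) 5, ← Real.rpow_mul (by positivity), hW, mul_assoc,
          ← Real.mul_rpow (by norm_num) hN0.le]
        congr 2
        push_cast
        ring
  -- the bound for one piece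
  have hpiece : ∀ l ∈ range 5, ‖SX (wl53 w A W l * F) M x‖ ≤
      C0 * ((32 : ℝ) ^ (ε / 2) / (ε / 2) * (N : ℝ) ^ (ε / 2)) * B := by
    intro l hl
    rw [Finset.mem_range] at hl
    obtain ⟨e, he⟩ : ∃ e : Fin 5 → Fin k, e = T.orderEmbOfFin hT := ⟨_, rfl⟩
    have heinj : Function.Injective e := by
      rw [he]
      exact (T.orderEmbOfFin hT).injective
    have heT : ∀ j, e j ∈ T := by
      intro j
      rw [he]
      exact Finset.orderEmbOfFin_mem T hT j
    have hrange : ∃ j0, e j0 = i0 := by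
      have h1 : i0 ∈ Set.range (T.orderEmbOfFin hT) := by
        rw [Finset.range_orderEmbOfFin]
        exact hi0
      obtain ⟨j0, hj0⟩ := h1
      exact ⟨j0, by rw [he]; exact hj0⟩
    obtain ⟨j0, hj0⟩ := hrange
    have himg : ((Finset.univ : Finset (Fin 5)).erase j0).image e = T.erase i0 := by
      ext i
      rw [Finset.mem_image, Finset.mem_erase]
      constructor
      · rintro ⟨j, hj, rfl⟩
        rw [Finset.mem_erase] at hj
        exact ⟨fun h => hj.1 (heinj (h.trans hj0.symm)), heT j⟩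
      · rintro ⟨h1, h2⟩
        have h3 : i ∈ Set.range (T.orderEmbOfFin hT) := by
          rw [Finset.range_orderEmbOfFin]
          exact h2
        obtain ⟨j, hj⟩ := h3
        have hj' : e j = i := by rw [he]; exact hj
        refine ⟨j, ?_, hj'⟩
        rw [Finset.mem_erase]
        exact ⟨fun h => h1 (by rw [← hj', h, hj0]), Finset.mem_univ _⟩
    obtain ⟨g, hg⟩ : ∃ g : Fin 5 → ArithmeticFunction ℂ, g = fun j => if j = j0 then wl53 w A W l else f (e j) := ⟨_, rfl⟩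
    obtain ⟨K', hK'⟩ : ∃ K' : Fin 5 → ℕ, K' = fun j => if j = j0 then 2 ^ l * A else K (e j) := ⟨_, rfl⟩
    have hg0 : g j0 = wl53 w A W l := by rw [hg]; simp
    have hgj : ∀ j, j ≠ j0 → g j = f (e j) := by
      intro j hj
      rw [hg]
      simp [hj]
    have hK0 : K' j0 = 2 ^ l * A := by rw [hK']; simp
    have hKj : ∀ j, j ≠ j0 → K' j = K (e j) := by
      intro j hj
      rw [hK']
      simp [hj]
    have hgprod : ∏ j, g j = wl53 w A W l * F := by
      rw [← Finset.mul_prod_erase Finset.univ g (Finset.mem_univ j0), hg0, hF, ← himg,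
        Finset.prod_image (fun a _ b _ h => heinj h)]
      congr 1
      refine Finset.prod_congr rfl fun j hj => hgj j (Finset.ne_of_mem_erase hj)
    have hKprod : ∏ j, K' j = 2 ^ l * ∏ i, K i := by
      rw [← Finset.mul_prod_erase Finset.univ K' (Finset.mem_univ j0), hK0, ← hprod, hP, ← himg,
        Finset.prod_image (fun a _ b _ h => heinj h), mul_assoc]
      congr 2
      refine Finset.prod_congr rfl fun j hj => hKj j (Finset.ne_of_mem_erase hj)
    have hpc : ∀ j, Pc (K' j) (g j) := by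
      intro j
      by_cases hj : j = j0
      · rw [hj, hg0, hK0]
        refine ⟨Nat.mul_pos (by positivity) hA1, fun n hn => ?_, fun n => ?_⟩
        · rw [wl53_apply] at hn
          by_contra hcon
          rw [if_neg hcon] at hn
          exact hn rfl
        · rw [wl53_apply]
          split_ifs
          · rw [norm_div, Complex.norm_real, Real.norm_of_nonneg hW0.le, div_le_one hW0]
            exact hwle n
          · rw [norm_zero]
            exact zero_le_one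
      · rw [hgj j hj, hKj j hj]
        exact hK _
    rw [← hgprod]
    rcases lt_or_ge M (∏ j, K' j) with hlt' | hge'
    · rw [SX_zero hpc hlt', norm_zero]
      positivity
    have hPN : ∏ j, K' j ≤ N := hge'.trans hM
    obtain ⟨X, hX⟩ : ∃ X : ℕ, X = 32 * ∏ j, K' j := ⟨_, rfl⟩
    have hK'1 : 1 ≤ ∏ j, K' j := Finset.one_le_prod' fun j _ => (hpc j).pos
    have hX2 : 2 ≤ X := by omega
    have hgX : ∀ n, (∏ j, g j) n ≠ 0 → n ≤ X := by
      intro n hn
      have h1 := (prod_supp Finset.univ (fun j _ => hpc j) hn).2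
      rw [Finset.card_univ, Fintype.card_fin] at h1
      rw [hX]
      exact h1
    have hlogX : Real.log X ≤ (32 : ℝ) ^ (ε / 2) / (ε / 2) * (N : ℝ) ^ (ε / 2) := by
      have h1 : (X : ℝ) ≤ 32 * N := by
        have : X ≤ 32 * N := by rw [hX]; exact Nat.mul_le_mul_left _ hPN
        exact_mod_cast this
      have h2 : (0 : ℝ) < X := by
        have : 0 < X := by omega
        exact_mod_cast this
      calc Real.log X ≤ Real.log (32 * N) := Real.log_le_log h2 h1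
        _ ≤ (32 * (N : ℝ)) ^ (ε / 2) / (ε / 2) := Real.log_le_rpow_div (by positivity) (by positivity)
        _ = (32 : ℝ) ^ (ε / 2) / (ε / 2) * (N : ℝ) ^ (ε / 2) := by
          rw [Real.mul_rpow (by norm_num) (by positivity)]
          ring
    have hsum : SX (∏ j, g j) M x = ∑ n ∈ Icc 1 (min M X), (∏ j, g j) n * ex ((n : ℝ) * x) := by
      unfold SX
      symm
      refine Finset.sum_subset (Finset.Icc_subset_Icc_right (min_le_left _ _)) fun n hn hn' => ?_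
      have h0 : (∏ j, g j) n = 0 := by
        by_contra hne
        have h1 := hgX n hne
        rw [mem_Icc] at hn hn'
        exact hn' ⟨hn.1, le_min hn.2 h1⟩
      rw [h0, zero_mul]
    rw [hsum]
    refine (hsep X hX2 M _ B fun ξ => ?_).trans ?_
    · have h1 : ∑ n ∈ Icc 1 X, (∏ j, g j) n * ex ((n : ℝ) * x) * Complex.exp (((ξ * Real.log n : ℝ) : ℂ) * Complex.I) =
          SX (∏ j, tw ξ (g j)) X x := by
        rw [← tw_prod]
        unfold SX
        refine Finset.sum_congr rfl fun n _ => ?_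
        show (∏ j, g j) n * ex ((n : ℝ) * x) * Complex.exp (((ξ * Real.log n : ℝ) : ℂ) * Complex.I) =
          (∏ j, g j) n * Complex.exp (((ξ * Real.log n : ℝ) : ℂ) * Complex.I) * ex ((n : ℝ) * x)
        ring
      rw [h1]
      exact hyp j0 _ K' l (by omega) (fun j => tw_pc (hpc j) ξ)
        (fun j hj => ⟨e j, heT j, hKj j hj⟩) hK0 hKprod hPN X (by rw [hX])
    · refine mul_le_mul_of_nonneg_right (mul_le_mul_of_nonneg_left hlogX hC0.le) hB
  rw [hwF, SX53_mul hW0 hwsupp]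
  calc ‖∑ l ∈ range 5, (W : ℂ) * SX (wl53 w A W l * F) M x‖
      ≤ ∑ l ∈ range 5, ‖(W : ℂ) * SX (wl53 w A W l * F) M x‖ := norm_sum_le _ _
    _ ≤ ∑ _l ∈ range 5, W * (C0 * ((32 : ℝ) ^ (ε / 2) / (ε / 2) * (N : ℝ) ^ (ε / 2)) * B) := by
        refine Finset.sum_le_sum fun l hl => ?_
        rw [norm_mul, Complex.norm_real, Real.norm_of_nonneg hW0.le]
        exact mul_le_mul_of_nonneg_left (hpiece l hl) hW0.le
    _ = 5 * (W * (C0 * ((32 : ℝ) ^ (ε / 2) / (ε / 2) * (N : ℝ) ^ (ε / 2)) * B)) := by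
        rw [Finset.sum_const, Finset.card_range, nsmul_eq_mul]
        norm_num
    _ = 5 * (C₂ ^ 5 * (32 : ℝ) ^ (ε / 2)) * (C0 * ((32 : ℝ) ^ (ε / 2) / (ε / 2))) * (N : ℝ) ^ ε * B := by
        have h1 : (N : ℝ) ^ ε = (N : ℝ) ^ (ε / 2) * (N : ℝ) ^ (ε / 2) := by
          rw [← Real.rpow_add hN0]
          congr 1
          ring
        rw [h1, hW]
        ring

end Pool.Helper19.VE
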