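import Pool.Agent.Helper19.VE.Comb
import Pool.Agent.Helper19.VE.Merge
import Pool.Agent.Helper19.V5.DyadX
import Pool.Agent.Helper19.V5.BoxOneX
import Pool.Agent.Helper19.V5.BoxTwoX
import Pool.Agent.Helper19.V5.Appr

/-!
# VE-3: the Moebius sum from the sums with five variables

As `V5/RegA.lean` (`boxes62`, `regA`), with `QQ N x a q ≤ N^(51/100)`: `appr` with `M = N` gives a fraction for `box_one_x`
(a smooth variable longer than `N^(1/5 + d)`) and `box_two_x` (the first case of `comb_e`); in the second case of `comb_e` with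
`α i = log_N K i`: `∏ K ≥ N^(1 - 2 d)`, `K i ≤ N^(1/5 + d)` for all `i`, `K i ≥ N^(1/5 - 4 d)` for `i ∈ T`, `K j * ∏_{Tᶜ} K ≤ N^(1/5 + 10 d / 3)`, so `merge_x` and `F5` apply (`2^l ≤ 16`). `dyad_x`
with `z = ⌈N^(1/5)⌉` gives all `M ≤ N`. For `N < N0` the trivial bound.
-/

namespace Pool.Helper19.VE

open ArithmeticFunction Finset Pool.Helper19.V4 Pool.Helper19.V5

private lemma log_pow33 {e : ℝ} (he : 0 < e) : ∃ C : ℝ, 0 < C ∧ ∀ N : ℕ, 1 ≤ N →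
    ((Nat.log 2 N : ℝ) + 1) ^ 9 ≤ C * (N : ℝ) ^ e := by
  have hl : 0 < Real.log 2 := Real.log_pos one_lt_two
  refine ⟨(1 / (e / 9) / Real.log 2 + 1) ^ 9, by positivity, fun N hN => ?_⟩
  have hN1 : (1 : ℝ) ≤ N := by exact_mod_cast hN
  have hN0 : (0 : ℝ) < N := by linarith
  have h1 : (Nat.log 2 N : ℝ) ≤ Real.logb 2 N := by exact_mod_cast Real.natLog_le_logb N 2
  have h2 : Real.log N ≤ (N : ℝ) ^ (e / 9) / (e / 9) := Real.log_le_rpow_div hN0.le (by positivity)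
  have h3 : (1 : ℝ) ≤ (N : ℝ) ^ (e / 9) := Real.one_le_rpow hN1 (by positivity)
  have h4 : (Nat.log 2 N : ℝ) + 1 ≤ (1 / (e / 9) / Real.log 2 + 1) * (N : ℝ) ^ (e / 9) := by
    have h5 : Real.logb 2 N ≤ ((N : ℝ) ^ (e / 9) / (e / 9)) / Real.log 2 := by
      unfold Real.logb
      gcongr
    have h6 : ((N : ℝ) ^ (e / 9) / (e / 9)) / Real.log 2 = (1 / (e / 9) / Real.log 2) * (N : ℝ) ^ (e / 9) := by ring
    rw [h6] at h5
    nlinarith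
  have h7 : ((N : ℝ) ^ (e / 9)) ^ 9 = (N : ℝ) ^ e := by
    rw [← Real.rpow_natCast, ← Real.rpow_mul hN0.le]
    congr 1
    push_cast
    ring
  calc ((Nat.log 2 N : ℝ) + 1) ^ 9 ≤ ((1 / (e / 9) / Real.log 2 + 1) * (N : ℝ) ^ (e / 9)) ^ 9 :=
        pow_le_pow_left₀ (by positivity) h4 9
    _ = _ := by rw [mul_pow, h7]

private lemma ev_ge33 {e : ℝ} (he : 0 < e) (c : ℝ) : ∃ N0 : ℕ, ∀ N : ℕ, N0 ≤ N → c ≤ (N : ℝ) ^ e := by
  have ht : Filter.Tendsto (fun N : ℕ => ((N : ℝ)) ^ e) Filter.atTop Filter.atTop :=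
    (tendsto_rpow_atTop he).comp tendsto_natCast_atTop_atTop
  exact Filter.eventually_atTop.1 (ht.eventually_ge_atTop c)

private lemma zed33 {e : ℝ} (he : 0 < e) : ∃ N0 : ℕ, ∀ N : ℕ, N0 ≤ N →
    (⌈(N : ℝ) ^ ((1 : ℝ) / 5)⌉₊ : ℝ) ≤ (N : ℝ) ^ ((1 : ℝ) / 5 + e) := by
  obtain ⟨N0, h0⟩ := ev_ge33 he 2
  refine ⟨max N0 1, fun N hN => ?_⟩
  have hN0 : N0 ≤ N := (le_max_left _ _).trans hN
  have hN1 : 1 ≤ N := (le_max_right _ _).trans hN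
  have hNr : (1 : ℝ) ≤ N := by exact_mod_cast hN1
  have h1 : (1 : ℝ) ≤ (N : ℝ) ^ ((1 : ℝ) / 5) := Real.one_le_rpow hNr (by norm_num)
  have h2 := (Nat.ceil_lt_add_one (show (0 : ℝ) ≤ (N : ℝ) ^ ((1 : ℝ) / 5) by positivity)).le
  have h3 := h0 N hN0
  rw [Real.rpow_add (by linarith)]
  nlinarith

/-- all boxes -/
private lemma boxes33 {d : ℝ} (hd0 : 0 < d) (hd1 : d ≤ 1 / 150) {ε : ℝ} (hε : 0 < ε) : ∃ C : ℝ, 0 < C ∧ ∃ N0 : ℕ, 2 ≤ N0 ∧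
      ∀ N : ℕ, N0 ≤ N → ∀ (x : ℝ) (a : ℤ) (q : ℕ), 1 ≤ q → IsCoprime a (q : ℤ) →
      QQ N x a q ≤ 2 * (N : ℝ) ^ (51 / 100 : ℝ) → ∀ B : ℝ, 0 ≤ B → F5 d N x B →
      ∀ M ≤ N, ∀ k ≤ 9, ∀ (f : Fin k → ArithmeticFunction ℂ) (K : Fin k → ℕ), (∀ i, Pc (K i) (f i)) →
      (∀ i, Sm (K i) (f i) ∨ K i ≤ ⌈(N : ℝ) ^ ((1 : ℝ) / 5)⌉₊) → ‖SX (∏ i, f i) M x‖ ≤
        C * (N : ℝ) ^ ε * ((N : ℝ) / Real.sqrt (QQ N x a q) + (N : ℝ) ^ (4 / 5 - d : ℝ) + B) := by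
  classical
  obtain ⟨C1, hC1, h1⟩ := box_one_x hε
  obtain ⟨C2, hC2, h2⟩ := box_two_x hε
  obtain ⟨C3, hC3, h3⟩ := merge_x hε
  obtain ⟨N1, hN1⟩ := zed33 hd0
  refine ⟨9 * C1 + Real.sqrt (10 * C2) + C3, by positivity, max N1 2, le_max_right _ _,
    fun N hN x a q hq haq hQ1 B hB hF5 M hM k hk f K hf hsm => ?_⟩
  have hNa : N1 ≤ N := (le_max_left _ _).trans hN
  have hNc : 2 ≤ N := (le_max_right _ _).trans hN
  have hNr : (2 : ℝ) ≤ N := by exact_mod_cast hNc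
  have hN1r : (1 : ℝ) ≤ N := by linarith
  have hNp : (0 : ℝ) < N := by linarith
  have hq0 : (0 : ℝ) < q := by exact_mod_cast hq
  have hmono : ∀ {x y : ℝ}, x ≤ y → (N : ℝ) ^ x ≤ (N : ℝ) ^ y := fun hxy => Real.rpow_le_rpow_of_exponent_le hN1r hxy
  obtain ⟨Q, hQ⟩ : ∃ Q : ℝ, Q = QQ N x a q := ⟨_, rfl⟩
  rw [← hQ] at hQ1 ⊢
  have hQ2 : 1 ≤ Q := by rw [hQ]; exact QQ_pos (by positivity) hq
  have hQp : 0 < Q := by linarith
  have hsQ : 0 < Real.sqrt Q := Real.sqrt_pos.2 hQp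
  have hsQ1 : Real.sqrt Q ≤ Q := Real.sqrt_le_iff.2 ⟨hQp.le, by nlinarith⟩
  obtain ⟨A, hA⟩ : ∃ A : ℝ, A = (N : ℝ) / Real.sqrt Q := ⟨_, rfl⟩
  obtain ⟨Z, hZ⟩ : ∃ Z : ℝ, Z = (N : ℝ) ^ (4 / 5 - d : ℝ) := ⟨_, rfl⟩
  have hA0 : 0 < A := by rw [hA]; positivity
  have hZ0 : 0 < Z := by rw [hZ]; positivity
  have hNQ : (N : ℝ) / Q ≤ A := by
    rw [hA]
    exact div_le_div_of_nonneg_left hNp.le hsQ hsQ1
  have hAA : A ^ 2 = (N : ℝ) ^ 2 / Q := by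
    rw [hA, div_pow, Real.sq_sqrt hQp.le]
  have hQZ : Q ≤ 2 * Z := by
    rw [hZ]
    exact hQ1.trans (mul_le_mul_of_nonneg_left (hmono (by linarith)) (by norm_num))
  rw [← hA, ← hZ]
  rcases lt_or_ge M (∏ i, K i) with hlt | hge
  · rw [SX_zero hf hlt, norm_zero]
    positivity
  have hPN : ∏ i, K i ≤ N := hge.trans hM
  have hε1 : 1 ≤ (N : ℝ) ^ ε := Real.one_le_rpow hN1r hε.le
  have hε0 : 0 < (N : ℝ) ^ ε := by positivity
  have hC1' : 0 ≤ 9 * C1 * (N : ℝ) ^ ε * (A + Z + B) := by positivity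
  have hC2' : 0 ≤ Real.sqrt (10 * C2) * (N : ℝ) ^ ε * (A + Z + B) := by positivity
  have hC3' : 0 ≤ C3 * (N : ℝ) ^ ε * (A + Z + B) := by positivity
  have hsum : (9 * C1 + Real.sqrt (10 * C2) + C3) * (N : ℝ) ^ ε * (A + Z + B) =
      9 * C1 * (N : ℝ) ^ ε * (A + Z + B) + Real.sqrt (10 * C2) * (N : ℝ) ^ ε * (A + Z + B) +
        C3 * (N : ℝ) ^ ε * (A + Z + B) := by ring
  rw [hsum]
  -- the approximation
  obtain ⟨c, r0, hr0, hcr, hxr, hle⟩ := appr hq haq x hNp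
  rw [← hQ] at hle
  have hr0p : (0 : ℝ) < r0 := by exact_mod_cast hr0
  by_cases hbig : ∃ i, (N : ℝ) ^ ((1 : ℝ) / 5 + d) < K i
  · obtain ⟨i0, hi0⟩ := hbig
    have hS : Sm (K i0) (f i0) := by
      rcases hsm i0 with h | h
      · exact h
      · exfalso
        have e1 : (K i0 : ℝ) ≤ (⌈(N : ℝ) ^ ((1 : ℝ) / 5)⌉₊ : ℝ) := by exact_mod_cast h
        have e2 := hN1 N hNa
        linarith
    have f1 := h1 N hNc x c r0 hr0 hcr hxr k hk f K hf i0 hS M hM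
    have f2 : (N : ℝ) / K i0 ≤ Z := by
      have h0 : 0 < (N : ℝ) ^ ((1 : ℝ) / 5 + d) := by positivity
      have h4 : Z = N / (N : ℝ) ^ ((1 : ℝ) / 5 + d) := by
        rw [eq_div_iff h0.ne', hZ, ← Real.rpow_add hNp]
        have : (4 / 5 - d : ℝ) + (1 / 5 + d) = 1 := by ring
        rw [this, Real.rpow_one]
      rw [h4]
      exact div_le_div_of_nonneg_left hNp.le h0 hi0.le
    have f3 : (N : ℝ) / r0 + (N : ℝ) / K i0 + r0 ≤ 9 * (A + Z + B) := by linarith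
    have f4 : C1 * (N : ℝ) ^ ε * ((N : ℝ) / r0 + (N : ℝ) / K i0 + r0) ≤ 9 * C1 * (N : ℝ) ^ ε * (A + Z + B) := by
      calc C1 * (N : ℝ) ^ ε * ((N : ℝ) / r0 + (N : ℝ) / K i0 + r0) ≤ C1 * (N : ℝ) ^ ε * (9 * (A + Z + B)) :=
            mul_le_mul_of_nonneg_left f3 (by positivity)
        _ = _ := by ring
    linarith
  push Not at hbig
  -- exponents
  have hK1 : ∀ i, (1 : ℝ) ≤ K i := fun i => by exact_mod_cast (hf i).pos
  have hKp : ∀ i, (0 : ℝ) < K i := fun i => lt_of_lt_of_le one_pos (hK1 i)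
  obtain ⟨α, hα⟩ : ∃ α : Fin k → ℝ, α = fun i => Real.logb N (K i) := ⟨_, rfl⟩
  have hαK : ∀ i, (N : ℝ) ^ α i = K i := fun i => by rw [hα]; exact Real.rpow_logb hNp (by linarith) (hKp i)
  have hα0 : ∀ i, 0 ≤ α i := fun i => by rw [hα]; exact Real.logb_nonneg (by linarith) (hK1 i)
  have hαS : ∀ S : Finset (Fin k), ∏ i ∈ S, (K i : ℝ) = (N : ℝ) ^ ∑ i ∈ S, α i := by
    intro S
    rw [Real.rpow_sum_of_pos hNp]
    exact (Finset.prod_congr rfl fun i _ => hαK i).symm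
  have hα1 : ∀ i, α i ≤ 1 / 5 + d := by
    intro i
    rw [← Real.rpow_le_rpow_left_iff (x := (N : ℝ)) (by linarith), hαK]
    exact hbig i
  have hσ : ∑ i, α i ≤ 1 := by
    rw [← Real.rpow_le_rpow_left_iff (x := (N : ℝ)) (by linarith), ← hαS, Real.rpow_one]
    exact_mod_cast hPN
  obtain ⟨σ, hσd⟩ : ∃ σ : ℝ, σ = ∑ i, α i := ⟨_, rfl⟩
  have hσ0 : 0 ≤ σ := by rw [hσd]; exact Finset.sum_nonneg fun i _ => hα0 i
  rcases comb_e α hd0 hd1 hα0 hα1 hσ with ⟨T, hT1, hT2⟩ | ⟨hσ2, T, hT, hTl, i0, hi0, hTc⟩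
  · -- bilinear
    have f1 := h2 N hNc x c r0 hr0 hcr hxr k hk f K hf T M hM
    have hsplit : ∑ i ∈ T, α i + ∑ i ∈ Tᶜ, α i = σ := by rw [hσd]; exact Finset.sum_add_sum_compl T α
    rw [hαS T, hαS Tᶜ] at f1
    rw [← hσd] at hT1 hT2 hσ
    obtain ⟨s, hs⟩ : ∃ s : ℝ, s = ∑ i ∈ T, α i := ⟨_, rfl⟩
    have hs' : ∑ i ∈ Tᶜ, α i = σ - s := by linarith
    rw [hs', ← hs] at f1
    rw [← hs] at hT1 hT2
    rw [← Real.rpow_add hNp] at f1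
    have e0 : s + (σ - s) = σ := by ring
    rw [e0] at f1
    have hNσ : (N : ℝ) ^ σ ≤ N := (hmono hσ).trans (le_of_eq (Real.rpow_one _))
    have hNσ0 : 0 < (N : ℝ) ^ σ := by positivity
    have hZZ : Z ^ 2 = (N : ℝ) ^ ((8 : ℝ) / 5 - 2 * d) := by
      rw [hZ, ← Real.rpow_natCast, ← Real.rpow_mul hNp.le]
      congr 1
      push_cast
      ring
    have t2 : (N : ℝ) ^ σ * (N : ℝ) ^ s ≤ Z ^ 2 := by
      rw [hZZ, ← Real.rpow_add hNp]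
      exact hmono (by linarith)
    have t3 : (N : ℝ) ^ σ * (N : ℝ) ^ (σ - s) ≤ Z ^ 2 := by
      rw [hZZ, ← Real.rpow_add hNp]
      exact hmono (by linarith)
    have t1 : (N : ℝ) ^ σ * ((N : ℝ) ^ σ / r0 + r0) ≤ 4 * A ^ 2 + 8 * Z ^ 2 := by
      calc (N : ℝ) ^ σ * ((N : ℝ) ^ σ / r0 + r0) ≤ N * (N / r0 + r0) := by gcongr
        _ ≤ N * (4 * (N / Q + Q)) := mul_le_mul_of_nonneg_left hle hNp.le
        _ = 4 * ((N : ℝ) ^ 2 / Q) + 4 * (N * Q) := by ring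
        _ ≤ 4 * A ^ 2 + 8 * Z ^ 2 := by
          rw [hAA, hZZ]
          have : (N : ℝ) * Q ≤ 2 * (N : ℝ) ^ ((8 : ℝ) / 5 - 2 * d) := by
            calc (N : ℝ) * Q ≤ (N : ℝ) ^ (1 : ℝ) * (2 * (N : ℝ) ^ (51 / 100 : ℝ)) := by
                  rw [Real.rpow_one]
                  gcongr
              _ = 2 * (N : ℝ) ^ (1 + (51 / 100 : ℝ)) := by rw [Real.rpow_add hNp]; ring
              _ ≤ _ := mul_le_mul_of_nonneg_left (hmono (by linarith)) (by norm_num)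
          linarith
    have f2 : ‖SX (∏ i, f i) M x‖ ^ 2 ≤ (Real.sqrt (10 * C2) * (N : ℝ) ^ ε * (A + Z + B)) ^ 2 := by
      refine f1.trans ?_
      have f3 : C2 * (N : ℝ) ^ ε * (N : ℝ) ^ σ * ((N : ℝ) ^ σ / r0 + (N : ℝ) ^ s + (N : ℝ) ^ (σ - s) + r0) =
          C2 * (N : ℝ) ^ ε * ((N : ℝ) ^ σ * ((N : ℝ) ^ σ / r0 + r0) + (N : ℝ) ^ σ * (N : ℝ) ^ s + (N : ℝ) ^ σ * (N : ℝ) ^ (σ - s)) := by
        ring
      rw [f3]
      have f4 : (Real.sqrt (10 * C2) * (N : ℝ) ^ ε * (A + Z + B)) ^ 2 = C2 * (N : ℝ) ^ ε * ((N : ℝ) ^ ε * (10 * (A + Z + B) ^ 2)) := by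
        rw [mul_pow, mul_pow, Real.sq_sqrt (by positivity)]
        ring
      rw [f4]
      refine mul_le_mul_of_nonneg_left ?_ (by positivity)
      have f5 : A ^ 2 + Z ^ 2 ≤ (A + Z + B) ^ 2 := by
        have g1 : A ^ 2 + Z ^ 2 ≤ (A + Z) ^ 2 := by nlinarith [mul_pos hA0 hZ0]
        exact g1.trans (pow_le_pow_left₀ (by positivity) (by linarith) 2)
      have f6 : 0 ≤ 10 * (A + Z + B) ^ 2 := by positivity
      have f7 : 10 * (A + Z + B) ^ 2 ≤ (N : ℝ) ^ ε * (10 * (A + Z + B) ^ 2) := le_mul_of_one_le_left f6 hε1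
      have f8 : 0 ≤ A ^ 2 := by positivity
      linarith
    have f3 : ‖SX (∏ i, f i) M x‖ ≤ Real.sqrt (10 * C2) * (N : ℝ) ^ ε * (A + Z + B) :=
      (sq_le_sq₀ (norm_nonneg _) hC2').1 f2
    linarith
  · -- five variables
    have hR1 : (1 : ℝ) ≤ ∏ i ∈ Tᶜ, (K i : ℝ) := by
      have h5 : 1 ≤ ∏ i ∈ Tᶜ, K i := Nat.succ_le_of_lt (Finset.prod_pos fun i _ => (hf i).pos)
      have h6 : ((1 : ℕ) : ℝ) ≤ ((∏ i ∈ Tᶜ, K i : ℕ) : ℝ) := by exact_mod_cast h5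
      push_cast at h6
      exact h6
    have hW : (N : ℝ) ^ (1 - 2 * d : ℝ) ≤ ∏ i, (K i : ℝ) := by
      rw [show (∏ i, (K i : ℝ)) = (N : ℝ) ^ ∑ i, α i from hαS Finset.univ]
      exact hmono hσ2.le
    have hlowK : ∀ i ∈ T, (N : ℝ) ^ (1 / 5 - 4 * d : ℝ) ≤ K i := by
      intro i hi
      rw [← hαK i]
      exact hmono (hTl i hi).le
    have hupA : (K i0 : ℝ) * ∏ i ∈ Tᶜ, (K i : ℝ) ≤ (N : ℝ) ^ (1 / 5 + 10 / 3 * d : ℝ) := by
      rw [hαS Tᶜ, ← hαK i0, ← Real.rpow_add hNp]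
      exact hmono hTc
    have f1 := h3 N hNc x k hk f K hf T hT i0 hi0 B hB (by
      intro j0 g K' l hl hg hK1' hK2' hprod hPN' X hX
      have hl1 : (1 : ℝ) ≤ 2 ^ l := one_le_pow₀ (by norm_num)
      have hl2 : (2 : ℝ) ^ l ≤ 16 := by
        calc (2 : ℝ) ^ l ≤ 2 ^ 4 := pow_le_pow_right₀ (by norm_num) hl
          _ = 16 := by norm_num
      have hj0 : (K' j0 : ℝ) = 2 ^ l * (K i0 * ∏ i ∈ Tᶜ, (K i : ℝ)) := by
        rw [hK2']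
        push_cast
        rfl
      have hKR : (K i0 : ℝ) ≤ K i0 * ∏ i ∈ Tᶜ, (K i : ℝ) := le_mul_of_one_le_right (hKp i0).le hR1
      have hKR0 : 0 < (K i0 : ℝ) * ∏ i ∈ Tᶜ, (K i : ℝ) := lt_of_lt_of_le (hKp i0) hKR
      refine hF5 j0 g K' hg ?_ ?_ ?_ ?_ hPN' X hX
      · intro j
        by_cases hj : j = j0
        · rw [hj, hj0]
          calc (N : ℝ) ^ (1 / 5 - 4 * d : ℝ) ≤ K i0 := hlowK i0 hi0
            _ ≤ K i0 * ∏ i ∈ Tᶜ, (K i : ℝ) := hKR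
            _ ≤ _ := le_mul_of_one_le_left hKR0.le hl1
        · obtain ⟨i, hi, hij⟩ := hK1' j hj
          rw [hij]
          exact hlowK i hi
      · intro j hj
        obtain ⟨i, hi, hij⟩ := hK1' j hj
        rw [hij]
        exact hbig i
      · rw [hj0]
        exact mul_le_mul hl2 hupA hKR0.le (by norm_num)
      · have h5 : (∏ j, (K' j : ℝ)) = 2 ^ l * ∏ i, (K i : ℝ) := by
          have h6 : ((∏ j, K' j : ℕ) : ℝ) = ((2 ^ l * ∏ i, K i : ℕ) : ℝ) := by rw [hprod]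
          push_cast at h6
          exact h6
        rw [h5]
        refine hW.trans (le_mul_of_one_le_left ?_ hl1)
        exact Finset.prod_nonneg fun i _ => (hKp i).le) M hM
    have f2 : C3 * (N : ℝ) ^ ε * B ≤ C3 * (N : ℝ) ^ ε * (A + Z + B) :=
      mul_le_mul_of_nonneg_left (by linarith) (by positivity)
    linarith

theorem assemble {d : ℝ} (hd : 0 < d) (hd2 : d ≤ 1 / 150) {ε : ℝ} (hε : 0 < ε) : ∃ C : ℝ, 0 < C ∧ ∀ N : ℕ, 1 ≤ N →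
    ∀ (x : ℝ) (a : ℤ) (q : ℕ), 1 ≤ q → IsCoprime a (q : ℤ) → QQ N x a q ≤ 2 * (N : ℝ) ^ (51 / 100 : ℝ) →
    ∀ B : ℝ, 0 ≤ B → F5 d N x B →
    ∀ M ≤ N, ‖FM M x‖ ≤ C * (N : ℝ) ^ ε * ((N : ℝ) / Real.sqrt (QQ N x a q) + (N : ℝ) ^ (4 / 5 - d : ℝ) + B) := by
  obtain ⟨C, hC, N0, hN0, hb⟩ := boxes33 hd hd2 (ε := ε / 2) (by positivity)
  obtain ⟨C', hC', hl⟩ := log_pow33 (e := ε / 2) (by positivity)
  refine ⟨max (32 * C' * C) N0, by positivity, fun N hN x a q hq haq h1 B hB hF M hM => ?_⟩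
  have hN1 : (1 : ℝ) ≤ N := by exact_mod_cast hN
  have hNp : (0 : ℝ) < N := by linarith
  have hQ1 : 1 ≤ QQ N x a q := QQ_pos (by positivity) hq
  have hA0 : 0 ≤ (N : ℝ) / Real.sqrt (QQ N x a q) := by positivity
  rcases lt_or_ge N N0 with hlt | hge
  · -- trivial bound
    have e1 : ‖FM M x‖ ≤ M := by
      unfold FM
      have : ∀ n ∈ Icc 1 M, ‖((ArithmeticFunction.moebius n : ℤ) : ℂ) * ex (n * x)‖ ≤ 1 := by
        intro n _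
        rw [norm_mul, norm_ex, mul_one, Complex.norm_intCast]
        exact_mod_cast ArithmeticFunction.abs_moebius_le_one
      refine (norm_sum_le _ _).trans ((Finset.sum_le_card_nsmul _ _ _ this).trans ?_)
      simp
    have e2 : (1 : ℝ) ≤ (N : ℝ) ^ (4 / 5 - d : ℝ) := Real.one_le_rpow hN1 (by linarith)
    have e3 : (M : ℝ) ≤ N0 := by exact_mod_cast hM.trans hlt.le
    have e4 : (N0 : ℝ) ≤ max (32 * C' * C) N0 := le_max_right _ _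
    have e5 : (0 : ℝ) ≤ N0 := by positivity
    have e6 : (1 : ℝ) ≤ (N : ℝ) ^ ε := Real.one_le_rpow hN1 hε.le
    calc ‖FM M x‖ ≤ max (32 * C' * C) N0 := e1.trans (e3.trans e4)
      _ = max (32 * C' * C) N0 * 1 * 1 := by ring
      _ ≤ max (32 * C' * C) N0 * (N : ℝ) ^ ε * ((N : ℝ) / Real.sqrt (QQ N x a q) + (N : ℝ) ^ (4 / 5 - d : ℝ) + B) := by
        have e7 : 0 ≤ max (32 * C' * C) (N0 : ℝ) := e5.trans e4
        gcongr
        linarith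
  · have hN2 : 2 ≤ N := hN0.trans hge
    obtain ⟨z, hz⟩ : ∃ z : ℕ, z = ⌈(N : ℝ) ^ ((1 : ℝ) / 5)⌉₊ := ⟨_, rfl⟩
    have hz1 : 1 ≤ z := by
      rw [hz, Nat.one_le_ceil_iff]
      positivity
    have hz5 : N ≤ z ^ 5 := by
      have e1 : (N : ℝ) ^ ((1 : ℝ) / 5) ≤ z := by rw [hz]; exact Nat.le_ceil _
      have e2 : ((N : ℝ) ^ ((1 : ℝ) / 5)) ^ 5 ≤ (z : ℝ) ^ 5 := pow_le_pow_left₀ (by positivity) e1 5
      have e3 : ((N : ℝ) ^ ((1 : ℝ) / 5)) ^ 5 = N := by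
        rw [← Real.rpow_natCast, ← Real.rpow_mul hNp.le]
        norm_num
      rw [e3] at e2
      exact_mod_cast e2
    obtain ⟨Y, hY⟩ : ∃ Y : ℝ, Y = (N : ℝ) / Real.sqrt (QQ N x a q) + (N : ℝ) ^ (4 / 5 - d : ℝ) + B := ⟨_, rfl⟩
    have hY0 : 0 ≤ Y := by rw [hY]; positivity
    have e1 := dyad_x hN2 hz1 hz5 (x := x) (B := C * (N : ℝ) ^ (ε / 2) * Y) (by positivity)
      (fun M hM k hk f K hf hsm => by
        rw [hY]
        exact hb N hge x a q hq haq h1 B hB hF M hM k hk f K hf (by rw [← hz]; exact hsm)) M hM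
    rw [← hY]
    refine e1.trans ?_
    have e2 := hl N hN
    calc 32 * ((Nat.log 2 N : ℝ) + 1) ^ 9 * (C * (N : ℝ) ^ (ε / 2) * Y) ≤
        32 * (C' * (N : ℝ) ^ (ε / 2)) * (C * (N : ℝ) ^ (ε / 2) * Y) :=
          mul_le_mul_of_nonneg_right (mul_le_mul_of_nonneg_left e2 (by norm_num)) (by positivity)
      _ = 32 * C' * C * ((N : ℝ) ^ (ε / 2) * (N : ℝ) ^ (ε / 2)) * Y := by ring
      _ = 32 * C' * C * (N : ℝ) ^ ε * Y := by
          rw [← Real.rpow_add hNp]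
          congr 3
          ring
      _ ≤ max (32 * C' * C) N0 * (N : ℝ) ^ ε * Y := by
          have := le_max_left (32 * C' * C) (N0 : ℝ)
          gcongr

end Pool.Helper19.VE
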