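import Mathlib

/-!
# VE-1: the combinatorial lemma with the rest merged into one variable
-/


namespace Pool.Helper19.VE

open Finset

private theorem greedy19e {ι : Type*} [DecidableEq ι] (α : ι → ℝ) {l u : ℝ} {S₁ : Finset ι} :
    ∀ (n : ℕ) (S₀ : Finset ι), (S₁ \ S₀).card = n → ∑ i ∈ S₀, α i ≤ u → S₀ ⊆ S₁ →
      l ≤ ∑ i ∈ S₁, α i → (∀ i ∈ S₁ \ S₀, α i ≤ u - l) → ∃ T : Finset ι, l ≤ ∑ i ∈ T, α i ∧ ∑ i ∈ T, α i ≤ u := by
  intro n
  induction n with
  | zero =>
    intro S₀ hc hu hsub hl _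
    have h1 : S₀ = S₁ := Subset.antisymm hsub (sdiff_eq_empty_iff_subset.1 (card_eq_zero.1 hc))
    rw [← h1] at hl
    exact ⟨S₀, hl, hu⟩
  | succ n ih =>
    intro S₀ hc hu hsub hl hst
    by_cases h : l ≤ ∑ i ∈ S₀, α i
    · exact ⟨S₀, h, hu⟩
    · push Not at h
      obtain ⟨i, hi⟩ : (S₁ \ S₀).Nonempty := card_pos.1 (by omega)
      obtain ⟨hi1, hi2⟩ := mem_sdiff.1 hi
      have hai := hst i hi
      have hsd : S₁ \ insert i S₀ = (S₁ \ S₀).erase i := by
        ext x
        simp only [mem_sdiff, mem_insert, mem_erase]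
        tauto
      refine ih (insert i S₀) ?_ ?_ ?_ hl ?_
      · rw [hsd, card_erase_of_mem hi, hc]
        rfl
      · rw [sum_insert hi2]
        linarith
      · exact insert_subset hi1 hsub
      · intro j hj
        rw [hsd] at hj
        exact hst j (mem_of_mem_erase hj)

theorem comb_e {ι : Type*} [Fintype ι] [DecidableEq ι] (α : ι → ℝ) {d : ℝ} (hd : 0 < d) (hd2 : d ≤ 1 / 150)
    (h0 : ∀ i, 0 ≤ α i) (h1 : ∀ i, α i ≤ 1 / 5 + d) (hs : ∑ i, α i ≤ 1) :
    (∃ T : Finset ι, 2 * (∑ i, α i) - 8 / 5 + 2 * d ≤ ∑ i ∈ T, α i ∧ ∑ i ∈ T, α i ≤ 8 / 5 - (∑ i, α i) - 2 * d) ∨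
      (1 - 2 * d < ∑ i, α i ∧ ∃ T : Finset ι, T.card = 5 ∧ (∀ i ∈ T, 1 / 5 - 4 * d < α i) ∧
        ∃ j ∈ T, α j + ∑ i ∈ Tᶜ, α i ≤ 1 / 5 + 10 / 3 * d) := by
  obtain ⟨σ, hσ⟩ : ∃ σ : ℝ, σ = ∑ i, α i := ⟨_, rfl⟩
  rw [← hσ] at hs ⊢
  rcases le_or_gt σ (1 - 2 * d) with hc | hc
  · left
    rcases le_or_gt (2 * σ - 8 / 5 + 2 * d) 0 with hL | hL
    · refine ⟨∅, ?_, ?_⟩
      · rw [sum_empty]
        exact hL
      · rw [sum_empty]
        linarith
    · refine greedy19e α (S₁ := univ) _ ∅ rfl ?_ (empty_subset _) ?_ ?_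
      · rw [sum_empty]
        linarith
      · rw [← hσ]
        linarith
      · intro i _
        have := h1 i
        linarith
  · obtain ⟨B, hB⟩ : ∃ B : Finset ι, B = univ.filter (fun i => 1 / 5 - 4 * d < α i) := ⟨_, rfl⟩
    have hBm : ∀ i, i ∈ B ↔ 1 / 5 - 4 * d < α i := by
      intro i
      rw [hB, mem_filter]
      exact ⟨fun h => h.2, fun h => ⟨mem_univ i, h⟩⟩
    have hsplit : ∑ i ∈ B, α i + ∑ i ∈ Bᶜ, α i = σ := by
      rw [hσ]
      exact sum_add_sum_compl B α
    have red : (∃ T : Finset ι, 2 / 5 + 2 * d ≤ ∑ i ∈ T, α i ∧ ∑ i ∈ T, α i ≤ 3 / 5 - 2 * d) →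
        ∃ T : Finset ι, 2 * σ - 8 / 5 + 2 * d ≤ ∑ i ∈ T, α i ∧ ∑ i ∈ T, α i ≤ 8 / 5 - σ - 2 * d := by
      rintro ⟨T, hT1, hT2⟩
      exact ⟨T, by linarith, by linarith⟩
    rcases Nat.lt_or_ge B.card 2 with hb | hb
    · left
      refine red (greedy19e α (S₁ := univ) _ B rfl ?_ (subset_univ _) ?_ ?_)
      · rcases Nat.eq_zero_or_pos B.card with hb0 | hb0
        · rw [card_eq_zero.1 hb0, sum_empty]
          linarith
        · obtain ⟨i, hi⟩ := card_eq_one.1 (by omega : B.card = 1)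
          rw [hi, sum_singleton]
          have := h1 i
          linarith
      · rw [← hσ]
        linarith
      · intro i hi
        have h2 : i ∉ B := (mem_sdiff.1 hi).2
        rw [hBm] at h2
        push Not at h2
        linarith
    · obtain ⟨i, hi, himax⟩ := exists_max_image B α (card_pos.1 (by omega))
      obtain ⟨j, hj', hjmax⟩ := exists_max_image (B.erase i) α (card_pos.1 (by rw [card_erase_of_mem hi]; omega))
      have hj : j ∈ B := mem_of_mem_erase hj'
      have hij : i ≠ j := fun h => by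
        rw [h] at hj'
        exact (notMem_erase j B) hj'
      have ai := (hBm i).1 hi
      have aj := (hBm j).1 hj
      have bi := h1 i
      have bj := h1 j
      have hpair : ∑ k ∈ ({i, j} : Finset ι), α k = α i + α j := sum_pair hij
      have hdis : Disjoint ({i, j} : Finset ι) Bᶜ := by
        rw [disjoint_left]
        intro x hx
        rw [mem_insert, mem_singleton] at hx
        rw [mem_compl, not_not]
        rcases hx with rfl | rfl
        · exact hi
        · exact hj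
      have hsum : ∑ k ∈ ({i, j} : Finset ι) ∪ Bᶜ, α k = α i + α j + ∑ k ∈ Bᶜ, α k := by
        rw [sum_union hdis, hpair]
      rcases le_or_gt (2 / 5 + 2 * d) (∑ k ∈ ({i, j} : Finset ι) ∪ Bᶜ, α k) with hcase | hcase
      · left
        refine red (greedy19e α (S₁ := ({i, j} : Finset ι) ∪ Bᶜ) _ {i, j} rfl ?_ subset_union_left hcase ?_)
        · rw [hpair]
          linarith
        · intro k hk
          obtain ⟨hk1, hk2⟩ := mem_sdiff.1 hk
          have hk3 : k ∈ Bᶜ := (mem_union.1 hk1).resolve_left hk2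
          rw [mem_compl, hBm] at hk3
          push Not at hk3
          linarith
      · right
        rw [hsum] at hcase
        have hs10 : ∑ k ∈ Bᶜ, α k ≤ 10 * d := by linarith
        have hup : ∑ k ∈ B, α k ≤ B.card * (1 / 5 + d) := by
          have := sum_le_card_nsmul B α (1 / 5 + d) fun k _ => h1 k
          rwa [nsmul_eq_mul] at this
        have hlo : B.card * (1 / 5 - 4 * d) ≤ ∑ k ∈ B, α k := by
          have := card_nsmul_le_sum B α (1 / 5 - 4 * d) fun k hk => ((hBm k).1 hk).le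
          rwa [nsmul_eq_mul] at this
        have hnn : 0 ≤ ∑ k ∈ Bᶜ, α k := sum_nonneg fun k _ => h0 k
        have g1 : 5 ≤ B.card := by
          by_contra hcon
          have h4 : (B.card : ℝ) ≤ 4 := by exact_mod_cast (by omega : B.card ≤ 4)
          have h5 : (B.card : ℝ) * (1 / 5 + d) ≤ 4 * (1 / 5 + d) := mul_le_mul_of_nonneg_right h4 (by linarith)
          linarith
        have g2 : B.card ≤ 5 := by
          by_contra hcon
          have h4 : (6 : ℝ) ≤ B.card := by exact_mod_cast (by omega : 6 ≤ B.card)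
          have h5 : 6 * (1 / 5 - 4 * d) ≤ (B.card : ℝ) * (1 / 5 - 4 * d) := mul_le_mul_of_nonneg_right h4 (by linarith)
          linarith
        have g5 : B.card = 5 := by omega
        refine ⟨hc, B, g5, fun i hi => (hBm i).1 hi, ?_⟩
        obtain ⟨j0, hj0, hmin⟩ := exists_min_image B α (card_pos.1 (by omega))
        refine ⟨j0, hj0, ?_⟩
        have k1 : 5 * α j0 ≤ ∑ k ∈ B, α k := by
          have := card_nsmul_le_sum B α (α j0) fun k hk => hmin k hk
          rw [g5, nsmul_eq_mul] at this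
          exact_mod_cast this
        have k2 : ∑ k ∈ B, α k ≤ α i + α j + 3 * α j := by
          have e1 : ∑ k ∈ B, α k = α i + ∑ k ∈ B.erase i, α k := (add_sum_erase B α hi).symm
          have e2 : ∑ k ∈ B.erase i, α k = α j + ∑ k ∈ (B.erase i).erase j, α k := (add_sum_erase _ α hj').symm
          have e3 : ∑ k ∈ (B.erase i).erase j, α k ≤ 3 * α j := by
            have := sum_le_card_nsmul ((B.erase i).erase j) α (α j) fun k hk => hjmax k (mem_of_mem_erase hk)
            rw [card_erase_of_mem hj', card_erase_of_mem hi, g5, nsmul_eq_mul] at this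
            refine this.trans (le_of_eq ?_)
            norm_num
          linarith
        have k3 : α j ≤ α i := himax j hj
        linarith

end Pool.Helper19.VE
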