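import Pool.Agent.Helper19.V5.Defs
import Pool.Agent.Helper25.HM.K8

/-!
# Moebius exponential sums below `4/5 - d`, `d` explicit: definitions

`SG`, `SH` are the bounds for the fifth moments, `M5G`, `M5H` the fifth moment theorems (helper88, helper62), `F5` is the
hypothesis on the sums with five variables.
-/

namespace Pool.Helper19.VE

open ArithmeticFunction Finset Pool.Helper19.V4 Pool.Helper19.V5
open Pool.Agent.Helper25.HM (P)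

/-- the bound for the fifth moment over the characters modulo `q` of a sum of length `K` -/
noncomputable def SG (q K : ℝ) : ℝ :=
  K ^ (5 : ℝ) + q ^ (13 / 12 : ℝ) * K ^ (5 / 2 : ℝ) + q * K ^ (27 / 10 : ℝ) +
    q ^ (2 / 3 : ℝ) * K ^ (7 / 2 : ℝ) + q ^ (7 / 8 : ℝ) * K ^ (3 : ℝ)

/-- the bound for the fifth moment over the pairs `(χ, t)`, `Q = q T`, of a sum of length `K` -/
noncomputable def SH (Q K : ℝ) : ℝ := K ^ (5 : ℝ) + Q * K ^ (11 / 4 : ℝ)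

/-- The fifth moment over the characters modulo `q`. -/
def M5G : Prop := ∀ ε : ℝ, 0 < ε → ∃ C : ℝ, 0 < C ∧ ∀ (q : ℕ) [NeZero q] (K : ℕ), 1 ≤ K →
  ∀ c : ℕ → ℂ, (∀ n, ‖c n‖ ≤ 1) →
    ∑ χ : DirichletCharacter ℂ q, ‖∑ n ∈ Icc 1 K, c n * χ (n : ZMod q)‖ ^ 5 ≤ C * ((q : ℝ) * K) ^ ε * SG q K

/-- The fifth moment over the pairs `(χ, t)`. -/
def M5H : Prop := ∀ ε : ℝ, 0 < ε → ∃ C : ℝ, 0 < C ∧ ∀ (q : ℕ) [NeZero q] (T K : ℕ), 1 ≤ T → 1 ≤ K →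
  ∀ c : ℕ → ℂ, (∀ n, ‖c n‖ ≤ 1) →
    ∑ p ∈ (univ : Finset (DirichletCharacter ℂ q)) ×ˢ Icc (-(T : ℤ)) T, ‖P K c p‖ ^ 5 ≤
      C * ((q : ℝ) * T * K) ^ ε * SH ((q : ℝ) * T) K

/-- The bound `B` for the sums with five variables at the point `x`: all lengths `≥ N^(1/5 - 4 d)`, four of them
`≤ N^(1/5 + d)` and one `≤ 16 N^(1/5 + 10 d / 3)`, the product between `N^(1 - 2 d)` and `N`. -/
def F5 (d : ℝ) (N : ℕ) (x B : ℝ) : Prop := ∀ (j0 : Fin 5) (g : Fin 5 → ArithmeticFunction ℂ) (K : Fin 5 → ℕ),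
  (∀ j, Pc (K j) (g j)) → (∀ j, (N : ℝ) ^ (1 / 5 - 4 * d : ℝ) ≤ K j) →
  (∀ j, j ≠ j0 → (K j : ℝ) ≤ (N : ℝ) ^ (1 / 5 + d : ℝ)) → (K j0 : ℝ) ≤ 16 * (N : ℝ) ^ (1 / 5 + 10 / 3 * d : ℝ) →
  (N : ℝ) ^ (1 - 2 * d : ℝ) ≤ ∏ j, (K j : ℝ) → ∏ j, K j ≤ N → ∀ X : ℕ, 32 * ∏ j, K j ≤ X → ‖SX (∏ j, g j) X x‖ ≤ B

/-- The Moebius sum for `q (1 + N |x - a/q|) ≤ 2 N^(1/2 - 2 d)`. -/
def SideP (d : ℝ) : Prop := ∀ ε : ℝ, 0 < ε → ∃ C : ℝ, 0 < C ∧ ∀ N : ℕ, 1 ≤ N → ∀ (x : ℝ) (a : ℤ) (q : ℕ), 1 ≤ q →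
  IsCoprime a (q : ℤ) → QQ N x a q ≤ 2 * (N : ℝ) ^ (1 / 2 - 2 * d : ℝ) →
    ‖FM N x‖ ≤ C * (N : ℝ) ^ ε * ((N : ℝ) / Real.sqrt (QQ N x a q) + (N : ℝ) ^ (4 / 5 - d : ℝ))

/-- The Moebius sum for `N^(1/2 - 2 d) ≤ q ≤ N^(1/2 + 2 d)`. -/
def SideV (d : ℝ) : Prop := ∀ ε : ℝ, 0 < ε → ∃ C : ℝ, 0 < C ∧ ∀ N : ℕ, 1 ≤ N → ∀ (x : ℝ) (a : ℤ) (q : ℕ), 1 ≤ q →
  IsCoprime a (q : ℤ) → (N : ℝ) ^ (1 / 2 - 2 * d : ℝ) ≤ q → (q : ℝ) ≤ (N : ℝ) ^ (1 / 2 + 2 * d : ℝ) →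
    ‖FM N x‖ ≤ C * (1 + N * |x - a / q|) * (N : ℝ) ^ ε * (N : ℝ) ^ (4 / 5 - d : ℝ)

lemma SG_pos {q K : ℝ} (hq : 0 < q) (hK : 0 < K) : 0 < SG q K := by
  unfold SG
  positivity

lemma SH_pos {Q K : ℝ} (hQ : 0 < Q) (hK : 0 < K) : 0 < SH Q K := by
  unfold SH
  positivity

/-- one term -/
private lemma term19 {K K' t a b : ℝ} (hK' : 0 < K') (hK : 0 < K) (ht : 1 ≤ t) (h : K' ≤ 2 * K / t) (ha : 0 ≤ a)
    (hab : b ≤ a) (ha5 : a ≤ 5) : K' ^ a ≤ 32 * t ^ (-b) * K ^ a := by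
  have ht0 : 0 < t := by linarith
  have h1 : K' ^ a ≤ (2 * K / t) ^ a := Real.rpow_le_rpow hK'.le h ha
  have h2 : (2 * K / t) ^ a = 2 ^ a * (t ^ (-a) * K ^ a) := by
    rw [Real.div_rpow (by positivity) ht0.le, Real.mul_rpow (by norm_num) hK.le, Real.rpow_neg ht0.le]
    field_simp
  have h3 : (2 : ℝ) ^ a ≤ 32 := by
    calc (2 : ℝ) ^ a ≤ 2 ^ (5 : ℝ) := Real.rpow_le_rpow_of_exponent_le (by norm_num) ha5
      _ = 32 := by norm_num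
  have h4 : t ^ (-a) ≤ t ^ (-b) := Real.rpow_le_rpow_of_exponent_le ht (by linarith)
  have h5 : 0 < t ^ (-a) := by positivity
  have h6 : 0 < K ^ a := by positivity
  calc K' ^ a ≤ 2 ^ a * (t ^ (-a) * K ^ a) := h1.trans (le_of_eq h2)
    _ ≤ 32 * (t ^ (-b) * K ^ a) := by gcongr
    _ = _ := by ring

lemma SG_scale {q q' K K' t : ℝ} (hq' : 0 < q') (hqq : q' ≤ q) (hK' : 0 < K') (hK : 0 < K) (ht : 1 ≤ t)
    (h : K' ≤ 2 * K / t) : SG q' K' ≤ 32 * t ^ (-(5 / 2) : ℝ) * SG q K := by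
  have hq : 0 < q := hq'.trans_le hqq
  have h1 := term19 (b := 5 / 2) hK' hK ht h (a := 5) (by norm_num) (by norm_num) (by norm_num)
  have h2 := term19 (b := 5 / 2) hK' hK ht h (a := 5 / 2) (by norm_num) (by norm_num) (by norm_num)
  have h3 := term19 (b := 5 / 2) hK' hK ht h (a := 27 / 10) (by norm_num) (by norm_num) (by norm_num)
  have h4 := term19 (b := 5 / 2) hK' hK ht h (a := 7 / 2) (by norm_num) (by norm_num) (by norm_num)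
  have h5 := term19 (b := 5 / 2) hK' hK ht h (a := 3) (by norm_num) (by norm_num) (by norm_num)
  have g2 : q' ^ (13 / 12 : ℝ) ≤ q ^ (13 / 12 : ℝ) := Real.rpow_le_rpow hq'.le hqq (by norm_num)
  have g4 : q' ^ (2 / 3 : ℝ) ≤ q ^ (2 / 3 : ℝ) := Real.rpow_le_rpow hq'.le hqq (by norm_num)
  have g5 : q' ^ (7 / 8 : ℝ) ≤ q ^ (7 / 8 : ℝ) := Real.rpow_le_rpow hq'.le hqq (by norm_num)
  have e2 := mul_le_mul g2 h2 (by positivity) (by positivity)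
  have e3 := mul_le_mul hqq h3 (by positivity) hq.le
  have e4 := mul_le_mul g4 h4 (by positivity) (by positivity)
  have e5 := mul_le_mul g5 h5 (by positivity) (by positivity)
  unfold SG
  calc _ ≤ 32 * t ^ (-(5 / 2) : ℝ) * K ^ (5 : ℝ) + q ^ (13 / 12 : ℝ) * (32 * t ^ (-(5 / 2) : ℝ) * K ^ (5 / 2 : ℝ)) +
        q * (32 * t ^ (-(5 / 2) : ℝ) * K ^ (27 / 10 : ℝ)) + q ^ (2 / 3 : ℝ) * (32 * t ^ (-(5 / 2) : ℝ) * K ^ (7 / 2 : ℝ)) +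
        q ^ (7 / 8 : ℝ) * (32 * t ^ (-(5 / 2) : ℝ) * K ^ (3 : ℝ)) := by linarith
    _ = _ := by ring

lemma SH_scale {Q Q' K K' t : ℝ} (hQ' : 0 < Q') (hQQ : Q' ≤ 32 * Q) (hK' : 0 < K') (hK : 0 < K) (ht : 1 ≤ t)
    (h : K' ≤ 2 * K / t) : SH Q' K' ≤ 1024 * t ^ (-(11 / 4) : ℝ) * SH Q K := by
  have hQ : 0 < Q := by linarith
  have h1 := term19 (b := 11 / 4) hK' hK ht h (a := 5) (by norm_num) (by norm_num) (by norm_num)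
  have h2 := term19 (b := 11 / 4) hK' hK ht h (a := 11 / 4) (by norm_num) (by norm_num) (by norm_num)
  have e2 := mul_le_mul hQQ h2 (by positivity) (by positivity)
  have e3 : 0 ≤ t ^ (-(11 / 4) : ℝ) * K ^ (5 : ℝ) := by positivity
  unfold SH
  calc _ ≤ 32 * t ^ (-(11 / 4) : ℝ) * K ^ (5 : ℝ) + 32 * Q * (32 * t ^ (-(11 / 4) : ℝ) * K ^ (11 / 4 : ℝ)) := by linarith
    _ ≤ 1024 * t ^ (-(11 / 4) : ℝ) * K ^ (5 : ℝ) + 32 * Q * (32 * t ^ (-(11 / 4) : ℝ) * K ^ (11 / 4 : ℝ)) := by linarith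
    _ = _ := by ring

end Pool.Helper19.VE
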