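import Pool.Agent.Helper25.VF.Explicit
import Pool.Agent.Helper19.VE.Defs

/-!
# The two sides of VE give Vaughan's inequality with the exponent `4/5 - d`

The level of Dirichlet's theorem is `N^(1/2 + 2 d)`: the fraction `b/r` satisfies `r N |x - b/r| ≤ N^(1/2 - 2 d)`, so either
`r ≥ N^(1/2 - 2 d)` and `N |x - b/r| ≤ 1` (`SideV`), or `QQ N x b r ≤ 2 N^(1/2 - 2 d)` (`SideP`).
-/

namespace Pool.Helper19.VE

open Pool.Helper19.V4 Pool.Helper19.V5 Pool.Agent.Helper25.VF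

/-- **Vaughan's inequality for the Moebius function with the exponent `4/5 - d`.** -/
theorem glue {d : ℝ} (hd0 : 0 < d) (hd1 : d ≤ 1 / 8) (hV : SideV d) (hP : SideP d) :
    ∀ ε : ℝ, 0 < ε → ∃ C : ℝ, 0 < C ∧ ∀ N : ℕ, 1 ≤ N →
    ∀ (x : ℝ) (a : ℤ) (q : ℕ), 1 ≤ q → IsCoprime a (q : ℤ) → |x - a / q| ≤ 1 / (q : ℝ) ^ 2 →
      ‖FM N x‖ ≤ C * (N : ℝ) ^ ε * ((N : ℝ) / Real.sqrt q + (N : ℝ) ^ (4 / 5 - d : ℝ) + Real.sqrt (q * N)) := by
  intro ε hε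
  obtain ⟨C1, hC1, hV⟩ := hV ε hε
  obtain ⟨C2, hC2, hP⟩ := hP ε hε
  refine ⟨2 * C1 + 2 * C2, by positivity, fun N hN x a q hq haq hx => ?_⟩
  have hN1 : (1 : ℝ) ≤ N := by exact_mod_cast hN
  have hN0 : (0 : ℝ) < N := by linarith
  have hq0 : (0 : ℝ) < q := by exact_mod_cast hq
  have hP1 : 0 ≤ (N : ℝ) / Real.sqrt q := by positivity
  have hP2 : 0 < (N : ℝ) ^ (4 / 5 - d : ℝ) := by positivity
  have hP3 : 0 ≤ Real.sqrt (q * N) := Real.sqrt_nonneg _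
  obtain ⟨Y, hY⟩ : ∃ Y : ℝ, Y = (N : ℝ) / Real.sqrt q + (N : ℝ) ^ (4 / 5 - d : ℝ) + Real.sqrt (q * N) := ⟨_, rfl⟩
  rw [← hY]
  have hY0 : 0 < Y := by rw [hY]; linarith
  have hYP : (N : ℝ) ^ (4 / 5 - d : ℝ) ≤ Y := by rw [hY]; linarith
  obtain ⟨K, hK⟩ : ∃ K : ℝ, K = (N : ℝ) ^ (1 / 2 - 2 * d : ℝ) := ⟨_, rfl⟩
  have hK0 : 0 < K := by rw [hK]; positivity
  obtain ⟨D, hD⟩ : ∃ D : ℝ, D = (N : ℝ) ^ (1 / 2 + 2 * d : ℝ) := ⟨_, rfl⟩
  have hD1 : 1 ≤ D := by rw [hD]; exact Real.one_le_rpow hN1 (by linarith)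
  have hD0 : 0 < D := by linarith
  have hKD : K * D = N := by
    rw [hK, hD, ← Real.rpow_add hN0]
    have : (1 / 2 - 2 * d + (1 / 2 + 2 * d) : ℝ) = 1 := by ring
    rw [this, Real.rpow_one]
  have hn : 0 < ⌊D⌋₊ := Nat.floor_pos.mpr hD1
  obtain ⟨s, hs1, hs2⟩ := Real.exists_rat_abs_sub_le_and_den_le x hn
  have hsden : (0 : ℝ) < s.den := by exact_mod_cast s.den_pos
  have hsD : (s.den : ℝ) ≤ D := le_trans (by exact_mod_cast hs2) (Nat.floor_le hD0.le)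
  have hfl : D < (⌊D⌋₊ : ℝ) + 1 := Nat.lt_floor_add_one D
  have hscast : ((s : ℚ) : ℝ) = (s.num : ℝ) / (s.den : ℝ) := by
    exact_mod_cast congrArg (fun t : ℚ => (t : ℝ)) (Rat.num_div_den s).symm
  rw [hscast] at hs1
  have hs3 : |x - (s.num : ℝ) / (s.den : ℝ)| ≤ 1 / (D * s.den) := by
    refine le_trans hs1 (one_div_le_one_div_of_le (by positivity) ?_)
    exact mul_le_mul_of_nonneg_right hfl.le hsden.le
  have hcop : IsCoprime s.num (s.den : ℤ) := by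
    rw [Int.isCoprime_iff_gcd_eq_one]
    have := s.reduced
    rwa [Nat.coprime_iff_gcd_eq_one] at this
  obtain ⟨b, r, hb, hr⟩ : ∃ (b : ℤ) (r : ℕ), b = s.num ∧ r = s.den := ⟨_, _, rfl, rfl⟩
  rw [← hb, ← hr] at hs3 hcop
  rw [← hr] at hsden hsD
  have hr1 : 1 ≤ r := by rw [hr]; exact s.den_pos
  have hs4 : N * |x - (b : ℝ) / r| * r ≤ K := by
    have e1 : |x - (b : ℝ) / r| * (D * r) ≤ 1 := by
      have := mul_le_mul_of_nonneg_right hs3 (by positivity : 0 ≤ D * (r : ℝ))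
      rwa [one_div, inv_mul_cancel₀ (by positivity)] at this
    calc N * |x - (b : ℝ) / r| * r = K * (|x - (b : ℝ) / r| * (D * r)) := by
          rw [← hKD]
          ring
      _ ≤ K * 1 := mul_le_mul_of_nonneg_left e1 hK0.le
      _ = K := mul_one K
  rcases le_or_gt K r with hbig | hsm
  · -- large denominators
    have h4 : N * |x - (b : ℝ) / r| ≤ 1 := by
      by_contra hcon
      push Not at hcon
      nlinarith
    have h3 := hV N hN x b r hr1 hcop (by rw [← hK]; exact hbig) (by rw [← hD]; exact hsD)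
    calc ‖FM N x‖ ≤ C1 * (1 + N * |x - b / r|) * (N : ℝ) ^ ε * (N : ℝ) ^ (4 / 5 - d : ℝ) := h3
      _ ≤ C1 * (1 + 1) * (N : ℝ) ^ ε * Y := by gcongr
      _ = 2 * C1 * (N : ℝ) ^ ε * Y := by ring
      _ ≤ (2 * C1 + 2 * C2) * (N : ℝ) ^ ε * Y := by
        gcongr
        linarith
  · -- small denominators
    have hQdef : QQ N x b r = r * (1 + N * |x - b / r|) := rfl
    have hQle : QQ N x b r ≤ 2 * (N : ℝ) ^ (1 / 2 - 2 * d : ℝ) := by
      rw [hQdef, ← hK]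
      nlinarith
    have h3 := hP N hN x b r hr1 hcop hQle
    have h4 := sqrt_cmp hN0 hq hr1 haq hcop hx
    have h6 : (N : ℝ) / Real.sqrt (QQ N x b r) + (N : ℝ) ^ (4 / 5 - d : ℝ) ≤ 2 * Y := by
      rw [hY]
      linarith
    calc ‖FM N x‖ ≤ C2 * (N : ℝ) ^ ε * ((N : ℝ) / Real.sqrt (QQ N x b r) + (N : ℝ) ^ (4 / 5 - d : ℝ)) := h3
      _ ≤ C2 * (N : ℝ) ^ ε * (2 * Y) := by gcongr
      _ = 2 * C2 * (N : ℝ) ^ ε * Y := by ring
      _ ≤ (2 * C1 + 2 * C2) * (N : ℝ) ^ ε * Y := by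
        gcongr
        linarith

end Pool.Helper19.VE
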