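import Pool.Agent.Helper19.VE.Main
import Pool.Agent.Helper19.VE.Glue
import Pool.Agent.Helper19.WZ.SmV
import Pool.Agent.Helper62.LV.M5HD
import Pool.Agent.Helper88.LV.M5G

/-!
# Vaughan's inequality for the Moebius function with the exponent `43/54`
-/

namespace Pool.Helper19.VE

open Pool.Helper19.WZ

theorem vform_of (hG : M5G) : VForm (43 / 54) := by
  have h := glue (d := 1 / 270) (by norm_num) (by norm_num) (side_v hG) (side_p Pool.Agent.Helper62.LV.M5.m5hD)
  have e : (4 / 5 - 1 / 270 : ℝ) = 43 / 54 := by norm_num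
  rw [e] at h
  exact h

/-- For all real `x` and all coprime `a`, `q` with `|x - a/q| ≤ 1/q²`: `∑_{n ≤ N} μ(n) e(n x) ≪ N^ε (N/√q + N^(43/54) + √(q N))`. -/
theorem vform : VForm (43 / 54) := vform_of Pool.Agent.Helper88.LV.G5.m5g

end Pool.Helper19.VE
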