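import Pool.Agent.Helper19.VE.Defs
import Pool.Agent.Helper19.V4.Char
import Pool.Agent.Helper19.V5.Five

/-!
# VE-4: five variables coprime to `q` at `a/q` from the fifth moment over the characters

`M i = C (q ⌊2 L i⌋)^e SG q ⌊2 L i⌋ ≤ C' N^(2e) SG q (L i)` bounds the fifth moment of `F i`. Scale `F i` by `lam i > 0` with
`lam i ^ 5 * M i = (∏ M)^(1/5)`, so `∏ lam = 1`, and apply `char_five` (V4/Char.lean) to `lam i • F i` with `S = (∏ M)^(1/5)`;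
`√q / φ(q) ≤ d(q) / √q` (`tot19`, V5/Five.lean), `d(q) ≤ C N^e` (`Pool.Agent.Helper7.GPC.card_divisors_le` or `Pool.Agent.Helper69.FF.div_bound`).
`SX f X (a/q) = SF f X a q`.
-/

namespace Pool.Helper19.VE

open ArithmeticFunction Finset Pool.Helper19.V4 Pool.Helper19.V5

/-- scalar multiple -/
private noncomputable def sc71 (c : ℝ) (f : ArithmeticFunction ℂ) : ArithmeticFunction ℂ :=
  ⟨fun n => (c : ℂ) * f n, by simp⟩

private lemma sc71_apply (c : ℝ) (f : ArithmeticFunction ℂ) (n : ℕ) : sc71 c f n = (c : ℂ) * f n := rfl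

private lemma sc71_prod {ι : Type*} (s : Finset ι) (c : ι → ℝ) (F : ι → ArithmeticFunction ℂ) (n : ℕ) :
    (∏ i ∈ s, sc71 (c i) (F i)) n = ((∏ i ∈ s, c i : ℝ) : ℂ) * (∏ i ∈ s, F i) n := by
  classical
  induction s using Finset.induction_on generalizing n with
  | empty => simp
  | insert i s hi ih =>
    rw [Finset.prod_insert hi, Finset.prod_insert hi, Finset.prod_insert hi, ArithmeticFunction.mul_apply,
      ArithmeticFunction.mul_apply, Finset.mul_sum]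
    refine Finset.sum_congr rfl fun p _ => ?_
    rw [ih, sc71_apply]
    push_cast
    ring

theorem five_g (h : M5G) {ε : ℝ} (hε : 0 < ε) : ∃ C : ℝ, 0 < C ∧ ∀ N : ℕ, 1 ≤ N → ∀ (q : ℕ) (a : ℤ), 1 ≤ q → q ≤ N →
    IsCoprime a (q : ℤ) → ∀ (L : Fin 5 → ℝ) (F : Fin 5 → ArithmeticFunction ℂ), (∀ i, 1 ≤ L i) → (∀ i, L i ≤ N) →
    (∀ i n, F i n ≠ 0 → (n : ℝ) < 2 * L i ∧ Nat.Coprime n q) → (∀ i n, ‖F i n‖ ≤ 1) →
    ∀ X : ℕ, 32 * ∏ i, L i ≤ X →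
      ‖SX (∏ i, F i) X ((a : ℝ) / q)‖ ≤ C * (N : ℝ) ^ ε * ((∏ i, SG q (L i)) ^ (1 / 5 : ℝ) / Real.sqrt q) := by
  classical
  obtain ⟨e, he, heε⟩ : ∃ e : ℝ, 0 < e ∧ 3 * e = ε := ⟨ε / 3, by positivity, by ring⟩
  obtain ⟨C1, hC1, hM⟩ := h e he
  obtain ⟨C2, hC2, hdiv⟩ := Pool.Agent.Helper69.FF.div_bound (ε := e) he
  obtain ⟨D, hD⟩ : ∃ D : ℝ, D = C1 * 2 ^ e * 32 := ⟨_, rfl⟩
  have hD0 : 0 < D := by rw [hD]; positivity
  refine ⟨C2 * D, by positivity, ?_⟩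
  intro N hN q a hq hqN ha L F hL1 hLN hsupp hF X hX
  have hNr : (1 : ℝ) ≤ N := by exact_mod_cast hN
  have hNp : (0 : ℝ) < N := by linarith
  have hqp : (0 : ℝ) < q := by exact_mod_cast hq
  have hqNr : (q : ℝ) ≤ N := by exact_mod_cast hqN
  have : NeZero q := ⟨by omega⟩
  have hLp : ∀ i, 0 < L i := fun i => lt_of_lt_of_le one_pos (hL1 i)
  have hfl : ∀ i, 1 ≤ ⌊2 * L i⌋₊ := by
    intro i
    apply Nat.le_floor
    have := hL1 i
    push_cast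
    linarith
  have hfl2 : ∀ i, ((⌊2 * L i⌋₊ : ℕ) : ℝ) ≤ 2 * L i := fun i => Nat.floor_le (by have := hLp i; linarith)
  -- the bound for the fifth moments
  obtain ⟨m, hm⟩ : ∃ m : Fin 5 → ℝ, m = fun i => D * (N : ℝ) ^ (2 * e) * SG q (L i) := ⟨_, rfl⟩
  have hSG : ∀ i, 0 < SG q (L i) := fun i => SG_pos hqp (hLp i)
  have hm0 : ∀ i, 0 < m i := by
    intro i
    rw [hm]
    have := hSG i
    dsimp only
    positivity
  have hmom : ∀ i, ∑ χ : DirichletCharacter ℂ q, ‖∑ n ∈ Icc 1 ⌊2 * L i⌋₊, F i n * χ (n : ZMod q)‖ ^ 5 ≤ m i := by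
    intro i
    have h1 := hM q ⌊2 * L i⌋₊ (hfl i) (fun n => F i n) (hF i)
    have hKp : (0 : ℝ) < ((⌊2 * L i⌋₊ : ℕ) : ℝ) := by exact_mod_cast hfl i
    have h2 : SG q ((⌊2 * L i⌋₊ : ℕ) : ℝ) ≤ 32 * SG q (L i) := by
      have := SG_scale (q := q) (q' := q) (K' := ((⌊2 * L i⌋₊ : ℕ) : ℝ)) (K := L i) (t := 1) hqp le_rfl hKp (hLp i)
        le_rfl (by rw [div_one]; exact hfl2 i)
      simpa using this
    have h3 : ((q : ℝ) * ((⌊2 * L i⌋₊ : ℕ) : ℝ)) ^ e ≤ 2 ^ e * (N : ℝ) ^ (2 * e) := by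
      have h4 : (q : ℝ) * ((⌊2 * L i⌋₊ : ℕ) : ℝ) ≤ 2 * ((N : ℝ) ^ (2 : ℝ)) := by
        have h5 : ((⌊2 * L i⌋₊ : ℕ) : ℝ) ≤ 2 * N := (hfl2 i).trans (by have := hLN i; linarith)
        have h6 : (N : ℝ) ^ (2 : ℝ) = N * N := by
          rw [show (2 : ℝ) = ((2 : ℕ) : ℝ) by norm_num, Real.rpow_natCast, sq]
        rw [h6]
        calc (q : ℝ) * ((⌊2 * L i⌋₊ : ℕ) : ℝ) ≤ N * (2 * N) := mul_le_mul hqNr h5 hKp.le hNp.le
          _ = _ := by ring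
      calc ((q : ℝ) * ((⌊2 * L i⌋₊ : ℕ) : ℝ)) ^ e ≤ (2 * ((N : ℝ) ^ (2 : ℝ))) ^ e :=
            Real.rpow_le_rpow (by positivity) h4 he.le
        _ = 2 ^ e * (N : ℝ) ^ (2 * e) := by
            rw [Real.mul_rpow (by norm_num) (by positivity), ← Real.rpow_mul hNp.le]
    have hSGK : 0 < SG q ((⌊2 * L i⌋₊ : ℕ) : ℝ) := SG_pos hqp hKp
    refine h1.trans ?_
    rw [hm, hD]
    dsimp only
    calc C1 * ((q : ℝ) * ((⌊2 * L i⌋₊ : ℕ) : ℝ)) ^ e * SG q ((⌊2 * L i⌋₊ : ℕ) : ℝ)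
        ≤ C1 * (2 ^ e * (N : ℝ) ^ (2 * e)) * (32 * SG q (L i)) :=
          mul_le_mul (mul_le_mul_of_nonneg_left h3 hC1.le) h2 hSGK.le (by positivity)
      _ = _ := by ring
  -- the scaling
  obtain ⟨G, hG⟩ : ∃ G : ℝ, G = (∏ i, m i) ^ (1 / 5 : ℝ) := ⟨_, rfl⟩
  have hPm : 0 < ∏ i, m i := Finset.prod_pos fun i _ => hm0 i
  have hG0 : 0 < G := by rw [hG]; positivity
  have hG5 : G ^ 5 = ∏ i, m i := by
    rw [hG, ← Real.rpow_natCast, ← Real.rpow_mul hPm.le]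
    norm_num
  obtain ⟨lam, hlam⟩ : ∃ lam : Fin 5 → ℝ, lam = fun i => (G / m i) ^ (1 / 5 : ℝ) := ⟨_, rfl⟩
  have hlam0 : ∀ i, 0 < lam i := by
    intro i
    rw [hlam]
    have := hm0 i
    dsimp only
    positivity
  have hlam5 : ∀ i, lam i ^ 5 = G / m i := by
    intro i
    have h0 : 0 < G / m i := div_pos hG0 (hm0 i)
    rw [hlam]
    dsimp only
    rw [← Real.rpow_natCast, ← Real.rpow_mul h0.le]
    norm_num
  have hlam1 : ∏ i, lam i = 1 := by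
    have h1 : (∏ i, lam i) ^ 5 = 1 := by
      rw [← Finset.prod_pow, Finset.prod_congr rfl fun i _ => hlam5 i, Finset.prod_div_distrib, Finset.prod_const,
        Finset.card_univ, Fintype.card_fin, hG5, div_self hPm.ne']
    have h2 : 0 ≤ ∏ i, lam i := Finset.prod_nonneg fun i _ => (hlam0 i).le
    exact (pow_eq_one_iff_of_nonneg h2 (by norm_num)).1 h1
  -- the product
  have hprod : (∏ i, sc71 (lam i) (F i)) = ∏ i, F i := by
    ext n
    rw [sc71_prod, hlam1]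
    simp
  have hY : ∏ i, ⌊2 * L i⌋₊ ≤ X := by
    have h1 : ((∏ i, ⌊2 * L i⌋₊ : ℕ) : ℝ) ≤ X := by
      push_cast
      calc ∏ i, (⌊2 * L i⌋₊ : ℝ) ≤ ∏ i, (2 * L i) :=
            Finset.prod_le_prod (fun _ _ => by positivity) fun i _ => hfl2 i
        _ = 32 * ∏ i, L i := by
            rw [Finset.prod_mul_distrib]
            simp
            norm_num
        _ ≤ X := hX
    exact_mod_cast h1
  have hne : ∀ i n, sc71 (lam i) (F i) n ≠ 0 → F i n ≠ 0 := by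
    intro i n hn h0
    exact hn (by rw [sc71_apply, h0, mul_zero])
  have key := char_five ha (fun i => sc71 (lam i) (F i)) (fun i => ⌊2 * L i⌋₊)
    (fun i n hn => Nat.le_floor (hsupp i n (hne i n hn)).1.le) (fun i n hn => (hsupp i n (hne i n hn)).2)
    (S := G) (by
      intro i
      have e2 : ∑ χ : DirichletCharacter ℂ q, ‖∑ n ∈ Icc 1 ⌊2 * L i⌋₊, sc71 (lam i) (F i) n * χ (n : ZMod q)‖ ^ 5 =
          lam i ^ 5 * ∑ χ : DirichletCharacter ℂ q, ‖∑ n ∈ Icc 1 ⌊2 * L i⌋₊, F i n * χ (n : ZMod q)‖ ^ 5 := by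
        rw [Finset.mul_sum]
        refine Finset.sum_congr rfl fun χ _ => ?_
        have e3 : ∑ n ∈ Icc 1 ⌊2 * L i⌋₊, sc71 (lam i) (F i) n * χ (n : ZMod q) =
            ((lam i : ℝ) : ℂ) * ∑ n ∈ Icc 1 ⌊2 * L i⌋₊, F i n * χ (n : ZMod q) := by
          rw [Finset.mul_sum]
          refine Finset.sum_congr rfl fun n _ => ?_
          rw [sc71_apply]
          ring
        rw [e3, norm_mul, mul_pow, Complex.norm_real, Real.norm_eq_abs, abs_of_pos (hlam0 i)]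
      rw [e2, hlam5]
      calc G / m i * ∑ χ : DirichletCharacter ℂ q, ‖∑ n ∈ Icc 1 ⌊2 * L i⌋₊, F i n * χ (n : ZMod q)‖ ^ 5
          ≤ G / m i * m i := mul_le_mul_of_nonneg_left (hmom i) (div_pos hG0 (hm0 i)).le
        _ = G := div_mul_cancel₀ _ (hm0 i).ne') hY
  rw [hprod] at key
  have hSX : SX (∏ i, F i) X ((a : ℝ) / q) = SF (∏ i, F i) X a q := by
    unfold SX SF
    refine Finset.sum_congr rfl fun n _ => ?_
    congr 2
    ring
  rw [hSX]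
  refine key.trans ?_
  -- `√q / φ(q) ≤ C2 N^e / √q`
  have hφ : (0 : ℝ) < q.totient := by
    exact_mod_cast Nat.totient_pos.2 (by omega : 0 < q)
  have hsq : 0 < Real.sqrt q := Real.sqrt_pos.2 hqp
  have h1 : Real.sqrt q / (q.totient : ℝ) ≤ C2 * (N : ℝ) ^ e / Real.sqrt q := by
    rw [div_le_div_iff₀ hφ hsq, Real.mul_self_sqrt hqp.le]
    have h2 := tot19 (q := q) (by omega)
    have h3 : ((q.divisors.card : ℕ) : ℝ) ≤ C2 * (N : ℝ) ^ e := by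
      refine (hdiv q (by omega)).trans ?_
      exact mul_le_mul_of_nonneg_left (Real.rpow_le_rpow hqp.le hqNr he.le) hC2.le
    exact h2.trans (mul_le_mul_of_nonneg_right h3 hφ.le)
  have hGe : G = D * (N : ℝ) ^ (2 * e) * (∏ i, SG q (L i)) ^ (1 / 5 : ℝ) := by
    have h0 : 0 < D * (N : ℝ) ^ (2 * e) := by positivity
    have h2 : ∏ i, m i = (D * (N : ℝ) ^ (2 * e)) ^ 5 * ∏ i, SG q (L i) := by
      rw [hm, Finset.prod_mul_distrib, Finset.prod_const, Finset.card_univ, Fintype.card_fin]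
    have h3 : 0 ≤ ∏ i, SG q (L i) := Finset.prod_nonneg fun i _ => (hSG i).le
    rw [hG, h2, Real.mul_rpow (by positivity) h3, ← Real.rpow_natCast, ← Real.rpow_mul h0.le]
    norm_num
  have hS0 : 0 ≤ (∏ i, SG q (L i)) ^ (1 / 5 : ℝ) := Real.rpow_nonneg (Finset.prod_nonneg fun i _ => (hSG i).le) _
  have hNe : (N : ℝ) ^ e * (N : ℝ) ^ (2 * e) = (N : ℝ) ^ ε := by
    rw [← Real.rpow_add hNp]
    congr 1
    linarith
  calc Real.sqrt q / (q.totient : ℝ) * G ≤ C2 * (N : ℝ) ^ e / Real.sqrt q * G := mul_le_mul_of_nonneg_right h1 hG0.le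
    _ = C2 * D * ((N : ℝ) ^ e * (N : ℝ) ^ (2 * e)) * ((∏ i, SG q (L i)) ^ (1 / 5 : ℝ) / Real.sqrt q) := by
        rw [hGe]
        ring
    _ = _ := by rw [hNe]

end Pool.Helper19.VE
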