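import Pool.Agent.Helper19.VE.Defs
import Pool.Agent.Helper19.V5.Five

/-!
# VE-5: five variables coprime to `q` at a real point from the fifth moment over the pairs

Model: `V5/FiveS.lean` (`five_small`). `P1 = ∏ L`, `β = x - a/q`, `Q = QQ P1 x a q = q (1 + P1 |β|)`. Choose `T = ⌈(1 + P1 |β|) N^e⌉`, so that the term with the
exponential in `five_pre_gen` is `≤ 1` (`ev_exp19`) and `q T ≤ 2 Q N^e`; `M i = C (q T ⌊2 L i⌋)^e SH (q T) ⌊2 L i⌋ ≤ C' N^(..e) SH Q (L i)`;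
`lam i` with `lam i ^ 5 * M i = (∏ M)^(1/5)`, `∏ lam = 1`: the main term is `√q / (φ(q) √(1 + P1 |β|)) 5 (∏ M)^(1/5)`, and `√q / φ(q) ≤ d(q) / √q` (`tot19`).
For `N < N0` the trivial bound `mass19`.
-/

namespace Pool.Helper19.VE

open ArithmeticFunction Finset Pool.Helper19.V4 Pool.Helper19.V5
open Pool.Agent.Helper25.HM (P)

private lemma SH53_mul {Q K t : ℝ} (hK : 0 < K) (ht : 1 ≤ t) : SH (Q * t) K ≤ t * SH Q K := by
  unfold SH
  have h1 : 0 < K ^ (5 : ℝ) := by positivity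
  have h2 : Q * t * K ^ (11 / 4 : ℝ) = t * (Q * K ^ (11 / 4 : ℝ)) := by ring
  rw [h2, mul_add]
  have h3 : K ^ (5 : ℝ) ≤ t * K ^ (5 : ℝ) := le_mul_of_one_le_left h1.le ht
  linarith

private lemma single53 {L : Fin 5 → ℝ} (hL : ∀ i, 1 ≤ L i) (i : Fin 5) : L i ≤ ∏ j, L j := by
  classical
  rw [← Finset.mul_prod_erase Finset.univ L (Finset.mem_univ i)]
  have h1 : 1 ≤ ∏ j ∈ Finset.univ.erase i, L j :=
    Finset.prod_induction (s := Finset.univ.erase i) (fun j => L j) (fun y => 1 ≤ y)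
      (fun _ _ ha hb => one_le_mul_of_one_le_of_one_le ha hb) le_rfl (fun j _ => hL j)
  exact le_mul_of_one_le_right (by linarith [hL i]) h1

theorem five_h (h : M5H) {ε : ℝ} (hε : 0 < ε) : ∃ C : ℝ, 0 < C ∧ ∀ N : ℕ, 1 ≤ N → ∀ (q : ℕ) (a : ℤ), 1 ≤ q →
    IsCoprime a (q : ℤ) → ∀ (x : ℝ) (L : Fin 5 → ℝ) (F : Fin 5 → ArithmeticFunction ℂ), (∀ i, 1 ≤ L i) →
    ∏ i, L i ≤ 32 * N → (∀ i n, F i n ≠ 0 → L i ≤ n ∧ (n : ℝ) < 2 * L i ∧ Nat.Coprime n q) → (∀ i n, ‖F i n‖ ≤ 1) →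
    QQ (∏ i, L i) x a q ≤ 32 * N → ∀ X : ℕ, 32 * ∏ i, L i ≤ X →
      ‖SX (∏ i, F i) X x‖ ≤ C * (N : ℝ) ^ ε *
        ((∏ i, SH (QQ (∏ i, L i) x a q) (L i)) ^ (1 / 5 : ℝ) / Real.sqrt (QQ (∏ i, L i) x a q) + 1) := by
  classical
  obtain ⟨e, he, he1, he6⟩ : ∃ e : ℝ, 0 < e ∧ e ≤ 1 ∧ 6 * e ≤ ε := by
    refine ⟨min (ε / 6) 1, lt_min (by positivity) one_pos, min_le_right _ _, ?_⟩
    have := min_le_left (ε / 6) 1
    linarith
  obtain ⟨C3, hC3, hm⟩ := h e he
  obtain ⟨C1, hC1, hpre⟩ := five_pre_gen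
  obtain ⟨C2, hC2, hdiv⟩ := Pool.Agent.Helper69.FF.div_bound (ε := e) he
  obtain ⟨N0, hN0⟩ := Filter.eventually_atTop.1 (ev_exp19 he)
  obtain ⟨D, hD⟩ : ∃ D : ℝ, D = C3 * 4096 ^ e * 1024 := ⟨_, rfl⟩
  have hD0 : 0 < D := by rw [hD]; positivity
  refine ⟨C1 * (7 + 1 / e) * (5 * (C2 * 32 ^ e) * D + 5000000) + 1024 * N0, by positivity, ?_⟩
  intro N hN q a hq ha x L F hL hPN hsupp hF hQ1 X hX
  have hNr : (1 : ℝ) ≤ N := by exact_mod_cast hN
  have hNp : (0 : ℝ) < N := by linarith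
  have hmono : ∀ {x y : ℝ}, x ≤ y → (N : ℝ) ^ x ≤ (N : ℝ) ^ y := fun hxy => Real.rpow_le_rpow_of_exponent_le hNr hxy
  have hLp : ∀ i, 0 < L i := fun i => lt_of_lt_of_le one_pos (hL i)
  have hqp : (0 : ℝ) < q := by exact_mod_cast hq
  have hq1 : (1 : ℝ) ≤ q := by exact_mod_cast hq
  have : NeZero q := ⟨by omega⟩
  have hLP : ∀ i, L i ≤ ∏ i, L i := single53 hL
  obtain ⟨Pp, hPp⟩ : ∃ Pp : ℝ, Pp = ∏ i, L i := ⟨_, rfl⟩
  have hP1 : 1 ≤ Pp := by
    rw [hPp]
    exact Finset.prod_induction (s := (Finset.univ : Finset (Fin 5))) (fun i => L i) (fun y => 1 ≤ y)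
      (fun _ _ ha hb => one_le_mul_of_one_le_of_one_le ha hb) le_rfl (fun i _ => hL i)
  have hPp0 : 0 < Pp := by linarith
  rw [← hPp] at hPN hQ1 hX hLP ⊢
  obtain ⟨W, hW⟩ : ∃ W : ℝ, W = 1 + Pp * |x - a / q| := ⟨_, rfl⟩
  have hW1 : 1 ≤ W := by
    rw [hW]
    have : 0 ≤ Pp * |x - a / q| := by positivity
    linarith
  have hWp : 0 < W := by linarith
  have hQQ : QQ Pp x a q = q * W := by
    unfold QQ
    rw [hW]
  rw [hQQ] at hQ1 ⊢
  obtain ⟨Q, hQ⟩ : ∃ Q : ℝ, Q = (q : ℝ) * W := ⟨_, rfl⟩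
  rw [← hQ] at hQ1 ⊢
  have hQp : 0 < Q := by rw [hQ]; positivity
  have hSH0 : ∀ i, 0 < SH Q (L i) := fun i => SH_pos hQp (hLp i)
  obtain ⟨S, hS⟩ : ∃ S : ℝ, S = (∏ i, SH Q (L i)) ^ (1 / 5 : ℝ) := ⟨_, rfl⟩
  have hSP : 0 < ∏ i, SH Q (L i) := Finset.prod_pos fun i _ => hSH0 i
  have hS0 : 0 ≤ S := by rw [hS]; exact Real.rpow_nonneg hSP.le _
  rw [← hS]
  have hSQ : 0 ≤ S / Real.sqrt Q := div_nonneg hS0 (Real.sqrt_nonneg _)
  have hNε : (1 : ℝ) ≤ (N : ℝ) ^ ε := Real.one_le_rpow hNr hε.le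
  have hAA : 0 ≤ C1 * (7 + 1 / e) * (5 * (C2 * 32 ^ e) * D + 5000000) := by positivity
  rcases lt_or_ge N N0 with hlt | hge
  · have h1 := mass19 F L hL hsupp hF X x
    rw [← hPp] at h1
    have h2 : (N : ℝ) ≤ N0 := by exact_mod_cast hlt.le
    have h5 : (0 : ℝ) ≤ N0 := by positivity
    have h6 : 1 ≤ (N : ℝ) ^ ε * (S / Real.sqrt Q + 1) := one_le_mul_of_one_le_of_one_le hNε (by linarith)
    calc ‖SX (∏ i, F i) X x‖ ≤ 1024 * N0 := by linarith
      _ ≤ (C1 * (7 + 1 / e) * (5 * (C2 * 32 ^ e) * D + 5000000) + 1024 * N0) * 1 := by linarith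
      _ ≤ (C1 * (7 + 1 / e) * (5 * (C2 * 32 ^ e) * D + 5000000) + 1024 * N0) * ((N : ℝ) ^ ε * (S / Real.sqrt Q + 1)) :=
          mul_le_mul_of_nonneg_left h6 (by positivity)
      _ = _ := by ring
  · have hE4 := hN0 N hge
    obtain ⟨T, hT⟩ : ∃ T : ℕ, T = ⌈W * (N : ℝ) ^ e⌉₊ := ⟨_, rfl⟩
    have hNe : (1 : ℝ) ≤ (N : ℝ) ^ e := Real.one_le_rpow hNr he.le
    have hNe0 : (0 : ℝ) < (N : ℝ) ^ e := by linarith
    have hWe : 1 ≤ W * (N : ℝ) ^ e := one_le_mul_of_one_le_of_one_le hW1 hNe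
    have hT0 : W * (N : ℝ) ^ e ≤ T := by rw [hT]; exact Nat.le_ceil _
    have hT1 : (T : ℝ) ≤ 2 * (W * (N : ℝ) ^ e) := by
      rw [hT]
      have := (Nat.ceil_lt_add_one (show 0 ≤ W * (N : ℝ) ^ e by positivity)).le
      linarith
    have hT2 : 1 ≤ T := by
      have : (1 : ℝ) ≤ T := hWe.trans hT0
      exact_mod_cast this
    have hTp : (0 : ℝ) < T := by exact_mod_cast hT2
    have hqT1 : (q : ℝ) * T ≤ 2 * (Q * (N : ℝ) ^ e) := by
      calc (q : ℝ) * T ≤ q * (2 * (W * (N : ℝ) ^ e)) := mul_le_mul_of_nonneg_left hT1 hqp.le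
        _ = _ := by rw [hQ]; ring
    -- the fifth moments
    obtain ⟨m, hmd⟩ : ∃ m : Fin 5 → ℝ, m = fun i => D * (N : ℝ) ^ (4 * e) * SH Q (L i) := ⟨_, rfl⟩
    have hm0 : ∀ i, 0 < m i := by
      intro i
      rw [hmd]
      have := hSH0 i
      dsimp only
      positivity
    have hM : ∀ (i : Fin 5) (c : ℕ → ℂ), (∀ n, ‖c n‖ ≤ 1) →
        ∑ p ∈ (univ : Finset (DirichletCharacter ℂ q)) ×ˢ Icc (-(T : ℤ)) T, ‖P ⌊2 * L i⌋₊ c p‖ ^ 5 ≤ m i := by
      intro i c hc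
      obtain ⟨K, hK⟩ : ∃ K : ℕ, K = ⌊2 * L i⌋₊ := ⟨_, rfl⟩
      rw [← hK]
      have h1 : (K : ℝ) ≤ 2 * L i := by rw [hK]; exact Nat.floor_le (by linarith [hL i])
      have hK1 : 1 ≤ K := by
        rw [hK]
        apply Nat.le_floor
        push_cast
        linarith [hL i]
      have hKp : (0 : ℝ) < K := by exact_mod_cast hK1
      have hKN : (K : ℝ) ≤ 64 * N := by linarith [hLP i]
      refine (hm q T K hT2 hK1 c hc).trans ?_
      have h2 : ((q : ℝ) * T * K) ^ e ≤ 4096 ^ e * (N : ℝ) ^ (3 * e) := by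
        have h3 : (q : ℝ) * T * K ≤ 4096 * ((N : ℝ) ^ (1 + e) * N) := by
          have h4 : (N : ℝ) ^ (1 + e) = N * (N : ℝ) ^ e := by rw [Real.rpow_add hNp, Real.rpow_one]
          rw [h4]
          calc (q : ℝ) * T * K ≤ (2 * ((32 * N) * (N : ℝ) ^ e)) * (64 * N) :=
                mul_le_mul (hqT1.trans (mul_le_mul_of_nonneg_left (mul_le_mul_of_nonneg_right hQ1 hNe0.le) (by norm_num)))
                  hKN hKp.le (by positivity)
            _ = _ := by ring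
        have h5 : (N : ℝ) ^ (1 + e) * N = (N : ℝ) ^ (2 + e) := by
          rw [← Real.rpow_add_one hNp.ne']
          congr 1
          ring
        rw [h5] at h3
        calc ((q : ℝ) * T * K) ^ e ≤ (4096 * (N : ℝ) ^ (2 + e)) ^ e := Real.rpow_le_rpow (by positivity) h3 he.le
          _ = 4096 ^ e * (N : ℝ) ^ ((2 + e) * e) := by
              rw [Real.mul_rpow (by norm_num) (by positivity), ← Real.rpow_mul hNp.le]
          _ ≤ 4096 ^ e * (N : ℝ) ^ (3 * e) := by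
              refine mul_le_mul_of_nonneg_left (hmono ?_) (by positivity)
              nlinarith
      have h3 : SH ((q : ℝ) * T) K ≤ 1024 * ((N : ℝ) ^ e * SH Q (L i)) := by
        have h4 := SH_scale (Q := Q * (N : ℝ) ^ e) (Q' := (q : ℝ) * T) (K := L i) (K' := K) (t := 1) (by positivity)
          (by have : 0 < Q * (N : ℝ) ^ e := by positivity
              linarith) hKp (hLp i) le_rfl (by rw [div_one]; exact h1)
        rw [Real.one_rpow, mul_one] at h4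
        exact h4.trans (mul_le_mul_of_nonneg_left (SH53_mul (hLp i) hNe) (by norm_num))
      have hSK : 0 < SH ((q : ℝ) * T) K := SH_pos (by positivity) hKp
      rw [hmd, hD]
      dsimp only
      have h5 : (N : ℝ) ^ (4 * e) = (N : ℝ) ^ (3 * e) * (N : ℝ) ^ e := by
        rw [← Real.rpow_add hNp]
        congr 1
        ring
      calc C3 * ((q : ℝ) * T * K) ^ e * SH ((q : ℝ) * T) K
          ≤ C3 * (4096 ^ e * (N : ℝ) ^ (3 * e)) * (1024 * ((N : ℝ) ^ e * SH Q (L i))) :=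
            mul_le_mul (mul_le_mul_of_nonneg_left h2 hC3.le) h3 hSK.le (by positivity)
        _ = _ := by rw [h5]; ring
    -- the weights
    obtain ⟨G, hG⟩ : ∃ G : ℝ, G = (∏ i, m i) ^ (1 / 5 : ℝ) := ⟨_, rfl⟩
    have hPm : 0 < ∏ i, m i := Finset.prod_pos fun i _ => hm0 i
    have hG0 : 0 < G := by rw [hG]; positivity
    have hG5 : G ^ 5 = ∏ i, m i := by
      rw [hG, ← Real.rpow_natCast, ← Real.rpow_mul hPm.le]
      norm_num
    obtain ⟨lam, hlam⟩ : ∃ lam : Fin 5 → ℝ, lam = fun i => (G / m i) ^ (1 / 5 : ℝ) := ⟨_, rfl⟩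
    have hlam0 : ∀ i, 0 < lam i := by
      intro i
      rw [hlam]
      have := hm0 i
      dsimp only
      positivity
    have hlam5 : ∀ i, lam i ^ 5 = G / m i := by
      intro i
      have h0 : 0 < G / m i := div_pos hG0 (hm0 i)
      rw [hlam]
      dsimp only
      rw [← Real.rpow_natCast, ← Real.rpow_mul h0.le]
      norm_num
    have hlam1 : ∏ i, lam i = 1 := by
      have h1 : (∏ i, lam i) ^ 5 = 1 := by
        rw [← Finset.prod_pow, Finset.prod_congr rfl fun i _ => hlam5 i, Finset.prod_div_distrib, Finset.prod_const,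
          Finset.card_univ, Fintype.card_fin, hG5, div_self hPm.ne']
      have h2 : 0 ≤ ∏ i, lam i := Finset.prod_nonneg fun i _ => (hlam0 i).le
      exact (pow_eq_one_iff_of_nonneg h2 (by norm_num)).1 h1
    have h1 := hpre q a ha x F L hL hsupp hF T lam hlam0 hlam1 m hM X (by rw [← hPp]; exact hX)
    have hsumM : ∑ i : Fin 5, lam i ^ 5 * m i = 5 * G := by
      have h2 : ∀ i ∈ (univ : Finset (Fin 5)), lam i ^ 5 * m i = G := by
        intro i _
        rw [hlam5, div_mul_cancel₀ _ (hm0 i).ne']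
      rw [Finset.sum_congr rfl h2]
      simp
    have hGe : G = D * (N : ℝ) ^ (4 * e) * S := by
      have h0 : 0 < D * (N : ℝ) ^ (4 * e) := by positivity
      have h2 : ∏ i, m i = (D * (N : ℝ) ^ (4 * e)) ^ 5 * ∏ i, SH Q (L i) := by
        rw [hmd, Finset.prod_mul_distrib, Finset.prod_const, Finset.card_univ, Fintype.card_fin]
      rw [hG, h2, Real.mul_rpow (by positivity) hSP.le, ← Real.rpow_natCast, ← Real.rpow_mul h0.le, hS]
      norm_num
    rw [hsumM, ← hPp, ← hW] at h1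
    refine h1.trans ?_
    have hφ : (0 : ℝ) < q.totient := by exact_mod_cast Nat.totient_pos.2 (by omega)
    have hqN : (q : ℝ) ≤ 32 * N := le_trans (by rw [hQ]; nlinarith) hQ1
    have hWN : W ≤ 32 * N := le_trans (by rw [hQ]; nlinarith) hQ1
    have hqφ : (q : ℝ) / q.totient ≤ C2 * 32 ^ e * (N : ℝ) ^ e := by
      rw [div_le_iff₀ hφ]
      refine (tot19 (NeZero.ne q)).trans (mul_le_mul_of_nonneg_right ?_ hφ.le)
      refine (hdiv q (NeZero.ne q)).trans ?_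
      rw [mul_assoc, ← Real.mul_rpow (by norm_num) hNp.le]
      exact mul_le_mul_of_nonneg_left (Real.rpow_le_rpow hqp.le hqN he.le) hC2.le
    have hsP : 0 < Real.sqrt Pp := Real.sqrt_pos.2 hPp0
    have hsW : 0 < Real.sqrt W := Real.sqrt_pos.2 hWp
    have hsq : 0 < Real.sqrt q := Real.sqrt_pos.2 hqp
    have hsQ : Real.sqrt Q = Real.sqrt q * Real.sqrt W := by rw [hQ, Real.sqrt_mul hqp.le]
    have hA1 : Real.sqrt Pp / Real.sqrt W * (Real.sqrt q / (q.totient : ℝ) * (1 / Real.sqrt Pp) * (5 * G)) ≤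
        5 * (C2 * 32 ^ e) * D * (N : ℝ) ^ (5 * e) * (S / Real.sqrt Q) := by
      have h2 : Real.sqrt Pp / Real.sqrt W * (Real.sqrt q / (q.totient : ℝ) * (1 / Real.sqrt Pp) * (5 * G)) =
          5 * (G / (Real.sqrt q * Real.sqrt W)) * ((Real.sqrt q * Real.sqrt q) / q.totient) := by
        field_simp
      rw [h2, Real.mul_self_sqrt hqp.le, ← hsQ, hGe]
      have h3 : (N : ℝ) ^ (5 * e) = (N : ℝ) ^ (4 * e) * (N : ℝ) ^ e := by
        rw [← Real.rpow_add hNp]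
        congr 1
        ring
      have h4 : 0 ≤ D * (N : ℝ) ^ (4 * e) * S / Real.sqrt Q := by positivity
      calc 5 * (D * (N : ℝ) ^ (4 * e) * S / Real.sqrt Q) * ((q : ℝ) / q.totient)
          ≤ 5 * (D * (N : ℝ) ^ (4 * e) * S / Real.sqrt Q) * (C2 * 32 ^ e * (N : ℝ) ^ e) :=
            mul_le_mul_of_nonneg_left hqφ (by positivity)
        _ = _ := by rw [h3]; ring
    have hA2 : Real.sqrt Pp / Real.sqrt W * ((32 * Pp) * (4 * (2 * Real.pi * W)) *
        Real.exp (-(1 / (2 * Real.pi * W) / 2 * T))) ≤ 5000000 := by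
      have hpi := Real.pi_pos
      have hpi2 := Real.pi_lt_d2
      have h2 : Real.exp (-(1 / (2 * Real.pi * W) / 2 * T)) ≤ Real.exp (-((N : ℝ) ^ e / (4 * Real.pi))) := by
        apply Real.exp_le_exp.2
        apply neg_le_neg
        have h3 : 1 / (2 * Real.pi * W) / 2 * T = T / (4 * Real.pi * W) := by
          field_simp
          norm_num
        rw [h3, div_le_div_iff₀ (by positivity) (by positivity)]
        nlinarith
      have h4 : Real.sqrt Pp / Real.sqrt W ≤ 6 * N := by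
        rw [div_le_iff₀ hsW]
        have h5 : Real.sqrt Pp ≤ 6 * N := by
          rw [Real.sqrt_le_left (by linarith)]
          nlinarith
        have h6 : 1 ≤ Real.sqrt W := by rw [Real.one_le_sqrt]; exact hW1
        nlinarith
      have h5 : (32 * Pp) * (4 * (2 * Real.pi * W)) ≤ 830000 * (N : ℝ) ^ 2 := by
        have h6 : Pp * W ≤ (32 * N) * (32 * N) := mul_le_mul hPN hWN hWp.le (by positivity)
        have h7 : (32 * Pp) * (4 * (2 * Real.pi * W)) = 256 * Real.pi * (Pp * W) := by ring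
        rw [h7]
        have h8 : 0 ≤ Pp * W := by positivity
        nlinarith
      calc Real.sqrt Pp / Real.sqrt W * ((32 * Pp) * (4 * (2 * Real.pi * W)) * Real.exp (-(1 / (2 * Real.pi * W) / 2 * T)))
          ≤ (6 * N) * ((830000 * (N : ℝ) ^ 2) * Real.exp (-((N : ℝ) ^ e / (4 * Real.pi)))) := by
            refine mul_le_mul h4 ?_ (by positivity) (by positivity)
            exact mul_le_mul h5 h2 (Real.exp_pos _).le (by positivity)
        _ = 4980000 * ((N : ℝ) ^ 3 * Real.exp (-((N : ℝ) ^ e / (4 * Real.pi)))) := by ring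
        _ ≤ 4980000 * 1 := mul_le_mul_of_nonneg_left hE4 (by norm_num)
        _ ≤ 5000000 := by norm_num
    -- the logarithm
    have hlog : Real.log (32 * Pp) ≤ (7 + 1 / e) * (N : ℝ) ^ e := by
      have h2 : Real.log (32 * Pp) ≤ Real.log (1024 * N) := Real.log_le_log (by positivity) (by linarith)
      have h3 : Real.log (1024 * N) = Real.log 1024 + Real.log N := Real.log_mul (by norm_num) hNp.ne'
      have h4 : Real.log 1024 ≤ 7 := by
        have h5 : (1024 : ℝ) = 2 ^ 10 := by norm_num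
        rw [h5, Real.log_pow]
        have := Real.log_two_lt_d9
        push_cast
        linarith
      have h5 := Real.log_le_rpow_div hNp.le he
      have h6 : (N : ℝ) ^ e / e = 1 / e * (N : ℝ) ^ e := by ring
      rw [h6] at h5
      nlinarith
    have hlog0 : 0 ≤ Real.log (32 * Pp) := Real.log_nonneg (by linarith)
    have hsum : Real.sqrt Pp / Real.sqrt W * (Real.sqrt q / (q.totient : ℝ) * (1 / Real.sqrt Pp) * (5 * G) +
        (32 * Pp) * (4 * (2 * Real.pi * W)) * Real.exp (-(1 / (2 * Real.pi * W) / 2 * T))) ≤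
        (5 * (C2 * 32 ^ e) * D + 5000000) * ((N : ℝ) ^ (5 * e) * (S / Real.sqrt Q + 1)) := by
      rw [mul_add]
      have hY : (1 : ℝ) ≤ (N : ℝ) ^ (5 * e) := Real.one_le_rpow hNr (by positivity)
      have h2 : (1 : ℝ) ≤ (N : ℝ) ^ (5 * e) * (S / Real.sqrt Q + 1) :=
        one_le_mul_of_one_le_of_one_le hY (by linarith)
      have h3 : (N : ℝ) ^ (5 * e) * (S / Real.sqrt Q) ≤ (N : ℝ) ^ (5 * e) * (S / Real.sqrt Q + 1) :=
        mul_le_mul_of_nonneg_left (by linarith) (by linarith)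
      have h4 : 0 ≤ 5 * (C2 * 32 ^ e) * D := by positivity
      have h5 := mul_le_mul_of_nonneg_left h3 h4
      have h6 : 5 * (C2 * 32 ^ e) * D * (N : ℝ) ^ (5 * e) * (S / Real.sqrt Q) =
          5 * (C2 * 32 ^ e) * D * ((N : ℝ) ^ (5 * e) * (S / Real.sqrt Q)) := by ring
      rw [h6] at hA1
      linarith
    have h7 : (N : ℝ) ^ e * (N : ℝ) ^ (5 * e) ≤ (N : ℝ) ^ ε := by
      rw [← Real.rpow_add hNp]
      exact hmono (by linarith)
    have hSQ1 : 0 ≤ S / Real.sqrt Q + 1 := by linarith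
    have hB0 : 0 ≤ 5 * (C2 * 32 ^ e) * D + 5000000 := by positivity
    calc _ ≤ C1 * Real.log (32 * Pp) * ((5 * (C2 * 32 ^ e) * D + 5000000) * ((N : ℝ) ^ (5 * e) * (S / Real.sqrt Q + 1))) :=
          mul_le_mul_of_nonneg_left hsum (by positivity)
      _ ≤ C1 * ((7 + 1 / e) * (N : ℝ) ^ e) * ((5 * (C2 * 32 ^ e) * D + 5000000) * ((N : ℝ) ^ (5 * e) * (S / Real.sqrt Q + 1))) :=
          mul_le_mul_of_nonneg_right (mul_le_mul_of_nonneg_left hlog hC1.le) (by positivity)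
      _ = C1 * (7 + 1 / e) * (5 * (C2 * 32 ^ e) * D + 5000000) * (S / Real.sqrt Q + 1) * ((N : ℝ) ^ e * (N : ℝ) ^ (5 * e)) := by ring
      _ ≤ C1 * (7 + 1 / e) * (5 * (C2 * 32 ^ e) * D + 5000000) * (S / Real.sqrt Q + 1) * (N : ℝ) ^ ε :=
          mul_le_mul_of_nonneg_left h7 (by positivity)
      _ ≤ (C1 * (7 + 1 / e) * (5 * (C2 * 32 ^ e) * D + 5000000) + 1024 * N0) * (N : ℝ) ^ ε * (S / Real.sqrt Q + 1) := by
          have : 0 ≤ 1024 * (N0 : ℝ) * (N : ℝ) ^ ε * (S / Real.sqrt Q + 1) := by positivity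
          linarith

end Pool.Helper19.VE
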