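import Pool.Agent.Helper19.VE.FiveG
import Pool.Agent.Helper19.V5.GcdX
import Pool.Agent.Helper19.V4.Gcd
import Pool.Agent.Helper69.FF.DivS

/-!
# VE-6: five variables at `a/q`, common factors with `q`

`five_dec_x` (V5/GcdX.lean): for `t i ∣ q`, `G = ∏ t`, `g = gcd(G, q)`: the sum of `∏ gp q (t i) (f i)` at `G a/q = a (G/g) / (q/g)`. If some `t i ≥ 2 K i` the function
`gp q (t i) (f i)` is `0`. Otherwise `five_g` for `q/g` with `L i = max 1 (K i / t i)`, so `L i ≤ 2 K i / t i`; `SG (q/g) (L i) ≤ 2^5 t i^(-5/2) SG q (K i)`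
by `SG_scale`; hence `(∏ SG)^(1/5) / √(q/g) ≤ 2^5 G^(-1/2) g^(1/2) (∏ SG q (K i))^(1/5) / √q`, `g ≤ G`.
The number of `t` is `d(q)^5 ≤ C N^e`. Model: `small63` in V5/QuinticX.lean (support and coprimality of `gp`, extension of the range `X / G`).
-/

namespace Pool.Helper19.VE

open ArithmeticFunction Finset Pool.Helper19.V4 Pool.Helper19.V5

private lemma supp74 {ι : Type*} (s : Finset ι) {F : ι → ArithmeticFunction ℂ} {t M : ι → ℕ}
    (h : ∀ i ∈ s, ∀ n, F i n ≠ 0 → t i * n ≤ M i) {n : ℕ} (hn : (∏ i ∈ s, F i) n ≠ 0) :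
    (∏ i ∈ s, t i) * n ≤ ∏ i ∈ s, M i := by
  classical
  induction s using Finset.induction_on generalizing n with
  | empty =>
    rw [Finset.prod_empty] at hn
    have : n = 1 := by
      by_contra h1
      exact hn (ArithmeticFunction.one_apply_ne h1)
    simp [this]
  | insert a s ha ih =>
    rw [Finset.prod_insert ha, ArithmeticFunction.mul_apply] at hn
    obtain ⟨p, hp, hp2⟩ := Finset.exists_ne_zero_of_sum_ne_zero hn
    rw [Nat.mem_divisorsAntidiagonal] at hp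
    have h1 := left_ne_zero_of_mul hp2
    have h2 := right_ne_zero_of_mul hp2
    have h3 := h a (Finset.mem_insert_self _ _) _ h1
    have h4 := ih (fun i hi => h i (Finset.mem_insert_of_mem hi)) h2
    rw [Finset.prod_insert ha, Finset.prod_insert ha, ← hp.1]
    calc t a * (∏ i ∈ s, t i) * (p.1 * p.2) = (t a * p.1) * ((∏ i ∈ s, t i) * p.2) := by ring
      _ ≤ _ := Nat.mul_le_mul h3 h4

private lemma SX_ext74 {F : ArithmeticFunction ℂ} {M M' : ℕ} (hM : M ≤ M') (h : ∀ n, F n ≠ 0 → n ≤ M) (x : ℝ) :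
    SX F M x = SX F M' x := by
  unfold SX
  refine Finset.sum_subset (Finset.Icc_subset_Icc_right hM) fun n hn hn' => ?_
  have : F n = 0 := by
    by_contra h0
    exact hn' (Finset.mem_Icc.mpr ⟨(Finset.mem_Icc.mp hn).1, h n h0⟩)
  rw [this, zero_mul]

private lemma gp_norm74 {b g K : ℕ} {f : ArithmeticFunction ℂ} (h : Pc K f) (n : ℕ) : ‖gp b g f n‖ ≤ 1 := by
  show ‖(if Nat.gcd (g * n) b = g then f (g * n) else 0)‖ ≤ 1
  split_ifs
  · exact h.le _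
  · simp

private lemma gp_supp74 {b g K : ℕ} {f : ArithmeticFunction ℂ} (h : Pc K f) {n : ℕ} (hn : gp b g f n ≠ 0) :
    Nat.gcd (g * n) b = g ∧ K ≤ g * n ∧ g * n < 2 * K := by
  have h1 : (if Nat.gcd (g * n) b = g then f (g * n) else 0) ≠ 0 := hn
  split_ifs at h1 with h2
  · exact ⟨h2, (h.supp _ h1).1, (h.supp _ h1).2⟩
  · exact absurd rfl h1

private lemma prod_scale74 {S S' t : Fin 5 → ℝ} (ht : ∀ i, 1 ≤ t i) (hS' : ∀ i, 0 < S' i) (hS : ∀ i, 0 < S i)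
    (h : ∀ i, S' i ≤ 32 * t i ^ (-(5 / 2) : ℝ) * S i) :
    (∏ i, S' i) ^ (1 / 5 : ℝ) ≤ 32 * (∏ i, t i) ^ (-(1 / 2) : ℝ) * (∏ i, S i) ^ (1 / 5 : ℝ) := by
  have ht0 : ∀ i, 0 < t i := fun i => lt_of_lt_of_le one_pos (ht i)
  have h1 : ∏ i, S' i ≤ ∏ i, (32 * t i ^ (-(5 / 2) : ℝ) * S i) :=
    Finset.prod_le_prod (fun i _ => (hS' i).le) fun i _ => h i
  have h2 : ∏ i, (32 * t i ^ (-(5 / 2) : ℝ) * S i) = (32 : ℝ) ^ (5 : ℝ) * (∏ i, t i) ^ (-(5 / 2) : ℝ) * ∏ i, S i := by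
    rw [Finset.prod_mul_distrib, Finset.prod_mul_distrib, Finset.prod_const, Finset.card_univ, Fintype.card_fin,
      Real.finsetProd_rpow _ _ fun i _ => (ht0 i).le]
    norm_num
  have hT : 0 < ∏ i, t i := Finset.prod_pos fun i _ => ht0 i
  have hSS : 0 < ∏ i, S i := Finset.prod_pos fun i _ => hS i
  calc (∏ i, S' i) ^ (1 / 5 : ℝ) ≤ ((32 : ℝ) ^ (5 : ℝ) * (∏ i, t i) ^ (-(5 / 2) : ℝ) * ∏ i, S i) ^ (1 / 5 : ℝ) :=
        Real.rpow_le_rpow (Finset.prod_nonneg fun i _ => (hS' i).le) (h1.trans_eq h2) (by norm_num)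
    _ = _ := by
        rw [Real.mul_rpow (by positivity) hSS.le, Real.mul_rpow (by positivity) (by positivity), ← Real.rpow_mul (by norm_num),
          ← Real.rpow_mul hT.le]
        norm_num

private lemma one74 {C ε : ℝ} {N : ℕ} (hC : 0 < C)
    (hF : ∀ (q : ℕ) (a : ℤ), 1 ≤ q → q ≤ N → IsCoprime a (q : ℤ) → ∀ (L : Fin 5 → ℝ) (F : Fin 5 → ArithmeticFunction ℂ),
      (∀ i, 1 ≤ L i) → (∀ i, L i ≤ N) → (∀ i n, F i n ≠ 0 → (n : ℝ) < 2 * L i ∧ Nat.Coprime n q) →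
      (∀ i n, ‖F i n‖ ≤ 1) → ∀ X : ℕ, 32 * ∏ i, L i ≤ X →
        ‖SX (∏ i, F i) X ((a : ℝ) / q)‖ ≤ C * (N : ℝ) ^ ε * ((∏ i, SG q (L i)) ^ (1 / 5 : ℝ) / Real.sqrt q))
    {a : ℤ} {q : ℕ} (hN : 1 ≤ N) (hq : 1 ≤ q) (hqN : q ≤ N) (haq : IsCoprime a (q : ℤ)) {f : Fin 5 → ArithmeticFunction ℂ}
    {K : Fin 5 → ℕ} (hf : ∀ i, Pc (K i) (f i)) (hP : ∏ i, K i ≤ N) {t : Fin 5 → ℕ} (ht : ∀ i, t i ∈ q.divisors) {X : ℕ}
    (hX : 32 * ∏ i, K i ≤ X) :
    ‖SX (∏ i, gp q (t i) (f i)) (X / ∏ i, t i) (((∏ i, t i : ℕ) : ℝ) * ((a : ℝ) / q))‖ ≤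
      32 * C * (N : ℝ) ^ ε * ((∏ i, SG q (K i)) ^ (1 / 5 : ℝ) / Real.sqrt q) := by
  have hq0 : (0 : ℝ) < q := by exact_mod_cast hq
  have hN1 : (1 : ℝ) ≤ N := by exact_mod_cast hN
  have hK1 : ∀ i, 1 ≤ K i := fun i => (hf i).pos
  have hK0 : ∀ i, (0 : ℝ) < K i := fun i => by exact_mod_cast hK1 i
  have hSG : ∀ i, 0 < SG q (K i) := fun i => SG_pos hq0 (hK0 i)
  have hSP : 0 < ∏ i, SG q (K i) := Finset.prod_pos fun i _ => hSG i
  have ht1 : ∀ i, 1 ≤ t i := fun i => Nat.pos_of_mem_divisors (ht i)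
  by_cases hbig : ∃ i, 2 * K i ≤ t i
  · obtain ⟨i, hi⟩ := hbig
    have h0 : gp q (t i) (f i) = 0 := by
      ext n
      by_contra hn
      obtain ⟨-, h2, h3⟩ := gp_supp74 (hf i) hn
      rcases Nat.eq_zero_or_pos n with rfl | hn1
      · have := hK1 i
        omega
      · have : t i * 1 ≤ t i * n := Nat.mul_le_mul_left _ hn1
        omega
    have h1 : ∏ i, gp q (t i) (f i) = 0 := Finset.prod_eq_zero (Finset.mem_univ i) h0
    rw [h1]
    have h2 : ∀ M x, SX 0 M x = 0 := by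
      intro M x
      simp [SX]
    rw [h2, norm_zero]
    positivity
  push Not at hbig
  obtain ⟨G, hG⟩ : ∃ G, G = ∏ i, t i := ⟨_, rfl⟩
  have hGR : (∏ i, (t i : ℝ)) = (G : ℝ) := by rw [hG]; push_cast; rfl
  rw [← hG]
  obtain ⟨d, hd⟩ : ∃ d, d = Nat.gcd G q := ⟨_, rfl⟩
  have hG1 : 1 ≤ G := by
    rw [hG]
    exact Nat.succ_le_of_lt (Finset.prod_pos fun i _ => ht1 i)
  have hd0 : 0 < d := by rw [hd]; exact Nat.gcd_pos_of_pos_right _ (by omega)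
  have hdG : d ≤ G := by rw [hd]; exact Nat.gcd_le_left _ (by omega)
  have hdq : d ∣ q := by rw [hd]; exact Nat.gcd_dvd_right G q
  have hdGd : d ∣ G := by rw [hd]; exact Nat.gcd_dvd_left G q
  have hcop : IsCoprime (a * (G / d : ℕ)) ((q / d : ℕ) : ℤ) := by rw [hd]; exact coprime_red hq haq
  have hq'1 : 1 ≤ q / d := Nat.div_pos (Nat.le_of_dvd (by omega) hdq) hd0
  have hq'N : q / d ≤ N := (Nat.div_le_self q d).trans hqN
  have hG0 : (0 : ℝ) < G := by exact_mod_cast hG1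
  have hd0R : (0 : ℝ) < d := by exact_mod_cast hd0
  have hq'R : ((q / d : ℕ) : ℝ) = (q : ℝ) / d := Nat.cast_div hdq hd0R.ne'
  have hG'R : ((G / d : ℕ) : ℝ) = (G : ℝ) / d := Nat.cast_div hdGd hd0R.ne'
  have hq'0 : (0 : ℝ) < ((q / d : ℕ) : ℝ) := by exact_mod_cast hq'1
  have hsup : ∀ n, (∏ i, gp q (t i) (f i)) n ≠ 0 → G * n ≤ 32 * ∏ i, K i := by
    intro n hn
    have h1 := supp74 Finset.univ (t := t) (M := fun i => 2 * K i)
      (fun i _ m hm => (gp_supp74 (hf i) hm).2.2.le) hn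
    rw [Finset.prod_mul_distrib, Finset.prod_const, Finset.card_univ, Fintype.card_fin, ← hG] at h1
    calc G * n ≤ 2 ^ 5 * ∏ i, K i := h1
      _ = 32 * ∏ i, K i := by norm_num
  have hs1 : ∀ n, (∏ i, gp q (t i) (f i)) n ≠ 0 → n ≤ X / G := by
    intro n hn
    rw [Nat.le_div_iff_mul_le hG1, mul_comm]
    exact (hsup n hn).trans hX
  have htR : ∀ i, (1 : ℝ) ≤ t i := fun i => by exact_mod_cast ht1 i
  have hLK : ∀ i, max 1 ((K i : ℝ) / t i) ≤ K i := fun i =>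
    max_le (by exact_mod_cast hK1 i) (div_le_self (hK0 i).le (htR i))
  have hL2 : ∀ i, max 1 ((K i : ℝ) / t i) ≤ 2 * K i / t i := fun i => by
    have hti : (0 : ℝ) < t i := lt_of_lt_of_le one_pos (htR i)
    refine max_le ?_ ?_
    · rw [le_div_iff₀ hti, one_mul]
      exact_mod_cast (hbig i).le
    · have := hK0 i
      gcongr
      linarith
  have hKN : ∀ i, (K i : ℝ) ≤ N := fun i => by
    have h1 : K i ≤ ∏ i, K i :=
      Nat.le_of_dvd (Finset.prod_pos fun i _ => hK1 i) (Finset.dvd_prod_of_mem K (Finset.mem_univ i))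
    exact_mod_cast h1.trans hP
  rw [SX_ext74 (le_max_left (X / G) (32 * ∏ i, K i)) hs1]
  have hpt : (G : ℝ) * ((a : ℝ) / q) = (((a * ((G / d : ℕ) : ℤ) : ℤ)) : ℝ) / ((q / d : ℕ) : ℝ) := by
    rw [Int.cast_mul, Int.cast_natCast, hG'R, hq'R]
    field_simp
  rw [hpt]
  have key := hF (q / d) (a * ((G / d : ℕ) : ℤ)) hq'1 hq'N hcop (fun i => max 1 ((K i : ℝ) / t i))
    (fun i => gp q (t i) (f i)) (fun i => le_max_left _ _) (fun i => (hLK i).trans (hKN i)) (fun i n hn => ?_)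
    (fun i n => gp_norm74 (hf i) n) (max (X / G) (32 * ∏ i, K i)) (by
      have h1 : ((32 * ∏ i, K i : ℕ) : ℝ) ≤ ((max (X / G) (32 * ∏ i, K i) : ℕ) : ℝ) := by
        exact_mod_cast le_max_right _ _
      have h2 : ((32 * ∏ i, K i : ℕ) : ℝ) = 32 * ∏ i, (K i : ℝ) := by
        push_cast
        ring
      rw [h2] at h1
      refine le_trans ?_ h1
      refine mul_le_mul_of_nonneg_left ?_ (by norm_num)
      exact Finset.prod_le_prod (fun i _ => le_trans zero_le_one (le_max_left _ _)) fun i _ => hLK i)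
  · refine key.trans ?_
    have hs := prod_scale74 (t := fun i => (t i : ℝ)) (S := fun i => SG q (K i))
      (S' := fun i => SG ((q / d : ℕ) : ℝ) (max 1 ((K i : ℝ) / t i))) htR
      (fun i => SG_pos hq'0 (lt_of_lt_of_le one_pos (le_max_left _ _))) hSG
      (fun i => SG_scale hq'0 (by rw [hq'R]; exact div_le_self hq0.le (by exact_mod_cast hd0))
        (lt_of_lt_of_le one_pos (le_max_left _ _)) (hK0 i) (htR i) (hL2 i))
    simp only [hGR] at hs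
    rw [show 32 * C * (N : ℝ) ^ ε * ((∏ i, SG q (K i)) ^ (1 / 5 : ℝ) / Real.sqrt q) =
      C * (N : ℝ) ^ ε * (32 * ((∏ i, SG q (K i)) ^ (1 / 5 : ℝ) / Real.sqrt q)) by ring]
    refine mul_le_mul_of_nonneg_left ?_ (by positivity)
    rw [hq'R, Real.sqrt_div hq0.le]
    have hsq : 0 < Real.sqrt q := Real.sqrt_pos.mpr hq0
    have hsd : 0 < Real.sqrt (d : ℝ) := Real.sqrt_pos.mpr hd0R
    have hsG : 0 < Real.sqrt (G : ℝ) := Real.sqrt_pos.mpr hG0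
    have hsdG : Real.sqrt (d : ℝ) ≤ Real.sqrt (G : ℝ) := Real.sqrt_le_sqrt (by exact_mod_cast hdG)
    have hGi : (G : ℝ) ^ (-(1 / 2) : ℝ) = (Real.sqrt (G : ℝ))⁻¹ := by
      rw [Real.rpow_neg hG0.le, Real.sqrt_eq_rpow]
    rw [hGi] at hs
    rw [hq'R] at hs
    have hA : 0 ≤ (∏ i, SG q (K i)) ^ (1 / 5 : ℝ) := by positivity
    calc _ ≤ 32 * (Real.sqrt (G : ℝ))⁻¹ * (∏ i, SG q (K i)) ^ (1 / 5 : ℝ) / (Real.sqrt q / Real.sqrt (d : ℝ)) := by
          gcongr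
      _ = 32 * ((∏ i, SG q (K i)) ^ (1 / 5 : ℝ) / Real.sqrt q) * (Real.sqrt (d : ℝ) / Real.sqrt (G : ℝ)) := by
          field_simp
      _ ≤ 32 * ((∏ i, SG q (K i)) ^ (1 / 5 : ℝ) / Real.sqrt q) * 1 := by
          refine mul_le_mul_of_nonneg_left ((div_le_one hsG).mpr hsdG) (by positivity)
      _ = _ := by ring
  · obtain ⟨h1, h2, h3⟩ := gp_supp74 (hf i) hn
    have hti : (0 : ℝ) < t i := by exact_mod_cast ht1 i
    refine ⟨?_, ?_⟩
    · have h4 : (n : ℝ) < 2 * ((K i : ℝ) / t i) := by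
        rw [← mul_div_assoc, lt_div_iff₀ hti]
        have : (t i : ℝ) * n < 2 * (K i : ℝ) := by exact_mod_cast h3
        linarith
      exact h4.trans_le (mul_le_mul_of_nonneg_left (le_max_right _ _) (by norm_num))
    · have hdv : t i ∣ q := Nat.dvd_of_mem_divisors (ht i)
      have h5 : t i ∣ d := by
        rw [hd]
        exact Nat.dvd_gcd (by rw [hG]; exact Finset.dvd_prod_of_mem t (Finset.mem_univ i)) hdv
      have h6 : q / d ∣ q / t i := Nat.div_dvd_div_left hdq h5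
      have h4 : Nat.Coprime n (q / t i) := by
        obtain ⟨c', hc'⟩ := hdv
        rw [hc', Nat.mul_div_cancel_left _ (ht1 i)]
        have h7 : Nat.gcd (t i * n) (t i * c') = t i := by
          rw [← hc']
          exact h1
        rw [Nat.gcd_mul_left] at h7
        exact Nat.eq_of_mul_eq_mul_left (ht1 i) (h7.trans (mul_one _).symm)
      exact h4.coprime_dvd_right h6

theorem gcd_g (h : M5G) {ε : ℝ} (hε : 0 < ε) : ∃ C : ℝ, 0 < C ∧ ∀ N : ℕ, 1 ≤ N → ∀ (q : ℕ) (a : ℤ), 1 ≤ q → q ≤ N →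
    IsCoprime a (q : ℤ) → ∀ (f : Fin 5 → ArithmeticFunction ℂ) (K : Fin 5 → ℕ), (∀ i, Pc (K i) (f i)) → ∏ i, K i ≤ N →
    ∀ X : ℕ, 32 * ∏ i, K i ≤ X →
      ‖SX (∏ i, f i) X ((a : ℝ) / q)‖ ≤ C * (N : ℝ) ^ ε * ((∏ i, SG q (K i)) ^ (1 / 5 : ℝ) / Real.sqrt q) := by
  obtain ⟨C1, hC1, hF⟩ := five_g h (ε := ε / 2) (by positivity)
  obtain ⟨C2, hC2, hD⟩ := Pool.Agent.Helper69.FF.div_bound (ε := ε / 10) (by positivity)
  refine ⟨C2 ^ 5 * (32 * C1), by positivity, ?_⟩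
  intro N hN q a hq hqN haq f K hf hP X hX
  have hN0 : (0 : ℝ) < N := by exact_mod_cast hN
  have hq0 : (0 : ℝ) < q := by exact_mod_cast hq
  have hSP : 0 < ∏ i, SG q (K i) := Finset.prod_pos fun i _ => SG_pos hq0 (by exact_mod_cast (hf i).pos)
  have h1 := five_dec_x hq f X ((a : ℝ) / q) fun t ht => one74 hC1 (hF N hN) hN hq hqN haq hf hP ht hX
  refine h1.trans ?_
  have hd : (q.divisors.card : ℝ) ^ 5 ≤ C2 ^ 5 * (N : ℝ) ^ (ε / 2) := by
    have h1 := hD q (by omega)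
    have h2 : (q : ℝ) ^ (ε / 10) ≤ (N : ℝ) ^ (ε / 10) :=
      Real.rpow_le_rpow (by positivity) (by exact_mod_cast hqN) (by positivity)
    calc (q.divisors.card : ℝ) ^ 5 ≤ (C2 * (N : ℝ) ^ (ε / 10)) ^ 5 :=
          pow_le_pow_left₀ (by positivity) (h1.trans (mul_le_mul_of_nonneg_left h2 hC2.le)) 5
      _ = C2 ^ 5 * (N : ℝ) ^ (ε / 2) := by
          rw [mul_pow, ← Real.rpow_natCast ((N : ℝ) ^ (ε / 10)) 5, ← Real.rpow_mul hN0.le]
          congr 2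
          push_cast
          ring
  have hE : (N : ℝ) ^ (ε / 2) * (N : ℝ) ^ (ε / 2) = (N : ℝ) ^ ε := by
    rw [← Real.rpow_add hN0]
    congr 1
    ring
  calc (q.divisors.card : ℝ) ^ 5 * (32 * C1 * (N : ℝ) ^ (ε / 2) * ((∏ i, SG q (K i)) ^ (1 / 5 : ℝ) / Real.sqrt q))
      ≤ (C2 ^ 5 * (N : ℝ) ^ (ε / 2)) *
        (32 * C1 * (N : ℝ) ^ (ε / 2) * ((∏ i, SG q (K i)) ^ (1 / 5 : ℝ) / Real.sqrt q)) :=
        mul_le_mul_of_nonneg_right hd (by positivity)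
    _ = C2 ^ 5 * (32 * C1) * ((N : ℝ) ^ (ε / 2) * (N : ℝ) ^ (ε / 2)) *
        ((∏ i, SG q (K i)) ^ (1 / 5 : ℝ) / Real.sqrt q) := by ring
    _ = _ := by rw [hE]

end Pool.Helper19.VE
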