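import Pool.Agent.Helper19.VE.FiveH
import Pool.Agent.Helper19.V5.GcdX
import Pool.Agent.Helper19.V4.Gcd

/-!
# VE-7: five variables at a real point, common factors with `q`

`five_dec_x` (V5/GcdX.lean): for `t i ∣ q`, `G = ∏ t`, `g = gcd(G, q)`: the sum of `∏ gp q (t i) (f i)` at `G x`, near the fraction `a (G/g) / (q/g)`. If some `t i ≥ 2 K i` the function
`gp q (t i) (f i)` is `0`. Otherwise `five_h` with `L i = max 1 (K i / t i)`, so `K i / t i ≤ L i ≤ 2 K i / t i`, and with `QQ_mul`: `Q/g ≤ QQ (∏ L) (G x) .. ≤ 32 Q/g`,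
`Q = QQ (∏ K) x a q`. `SH_scale`: `SH (QQ ..) (L i) ≤ 1024 t i^(-11/4) SH Q (K i)`; hence `(∏ SH)^(1/5) / √(Q/g) ≤ C G^(-11/20) g^(1/2) (∏ SH Q (K i))^(1/5) / √Q`, `g ≤ G`.
The number of `t` is `d(q)^5 ≤ C N^e`. Model: `small63` in V5/QuinticX.lean (support and coprimality of `gp`, extension of the range `X / G`).
-/

namespace Pool.Helper19.VE

open ArithmeticFunction Finset Pool.Helper19.V4 Pool.Helper19.V5

private lemma supp99 {ι : Type*} (s : Finset ι) {F : ι → ArithmeticFunction ℂ} {t M : ι → ℕ}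
    (h : ∀ i ∈ s, ∀ n, F i n ≠ 0 → t i * n ≤ M i) {n : ℕ} (hn : (∏ i ∈ s, F i) n ≠ 0) :
    (∏ i ∈ s, t i) * n ≤ ∏ i ∈ s, M i := by
  classical
  induction s using Finset.induction_on generalizing n with
  | empty =>
    rw [Finset.prod_empty] at hn
    have : n = 1 := by
      by_contra h1
      exact hn (ArithmeticFunction.one_apply_ne h1)
    simp [this]
  | insert a s ha ih =>
    rw [Finset.prod_insert ha, ArithmeticFunction.mul_apply] at hn
    obtain ⟨p, hp, hp2⟩ := Finset.exists_ne_zero_of_sum_ne_zero hn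
    rw [Nat.mem_divisorsAntidiagonal] at hp
    have h1 := left_ne_zero_of_mul hp2
    have h2 := right_ne_zero_of_mul hp2
    have h3 := h a (Finset.mem_insert_self _ _) _ h1
    have h4 := ih (fun i hi => h i (Finset.mem_insert_of_mem hi)) h2
    rw [Finset.prod_insert ha, Finset.prod_insert ha, ← hp.1]
    calc t a * (∏ i ∈ s, t i) * (p.1 * p.2) = (t a * p.1) * ((∏ i ∈ s, t i) * p.2) := by ring
      _ ≤ _ := Nat.mul_le_mul h3 h4

private lemma SX_ext99 {F : ArithmeticFunction ℂ} {M M' : ℕ} (hM : M ≤ M') (h : ∀ n, F n ≠ 0 → n ≤ M) (x : ℝ) :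
    SX F M x = SX F M' x := by
  unfold SX
  refine Finset.sum_subset (Finset.Icc_subset_Icc_right hM) fun n hn hn' => ?_
  have : F n = 0 := by
    by_contra h0
    exact hn' (Finset.mem_Icc.mpr ⟨(Finset.mem_Icc.mp hn).1, h n h0⟩)
  rw [this, zero_mul]

private lemma gp_norm99 {b g K : ℕ} {f : ArithmeticFunction ℂ} (h : Pc K f) (n : ℕ) : ‖gp b g f n‖ ≤ 1 := by
  show ‖(if Nat.gcd (g * n) b = g then f (g * n) else 0)‖ ≤ 1
  split_ifs
  · exact h.le _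
  · simp

private lemma gp_supp99 {b g K : ℕ} {f : ArithmeticFunction ℂ} (h : Pc K f) {n : ℕ} (hn : gp b g f n ≠ 0) :
    Nat.gcd (g * n) b = g ∧ K ≤ g * n ∧ g * n < 2 * K := by
  have h1 : (if Nat.gcd (g * n) b = g then f (g * n) else 0) ≠ 0 := hn
  split_ifs at h1 with h2
  · exact ⟨h2, (h.supp _ h1).1, (h.supp _ h1).2⟩
  · exact absurd rfl h1

/-- one tuple of divisors -/
private lemma one99 {CF ε : ℝ} (hCF : 0 < CF) {N : ℕ} (hN : 1 ≤ N)
    (hF : ∀ (q : ℕ) (a : ℤ), 1 ≤ q →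
      IsCoprime a (q : ℤ) → ∀ (x : ℝ) (L : Fin 5 → ℝ) (F : Fin 5 → ArithmeticFunction ℂ), (∀ i, 1 ≤ L i) →
      ∏ i, L i ≤ 32 * N → (∀ i n, F i n ≠ 0 → L i ≤ n ∧ (n : ℝ) < 2 * L i ∧ Nat.Coprime n q) → (∀ i n, ‖F i n‖ ≤ 1) →
      QQ (∏ i, L i) x a q ≤ 32 * N → ∀ X : ℕ, 32 * ∏ i, L i ≤ X →
        ‖SX (∏ i, F i) X x‖ ≤ CF * (N : ℝ) ^ ε *
          ((∏ i, SH (QQ (∏ i, L i) x a q) (L i)) ^ (1 / 5 : ℝ) / Real.sqrt (QQ (∏ i, L i) x a q) + 1))
    {x : ℝ} {a : ℤ} {q : ℕ} (hq : 1 ≤ q) (haq : IsCoprime a (q : ℤ)) {f : Fin 5 → ArithmeticFunction ℂ} {K : Fin 5 → ℕ}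
    (hf : ∀ i, Pc (K i) (f i)) (hP : ∏ i, K i ≤ N) {t : Fin 5 → ℕ} (ht : ∀ i, t i ∈ q.divisors)
    (hQu : QQ (∏ i, (K i : ℝ)) x a q ≤ N) {X : ℕ} (hX : 32 * ∏ i, K i ≤ X) :
    ‖SX (∏ i, gp q (t i) (f i)) (X / ∏ i, t i) (((∏ i, t i : ℕ) : ℝ) * x)‖ ≤
      1024 * CF * (N : ℝ) ^ ε *
        ((∏ i, SH (QQ (∏ i, (K i : ℝ)) x a q) (K i)) ^ (1 / 5 : ℝ) / Real.sqrt (QQ (∏ i, (K i : ℝ)) x a q) + 1) := by
  have hN0 : (0 : ℝ) < N := by exact_mod_cast hN
  have ht1 : ∀ i, 1 ≤ t i := fun i => Nat.pos_of_mem_divisors (ht i)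
  have ht1R : ∀ i, (1 : ℝ) ≤ t i := fun i => by exact_mod_cast ht1 i
  have hK1 : ∀ i, (1 : ℝ) ≤ K i := fun i => by exact_mod_cast (hf i).pos
  obtain ⟨G, hG⟩ : ∃ G, G = ∏ i, t i := ⟨_, rfl⟩
  have hGR : (∏ i, (t i : ℝ)) = (G : ℝ) := by rw [hG]; push_cast; rfl
  rw [← hG]
  obtain ⟨P, hPdef⟩ : ∃ P : ℝ, P = ∏ i, (K i : ℝ) := ⟨_, rfl⟩
  have hP0 : 0 < P := by
    rw [hPdef]
    exact Finset.prod_pos fun i _ => by linarith [hK1 i]
  rw [← hPdef] at hQu ⊢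
  obtain ⟨Q, hQ⟩ : ∃ Q : ℝ, Q = QQ P x a q := ⟨_, rfl⟩
  have hQ1 : 1 ≤ Q := by rw [hQ]; exact QQ_pos hP0.le hq
  have hSH0 : ∀ i, 0 < SH Q (K i) := fun i => SH_pos (by linarith) (by linarith [hK1 i])
  have hR0 : 0 ≤ (∏ i, SH Q (K i)) ^ (1 / 5 : ℝ) / Real.sqrt Q + 1 := by
    have : 0 ≤ ∏ i, SH Q (K i) := Finset.prod_nonneg fun i _ => (hSH0 i).le
    positivity
  rw [← hQ]
  by_cases hbig : ∃ i, 2 * K i ≤ t i
  · -- one factor is zero
    obtain ⟨i, hi⟩ := hbig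
    have h0 : gp q (t i) (f i) = 0 := by
      ext n
      by_contra hn
      have h1 : gp q (t i) (f i) n ≠ 0 := hn
      obtain ⟨-, h2, h3⟩ := gp_supp99 (hf i) h1
      have hn1 : 1 ≤ n := by
        rcases Nat.eq_zero_or_pos n with rfl | h
        · simp at h1
        · exact h
      have h4 : t i * 1 ≤ t i * n := Nat.mul_le_mul_left _ hn1
      omega
    have h1 : ∏ i, gp q (t i) (f i) = 0 := Finset.prod_eq_zero (Finset.mem_univ i) h0
    rw [h1]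
    have h2 : SX (0 : ArithmeticFunction ℂ) (X / G) ((G : ℝ) * x) = 0 := by
      unfold SX
      simp
    rw [h2, norm_zero]
    positivity
  · push Not at hbig
    obtain ⟨d, hd⟩ : ∃ d, d = Nat.gcd G q := ⟨_, rfl⟩
    have hG1 : 1 ≤ G := by
      rw [hG]
      exact Nat.succ_le_of_lt (Finset.prod_pos fun i _ => ht1 i)
    have hd0 : 0 < d := by rw [hd]; exact Nat.gcd_pos_of_pos_right _ (by omega)
    have hdG : d ≤ G := by rw [hd]; exact Nat.gcd_le_left _ (by omega)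
    have hdq : d ∣ q := by rw [hd]; exact Nat.gcd_dvd_right G q
    have hcop : IsCoprime (a * (G / d : ℕ)) ((q / d : ℕ) : ℤ) := by rw [hd]; exact coprime_red hq haq
    have hq'1 : 1 ≤ q / d := Nat.div_pos (Nat.le_of_dvd (by omega) hdq) hd0
    have hG0 : (0 : ℝ) < G := by exact_mod_cast hG1
    have hG1R : (1 : ℝ) ≤ G := by exact_mod_cast hG1
    have hd0R : (0 : ℝ) < d := by exact_mod_cast hd0
    have hd1R : (1 : ℝ) ≤ d := by exact_mod_cast hd0
    have hdGR : (d : ℝ) ≤ G := by exact_mod_cast hdG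
    have hPN : P ≤ N := by
      rw [hPdef]
      exact_mod_cast hP
    obtain ⟨L, hLd⟩ : ∃ L : Fin 5 → ℝ, L = fun i => max 1 ((K i : ℝ) / t i) := ⟨_, rfl⟩
    have hL1 : ∀ i, 1 ≤ L i := fun i => by rw [hLd]; exact le_max_left _ _
    have hLK : ∀ i, (K i : ℝ) / t i ≤ L i := fun i => by rw [hLd]; exact le_max_right _ _
    have hLu : ∀ i, L i ≤ 2 * (K i : ℝ) / t i := by
      intro i
      have hti : (0 : ℝ) < t i := by linarith [ht1R i]
      rw [hLd]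
      refine max_le ?_ ?_
      · rw [le_div_iff₀ hti, one_mul]
        exact_mod_cast (hbig i).le
      · have : 0 ≤ (K i : ℝ) / t i := by positivity
        rw [mul_div_assoc]
        linarith
    have hPL : P / G ≤ ∏ i, L i := by
      rw [hPdef, ← hGR, ← Finset.prod_div_distrib]
      exact Finset.prod_le_prod (fun i _ => by positivity) fun i _ => hLK i
    have hPLu : ∏ i, L i ≤ 32 * (P / G) := by
      calc ∏ i, L i ≤ ∏ i, (2 * (K i : ℝ) / t i) :=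
            Finset.prod_le_prod (fun i _ => by linarith [hL1 i]) fun i _ => hLu i
        _ = 32 * (P / G) := by
            rw [Finset.prod_div_distrib, Finset.prod_mul_distrib, Finset.prod_const, Finset.card_univ, Fintype.card_fin,
              hGR, ← hPdef]
            norm_num
            ring
    have hPGP : P / G ≤ P := div_le_self hP0.le hG1R
    obtain ⟨M, hM⟩ : ∃ M : ℝ, M = ∏ i, L i := ⟨_, rfl⟩
    have hM0 : 0 ≤ M := by rw [hM]; exact Finset.prod_nonneg fun i _ => by linarith [hL1 i]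
    rw [← hM] at hPL hPLu
    obtain ⟨β, hβ⟩ : ∃ β : ℝ, β = |x - a / q| := ⟨_, rfl⟩
    have hβ0 : 0 ≤ β := by rw [hβ]; exact abs_nonneg _
    have hq0 : (0 : ℝ) < q := by exact_mod_cast hq
    have hQe : Q = q * (1 + P * β) := by rw [hQ, hβ]; rfl
    obtain ⟨Q', hQ'⟩ : ∃ Q' : ℝ, Q' = QQ M ((G : ℝ) * x) (a * ((G / d : ℕ) : ℤ)) (q / d) := ⟨_, rfl⟩
    have hQ'e : Q' = ((q : ℝ) / d) * (1 + M * G * β) := by
      rw [hQ', hd, QQ_mul hq hG1, ← hβ]
    have hMG1 : P ≤ M * G := by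
      rwa [div_le_iff₀ hG0] at hPL
    have hMG2 : M * G ≤ 32 * P := by
      calc M * G ≤ 32 * (P / G) * G := mul_le_mul_of_nonneg_right hPLu hG0.le
        _ = 32 * P := by field_simp
    have hQ'l : Q / d ≤ Q' := by
      rw [hQ'e, hQe]
      have h1 : P * β ≤ M * G * β := mul_le_mul_of_nonneg_right hMG1 hβ0
      calc (q : ℝ) * (1 + P * β) / d = (q : ℝ) / d * (1 + P * β) := by ring
        _ ≤ (q : ℝ) / d * (1 + M * G * β) := by gcongr
    have hQ'u : Q' ≤ 32 * (Q / d) := by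
      rw [hQ'e, hQe]
      have h1 : M * G * β ≤ 32 * P * β := mul_le_mul_of_nonneg_right hMG2 hβ0
      calc (q : ℝ) / d * (1 + M * G * β) ≤ (q : ℝ) / d * (32 * (1 + P * β)) := by
            have : 1 + M * G * β ≤ 32 * (1 + P * β) := by linarith
            gcongr
        _ = 32 * ((q : ℝ) * (1 + P * β) / d) := by ring
    have hQd : Q / d ≤ Q := div_le_self (by linarith) hd1R
    have hQd0 : 0 < Q / d := by positivity
    have hQ'0 : 0 < Q' := by linarith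
    have hsup : ∀ n, (∏ i, gp q (t i) (f i)) n ≠ 0 → G * n ≤ 32 * ∏ i, K i := by
      intro n hn
      have h1 := supp99 Finset.univ (t := t) (M := fun i => 2 * K i)
        (fun i _ m hm => (gp_supp99 (hf i) hm).2.2.le) hn
      rw [Finset.prod_mul_distrib, Finset.prod_const, Finset.card_univ, Fintype.card_fin, ← hG] at h1
      calc G * n ≤ 2 ^ 5 * ∏ i, K i := h1
        _ = 32 * ∏ i, K i := by norm_num
    have hs1 : ∀ n, (∏ i, gp q (t i) (f i)) n ≠ 0 → n ≤ X / G := by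
      intro n hn
      rw [Nat.le_div_iff_mul_le hG1, mul_comm]
      exact (hsup n hn).trans hX
    rw [SX_ext99 (le_max_left (X / G) (1024 * ∏ i, K i)) hs1]
    have key := hF (q / d) (a * ((G / d : ℕ) : ℤ)) hq'1 hcop ((G : ℝ) * x) L
      (fun i => gp q (t i) (f i)) hL1 (by rw [← hM]; linarith) (fun i n hn => ?_) (fun i n => gp_norm99 (hf i) n)
      (by
        rw [← hM, ← hQ']
        rw [← hQ] at hQu
        linarith)
      (max (X / G) (1024 * ∏ i, K i)) (by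
        rw [← hM]
        have h1 : ((1024 * ∏ i, K i : ℕ) : ℝ) ≤ ((max (X / G) (1024 * ∏ i, K i) : ℕ) : ℝ) := by
          exact_mod_cast le_max_right _ _
        have h2 : ((1024 * ∏ i, K i : ℕ) : ℝ) = 1024 * P := by
          rw [hPdef]
          push_cast
          ring
        rw [h2] at h1
        linarith)
    · rw [← hM, ← hQ'] at key
      refine key.trans ?_
      have hC0 : 0 < CF * (N : ℝ) ^ ε := by positivity
      have hcore : (∏ i, SH Q' (L i)) ^ (1 / 5 : ℝ) / Real.sqrt Q' ≤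
          1024 * ((∏ i, SH Q (K i)) ^ (1 / 5 : ℝ) / Real.sqrt Q) := by
        have h1 : ∏ i, SH Q' (L i) ≤ ∏ i, (1024 * (t i : ℝ) ^ (-(11 / 4) : ℝ) * SH Q (K i)) :=
          Finset.prod_le_prod (fun i _ => (SH_pos hQ'0 (by linarith [hL1 i])).le) fun i _ =>
            SH_scale hQ'0 (by linarith) (by linarith [hL1 i]) (by linarith [hK1 i]) (ht1R i) (hLu i)
        have h2 : ∏ i, (1024 * (t i : ℝ) ^ (-(11 / 4) : ℝ) * SH Q (K i)) =
            1024 ^ 5 * (G : ℝ) ^ (-(11 / 4) : ℝ) * ∏ i, SH Q (K i) := by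
          rw [Finset.prod_mul_distrib, Finset.prod_mul_distrib, Finset.prod_const, Finset.card_univ, Fintype.card_fin,
            Real.finsetProd_rpow _ _ (fun i _ => by positivity), hGR]
        have hS0 : 0 < ∏ i, SH Q (K i) := Finset.prod_pos fun i _ => hSH0 i
        have h3 : (∏ i, SH Q' (L i)) ^ (1 / 5 : ℝ) ≤ 1024 * ((G : ℝ) ^ (-(11 / 20) : ℝ) * (∏ i, SH Q (K i)) ^ (1 / 5 : ℝ)) := by
          calc (∏ i, SH Q' (L i)) ^ (1 / 5 : ℝ) ≤ (1024 ^ 5 * (G : ℝ) ^ (-(11 / 4) : ℝ) * ∏ i, SH Q (K i)) ^ (1 / 5 : ℝ) := by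
                rw [← h2]
                refine Real.rpow_le_rpow (Finset.prod_nonneg fun i _ => (SH_pos hQ'0 (by linarith [hL1 i])).le) h1 (by norm_num)
            _ = 1024 * ((G : ℝ) ^ (-(11 / 20) : ℝ) * (∏ i, SH Q (K i)) ^ (1 / 5 : ℝ)) := by
                rw [Real.mul_rpow (by positivity) hS0.le, Real.mul_rpow (by positivity) (by positivity),
                  ← Real.rpow_natCast (1024 : ℝ) 5, ← Real.rpow_mul (by norm_num), ← Real.rpow_mul hG0.le]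
                norm_num
                ring
        have h4 : (Real.sqrt Q')⁻¹ ≤ (G : ℝ) ^ (1 / 2 : ℝ) * (Real.sqrt Q)⁻¹ := by
          have h5 : Real.sqrt (Q / d) ≤ Real.sqrt Q' := Real.sqrt_le_sqrt hQ'l
          have h6 : 0 < Real.sqrt (Q / d) := Real.sqrt_pos.mpr hQd0
          calc (Real.sqrt Q')⁻¹ ≤ (Real.sqrt (Q / d))⁻¹ := inv_anti₀ h6 h5
            _ = Real.sqrt d * (Real.sqrt Q)⁻¹ := by
                rw [Real.sqrt_div (by linarith), inv_div, div_eq_mul_inv]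
            _ ≤ (G : ℝ) ^ (1 / 2 : ℝ) * (Real.sqrt Q)⁻¹ := by
                rw [← Real.sqrt_eq_rpow]
                gcongr
        have hsq : 0 ≤ (∏ i, SH Q (K i)) ^ (1 / 5 : ℝ) := by positivity
        rw [div_eq_mul_inv, div_eq_mul_inv]
        calc (∏ i, SH Q' (L i)) ^ (1 / 5 : ℝ) * (Real.sqrt Q')⁻¹ ≤
            (1024 * ((G : ℝ) ^ (-(11 / 20) : ℝ) * (∏ i, SH Q (K i)) ^ (1 / 5 : ℝ))) * ((G : ℝ) ^ (1 / 2 : ℝ) * (Real.sqrt Q)⁻¹) :=
              mul_le_mul h3 h4 (by positivity) (by positivity)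
          _ = ((G : ℝ) ^ (-(11 / 20) : ℝ) * (G : ℝ) ^ (1 / 2 : ℝ)) * (1024 * ((∏ i, SH Q (K i)) ^ (1 / 5 : ℝ) * (Real.sqrt Q)⁻¹)) := by
              ring
          _ ≤ 1 * (1024 * ((∏ i, SH Q (K i)) ^ (1 / 5 : ℝ) * (Real.sqrt Q)⁻¹)) := by
              refine mul_le_mul_of_nonneg_right ?_ (by positivity)
              rw [← Real.rpow_add hG0]
              exact Real.rpow_le_one_of_one_le_of_nonpos hG1R (by norm_num)
          _ = _ := one_mul _
      have h0 : 0 ≤ (∏ i, SH Q (K i)) ^ (1 / 5 : ℝ) / Real.sqrt Q := by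
        have : 0 ≤ ∏ i, SH Q (K i) := Finset.prod_nonneg fun i _ => (hSH0 i).le
        positivity
      calc CF * (N : ℝ) ^ ε * ((∏ i, SH Q' (L i)) ^ (1 / 5 : ℝ) / Real.sqrt Q' + 1) ≤
          CF * (N : ℝ) ^ ε * (1024 * ((∏ i, SH Q (K i)) ^ (1 / 5 : ℝ) / Real.sqrt Q + 1)) := by
            refine mul_le_mul_of_nonneg_left ?_ hC0.le
            linarith
        _ = _ := by ring
    · obtain ⟨h1, h2, h3⟩ := gp_supp99 (hf i) hn
      have hti : (0 : ℝ) < t i := by linarith [ht1R i]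
      have hn1 : 1 ≤ n := by
        rcases Nat.eq_zero_or_pos n with rfl | h
        · simp at hn
        · exact h
      refine ⟨?_, ?_, ?_⟩
      · rw [hLd]
        refine max_le (by exact_mod_cast hn1) ?_
        rw [div_le_iff₀ hti]
        have : (K i : ℝ) ≤ (t i : ℝ) * n := by exact_mod_cast h2
        linarith
      · have h4 : (n : ℝ) < 2 * ((K i : ℝ) / t i) := by
          rw [← mul_div_assoc, lt_div_iff₀ hti]
          have : (t i : ℝ) * n < 2 * (K i : ℝ) := by exact_mod_cast h3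
          linarith
        linarith [hLK i]
      · have hdv : t i ∣ q := Nat.dvd_of_mem_divisors (ht i)
        have h5 : t i ∣ d := by
          rw [hd]
          exact Nat.dvd_gcd (by rw [hG]; exact Finset.dvd_prod_of_mem t (Finset.mem_univ i)) hdv
        have h6 : q / d ∣ q / t i := Nat.div_dvd_div_left hdq h5
        have h4 : Nat.Coprime n (q / t i) := by
          obtain ⟨c', hc'⟩ := hdv
          rw [hc', Nat.mul_div_cancel_left _ (ht1 i)]
          have h7 : Nat.gcd (t i * n) (t i * c') = t i := by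
            rw [← hc']
            exact h1
          rw [Nat.gcd_mul_left] at h7
          exact Nat.eq_of_mul_eq_mul_left (ht1 i) (h7.trans (mul_one _).symm)
        exact h4.coprime_dvd_right h6

theorem gcd_h (h : M5H) {ε : ℝ} (hε : 0 < ε) : ∃ C : ℝ, 0 < C ∧ ∀ N : ℕ, 1 ≤ N → ∀ (q : ℕ) (a : ℤ), 1 ≤ q →
    IsCoprime a (q : ℤ) → ∀ (x : ℝ) (f : Fin 5 → ArithmeticFunction ℂ) (K : Fin 5 → ℕ), (∀ i, Pc (K i) (f i)) →
    ∏ i, K i ≤ N → QQ (∏ i, (K i : ℝ)) x a q ≤ N → ∀ X : ℕ, 32 * ∏ i, K i ≤ X →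
      ‖SX (∏ i, f i) X x‖ ≤ C * (N : ℝ) ^ ε *
        ((∏ i, SH (QQ (∏ i, (K i : ℝ)) x a q) (K i)) ^ (1 / 5 : ℝ) / Real.sqrt (QQ (∏ i, (K i : ℝ)) x a q) + 1) := by
  obtain ⟨CF, hCF, hF⟩ := five_h h (ε := ε / 2) (by positivity)
  obtain ⟨C2, hC2, hD⟩ := Pool.Agent.Helper69.FF.div_bound (ε := ε / 10) (by positivity)
  refine ⟨C2 ^ 5 * (1024 * CF), by positivity, ?_⟩
  intro N hN q a hq haq x f K hf hP hQu X hX
  have hNR : (1 : ℝ) ≤ N := by exact_mod_cast hN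
  have hN0 : (0 : ℝ) < N := by linarith
  obtain ⟨P, hPdef⟩ : ∃ P : ℝ, P = ∏ i, (K i : ℝ) := ⟨_, rfl⟩
  have hP0 : 0 ≤ P := by rw [hPdef]; positivity
  have hqN : (q : ℝ) ≤ N := by
    refine le_trans ?_ hQu
    rw [← hPdef]
    exact QQ_ge hP0
  have hB : ∀ t : Fin 5 → ℕ, (∀ i, t i ∈ q.divisors) →
      ‖SX (∏ i, gp q (t i) (f i)) (X / ∏ i, t i) (((∏ i, t i : ℕ) : ℝ) * x)‖ ≤
        1024 * CF * (N : ℝ) ^ (ε / 2) *
          ((∏ i, SH (QQ (∏ i, (K i : ℝ)) x a q) (K i)) ^ (1 / 5 : ℝ) / Real.sqrt (QQ (∏ i, (K i : ℝ)) x a q) + 1) :=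
    fun t ht => one99 hCF hN (hF N hN) hq haq hf hP ht hQu hX
  have h5 := five_dec_x hq f X x hB
  refine h5.trans ?_
  have hd : (q.divisors.card : ℝ) ^ 5 ≤ C2 ^ 5 * (N : ℝ) ^ (ε / 2) := by
    have h1 := hD q (by omega)
    have h2 : (q : ℝ) ^ (ε / 10) ≤ (N : ℝ) ^ (ε / 10) := Real.rpow_le_rpow (by positivity) hqN (by positivity)
    calc (q.divisors.card : ℝ) ^ 5 ≤ (C2 * (N : ℝ) ^ (ε / 10)) ^ 5 :=
          pow_le_pow_left₀ (by positivity) (h1.trans (mul_le_mul_of_nonneg_left h2 hC2.le)) 5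
      _ = C2 ^ 5 * (N : ℝ) ^ (ε / 2) := by
          rw [mul_pow, ← Real.rpow_natCast ((N : ℝ) ^ (ε / 10)) 5, ← Real.rpow_mul hN0.le]
          congr 2
          push_cast
          ring
  have hE : (N : ℝ) ^ (ε / 2) * (N : ℝ) ^ (ε / 2) = (N : ℝ) ^ ε := by
    rw [← Real.rpow_add hN0]
    congr 1
    ring
  have hQ1 : 1 ≤ QQ P x a q := QQ_pos hP0 hq
  obtain ⟨B, hBd⟩ : ∃ B : ℝ, B = (∏ i, SH (QQ (∏ i, (K i : ℝ)) x a q) (K i)) ^ (1 / 5 : ℝ) /
      Real.sqrt (QQ (∏ i, (K i : ℝ)) x a q) + 1 := ⟨_, rfl⟩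
  have hB0 : 0 ≤ B := by
    rw [hBd, ← hPdef]
    have : 0 ≤ ∏ i, SH (QQ P x a q) (K i) := Finset.prod_nonneg fun i _ =>
      (SH_pos (by linarith) (by exact_mod_cast (hf i).pos)).le
    positivity
  rw [← hBd]
  calc (q.divisors.card : ℝ) ^ 5 * (1024 * CF * (N : ℝ) ^ (ε / 2) * B)
      ≤ (C2 ^ 5 * (N : ℝ) ^ (ε / 2)) * (1024 * CF * (N : ℝ) ^ (ε / 2) * B) :=
        mul_le_mul_of_nonneg_right hd (by positivity)
    _ = C2 ^ 5 * (1024 * CF) * ((N : ℝ) ^ (ε / 2) * (N : ℝ) ^ (ε / 2)) * B := by ring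
    _ = _ := by rw [hE]

end Pool.Helper19.VE
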