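import Pool.Agent.Helper19.VE.Assemble
import Pool.Agent.Helper19.VE.GcdG
import Pool.Agent.Helper19.VE.GcdH
import Pool.Agent.Helper19.VE.ArithG
import Pool.Agent.Helper19.VE.ArithH
import Pool.Agent.Helper19.V4.PartSum

/-!
# VE-10: the two sides

`side_p`: `F5` from `gcd_h` and `arith_h` (with `P = ∏ K ≤ N`: `QQ P x a q ≤ QQ N x a q`, `P / √QQ(P) ≤ N / √QQ(N)`), then `assemble` with `M = N`.
`side_v`: at `a/q` `F5` from `gcd_g` and `arith_g`, `assemble` for `x = a/q` (`QQ N (a/q) a q = q`, `N/√q ≤ N^(4/5 - d)`) gives `‖FM M (a/q)‖` for all `M ≤ N`, then `partsum`.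
-/

namespace Pool.Helper19.VE

open ArithmeticFunction Finset Pool.Helper19.V4 Pool.Helper19.V5

private lemma FM_le19 (N : ℕ) (x : ℝ) : ‖FM N x‖ ≤ N := by
  unfold FM
  have : ∀ n ∈ Icc 1 N, ‖((ArithmeticFunction.moebius n : ℤ) : ℂ) * ex (n * x)‖ ≤ 1 := by
    intro n _
    rw [norm_mul, norm_ex, mul_one, Complex.norm_intCast]
    exact_mod_cast ArithmeticFunction.abs_moebius_le_one
  refine (norm_sum_le _ _).trans ((Finset.sum_le_card_nsmul _ _ _ this).trans ?_)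
  simp

private lemma ratio19 {P N x : ℝ} {a : ℤ} {q : ℕ} (hq : 1 ≤ q) (hP : 0 ≤ P) (hPN : P ≤ N) :
    P / Real.sqrt (QQ P x a q) ≤ N / Real.sqrt (QQ N x a q) := by
  have hN : 0 ≤ N := hP.trans hPN
  have hQP : 0 < QQ P x a q := lt_of_lt_of_le one_pos (QQ_pos hP hq)
  have hQN : 0 < QQ N x a q := lt_of_lt_of_le one_pos (QQ_pos hN hq)
  have hq0 : (0 : ℝ) < q := by exact_mod_cast hq
  rw [div_le_div_iff₀ (Real.sqrt_pos.2 hQP) (Real.sqrt_pos.2 hQN)]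
  have e2 : (P * Real.sqrt (QQ N x a q)) ^ 2 ≤ (N * Real.sqrt (QQ P x a q)) ^ 2 := by
    rw [mul_pow, mul_pow, Real.sq_sqrt hQN.le, Real.sq_sqrt hQP.le]
    unfold QQ
    have hb : 0 ≤ |x - a / q| := abs_nonneg _
    have e3 : P ^ 2 ≤ N ^ 2 := pow_le_pow_left₀ hP hPN 2
    have e4 : P ^ 2 * (N * |x - a / q|) ≤ N ^ 2 * (P * |x - a / q|) := by
      have : P * N * |x - a / q| * P ≤ P * N * |x - a / q| * N :=
        mul_le_mul_of_nonneg_left hPN (mul_nonneg (mul_nonneg hP hN) hb)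
      nlinarith
    have e5 : P ^ 2 * (1 + N * |x - a / q|) ≤ N ^ 2 * (1 + P * |x - a / q|) := by linarith
    calc P ^ 2 * (q * (1 + N * |x - a / q|)) = q * (P ^ 2 * (1 + N * |x - a / q|)) := by ring
      _ ≤ q * (N ^ 2 * (1 + P * |x - a / q|)) := mul_le_mul_of_nonneg_left e5 hq0.le
      _ = _ := by ring
  exact (sq_le_sq₀ (by positivity) (by positivity)).1 e2

theorem side_p (h : M5H) : SideP (1 / 270) := by
  intro ε hε
  obtain ⟨C1, hC1, h1⟩ := gcd_h h (ε := ε / 2) (by positivity)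
  obtain ⟨C2, hC2, h2⟩ := arith_h
  obtain ⟨C3, hC3, h3⟩ := assemble (d := 1 / 270) (by norm_num) (by norm_num) (ε := ε / 2) (by positivity)
  refine ⟨C3 * (1 + C1 * (C2 + 1)) + 4, by positivity, fun N hN x a q hq haq hQ => ?_⟩
  have hNr : (1 : ℝ) ≤ N := by exact_mod_cast hN
  have hNp : (0 : ℝ) < N := by linarith
  have hmono : ∀ {x y : ℝ}, x ≤ y → (N : ℝ) ^ x ≤ (N : ℝ) ^ y := fun hxy => Real.rpow_le_rpow_of_exponent_le hNr hxy
  obtain ⟨Y, hY⟩ : ∃ Y : ℝ, Y = (N : ℝ) / Real.sqrt (QQ N x a q) + (N : ℝ) ^ (4 / 5 - 1 / 270 : ℝ) := ⟨_, rfl⟩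
  have hQ0 : 0 < QQ N x a q := lt_of_lt_of_le one_pos (QQ_pos (by positivity) hq)
  have hA0 : 0 < (N : ℝ) / Real.sqrt (QQ N x a q) := div_pos hNp (Real.sqrt_pos.2 hQ0)
  have hY1 : 1 ≤ Y := by
    rw [hY]
    have : (1 : ℝ) ≤ (N : ℝ) ^ (4 / 5 - 1 / 270 : ℝ) := Real.one_le_rpow hNr (by norm_num)
    linarith
  have hE1 : 1 ≤ (N : ℝ) ^ ε := Real.one_le_rpow hNr hε.le
  rw [← hY]
  rcases lt_or_ge N 4 with hlt | hge
  · have e1 : (N : ℝ) ≤ 4 := by exact_mod_cast hlt.le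
    calc ‖FM N x‖ ≤ N := FM_le19 N x
      _ ≤ 4 * 1 * 1 := by linarith
      _ ≤ (C3 * (1 + C1 * (C2 + 1)) + 4) * (N : ℝ) ^ ε * Y := by
        have : 0 ≤ C3 * (1 + C1 * (C2 + 1)) := by positivity
        gcongr
        linarith
  · have hN4 : (4 : ℝ) ≤ N := by exact_mod_cast hge
    obtain ⟨E, hE⟩ : ∃ E : ℝ, E = (N : ℝ) ^ (ε / 2) := ⟨_, rfl⟩
    have hE2 : (N : ℝ) ^ ε = E * E := by
      rw [hE, ← Real.rpow_add hNp]
      congr 1
      ring
    have hEg : 1 ≤ E := by rw [hE]; exact Real.one_le_rpow hNr (by positivity)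
    have hQN : QQ N x a q ≤ N := by
      refine hQ.trans ?_
      have e1 : (2 : ℝ) ≤ (N : ℝ) ^ (1 / 2 : ℝ) := by
        rw [← Real.sqrt_eq_rpow]
        exact Real.le_sqrt_of_sq_le (by linarith)
      calc 2 * (N : ℝ) ^ (1 / 2 - 2 * (1 / 270) : ℝ) ≤ (N : ℝ) ^ (1 / 2 : ℝ) * (N : ℝ) ^ (1 / 2 : ℝ) :=
            mul_le_mul e1 (hmono (by norm_num)) (by positivity) (by positivity)
        _ = N := by
            rw [← Real.rpow_add hNp]
            norm_num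
    have hF : F5 (1 / 270) N x (C1 * E * (C2 * Y + 1)) := by
      intro j0 g K hPc hlo hhi hj0 hPlo hPN X hX
      obtain ⟨Pp, hPp⟩ : ∃ Pp : ℝ, Pp = ∏ j, (K j : ℝ) := ⟨_, rfl⟩
      have hP0 : 0 ≤ Pp := by rw [hPp]; positivity
      have hPN' : Pp ≤ N := by
        rw [hPp]
        exact_mod_cast hPN
      have hQP : QQ Pp x a q ≤ QQ N x a q := QQ_mono hPN'
      have g1 := h1 N hN q a hq haq x g K hPc hPN (by rw [← hPp]; exact hQP.trans hQN) X hX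
      rw [← hPp] at g1 hPlo
      have g2 := h2 N (QQ Pp x a q) hNr (QQ_pos hP0 hq) (hQP.trans hQ) j0 (fun j => (K j : ℝ))
        (fun j => by exact_mod_cast (hPc j).pos) hlo hhi hj0 (by rw [← hPp]; exact hPlo) (by rw [← hPp]; exact hPN')
      rw [← hPp] at g2
      have g3 := ratio19 (x := x) (a := a) hq hP0 hPN'
      refine g1.trans ?_
      rw [← hE]
      refine mul_le_mul_of_nonneg_left ?_ (by positivity)
      have g4 : C2 * (Pp / Real.sqrt (QQ Pp x a q) + (N : ℝ) ^ (4 / 5 - 1 / 270 : ℝ)) ≤ C2 * Y := by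
        rw [hY]
        exact mul_le_mul_of_nonneg_left (by linarith) hC2.le
      linarith
    have g5 := h3 N hN x a q hq haq (hQ.trans (mul_le_mul_of_nonneg_left (hmono (by norm_num)) (by norm_num)))
      (C1 * E * (C2 * Y + 1)) (by positivity) hF N le_rfl
    rw [← hE, ← hY] at g5
    refine g5.trans ?_
    rw [hE2]
    have g6 : C1 * E * (C2 * Y + 1) ≤ C1 * (C2 + 1) * E * Y := by
      have : C1 * E * (C2 * Y + 1) ≤ C1 * E * (C2 * Y + Y) := by gcongr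
      linarith [mul_comm (C1 * E) ((C2 + 1) * Y)]
    have g7 : Y ≤ E * Y := le_mul_of_one_le_left (by linarith) hEg
    calc C3 * E * (Y + C1 * E * (C2 * Y + 1)) ≤ C3 * E * (E * Y + C1 * (C2 + 1) * E * Y) := by gcongr
      _ = C3 * (1 + C1 * (C2 + 1)) * (E * E) * Y := by ring
      _ ≤ (C3 * (1 + C1 * (C2 + 1)) + 4) * (E * E) * Y := by
        gcongr
        linarith

theorem side_v (h : M5G) : SideV (1 / 270) := by
  intro ε hε
  obtain ⟨C1, hC1, h1⟩ := gcd_g h (ε := ε / 2) (by positivity)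
  obtain ⟨C2, hC2, h2⟩ := arith_g
  obtain ⟨C3, hC3, h3⟩ := assemble (d := 1 / 270) (by norm_num) (by norm_num) (ε := ε / 2) (by positivity)
  refine ⟨8 * (C3 * (2 + C1 * C2)), by positivity, fun N hN x a q hq haq hq0 hq1 => ?_⟩
  have hNr : (1 : ℝ) ≤ N := by exact_mod_cast hN
  have hNp : (0 : ℝ) < N := by linarith
  have hqp : (0 : ℝ) < q := by exact_mod_cast hq
  have hmono : ∀ {x y : ℝ}, x ≤ y → (N : ℝ) ^ x ≤ (N : ℝ) ^ y := fun hxy => Real.rpow_le_rpow_of_exponent_le hNr hxy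
  obtain ⟨Z, hZ⟩ : ∃ Z : ℝ, Z = (N : ℝ) ^ (4 / 5 - 1 / 270 : ℝ) := ⟨_, rfl⟩
  have hZ0 : 0 < Z := by rw [hZ]; positivity
  obtain ⟨E, hE⟩ : ∃ E : ℝ, E = (N : ℝ) ^ (ε / 2) := ⟨_, rfl⟩
  have hE2 : (N : ℝ) ^ ε = E * E := by
    rw [hE, ← Real.rpow_add hNp]
    congr 1
    ring
  have hEg : 1 ≤ E := by rw [hE]; exact Real.one_le_rpow hNr (by positivity)
  have hqN : q ≤ N := by
    have : (q : ℝ) ≤ N := hq1.trans ((hmono (show (1 / 2 + 2 * (1 / 270) : ℝ) ≤ 1 by norm_num)).trans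
      (le_of_eq (Real.rpow_one _)))
    exact_mod_cast this
  have hQ : QQ N ((a : ℝ) / q) a q = q := by
    unfold QQ
    simp
  have hF : F5 (1 / 270) N ((a : ℝ) / q) (C1 * E * (C2 * Z)) := by
    intro j0 g K hPc hlo hhi hj0 hPlo hPN X hX
    have g1 := h1 N hN q a hq hqN haq g K hPc hPN X hX
    have hPN' : ∏ j, (K j : ℝ) ≤ N := by exact_mod_cast hPN
    have g2 := h2 N q hNr hq0 hq1 j0 (fun j => (K j : ℝ)) (fun j => by exact_mod_cast (hPc j).pos) hhi hj0 hPN'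
    rw [← hZ] at g2
    refine g1.trans ?_
    rw [← hE]
    exact mul_le_mul_of_nonneg_left g2 (by positivity)
  have hNq : (N : ℝ) / Real.sqrt q ≤ Z := by
    have e1 : (N : ℝ) ^ (1 / 4 - 1 / 270 : ℝ) ≤ Real.sqrt q := by
      have e2 : (N : ℝ) ^ (1 / 4 - 1 / 270 : ℝ) = Real.sqrt ((N : ℝ) ^ (1 / 2 - 2 * (1 / 270) : ℝ)) := by
        rw [Real.sqrt_eq_rpow, ← Real.rpow_mul hNp.le]
        congr 1
        norm_num
      rw [e2]
      exact Real.sqrt_le_sqrt hq0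
    have e3 : 0 < (N : ℝ) ^ (1 / 4 - 1 / 270 : ℝ) := by positivity
    calc (N : ℝ) / Real.sqrt q ≤ N / (N : ℝ) ^ (1 / 4 - 1 / 270 : ℝ) := div_le_div_of_nonneg_left hNp.le e3 e1
      _ = (N : ℝ) ^ (1 - (1 / 4 - 1 / 270) : ℝ) := by rw [Real.rpow_sub hNp 1 (1 / 4 - 1 / 270), Real.rpow_one]
      _ ≤ Z := by rw [hZ]; exact hmono (by norm_num)
  have hall : ∀ M ≤ N, ‖FM M ((a : ℝ) / q)‖ ≤ C3 * (2 + C1 * C2) * (E * E) * Z := by
    intro M hM
    have g5 := h3 N hN ((a : ℝ) / q) a q hq haq (by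
      rw [hQ]
      refine hq1.trans ?_
      have e1 : (N : ℝ) ^ (1 / 2 + 2 * (1 / 270) : ℝ) ≤ (N : ℝ) ^ (51 / 100 : ℝ) := hmono (by norm_num)
      have e2 : 0 < (N : ℝ) ^ (51 / 100 : ℝ) := by positivity
      linarith) (C1 * E * (C2 * Z)) (by positivity) hF M hM
    rw [hQ, ← hE, ← hZ] at g5
    refine g5.trans ?_
    have g7 : Z ≤ E * Z := le_mul_of_one_le_left hZ0.le hEg
    calc C3 * E * ((N : ℝ) / Real.sqrt q + Z + C1 * E * (C2 * Z)) ≤ C3 * E * (E * Z + E * Z + C1 * E * (C2 * Z)) := by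
          gcongr
          linarith
      _ = C3 * (2 + C1 * C2) * (E * E) * Z := by ring
  have g8 := partsum (x := x) hall
  refine g8.trans ?_
  rw [hE2, ← hZ]
  have hpi : Real.pi ≤ 4 := Real.pi_le_four
  have hb : 0 ≤ (N : ℝ) * |x - a / q| := by positivity
  have g9 : 1 + 2 * Real.pi * N * |x - a / q| ≤ 8 * (1 + N * |x - a / q|) := by
    have : 2 * Real.pi * N * |x - a / q| = 2 * Real.pi * (N * |x - a / q|) := by ring
    rw [this]
    nlinarith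
  have g10 : 0 ≤ C3 * (2 + C1 * C2) * (E * E) * Z := by positivity
  calc C3 * (2 + C1 * C2) * (E * E) * Z * (1 + 2 * Real.pi * N * |x - a / q|) ≤
      C3 * (2 + C1 * C2) * (E * E) * Z * (8 * (1 + N * |x - a / q|)) := mul_le_mul_of_nonneg_left g9 g10
    _ = _ := by ring

end Pool.Helper19.VE
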